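import Pool.Agent.Helper54.TF.Newton

set_option autoImplicit false

open MeasureTheory Set Filter Topology
open scoped NNReal ENNReal RealInnerProductSpace Gradient Pointwise

namespace Pool.Agent.Helper54.TF

/-- regularized potential of the density `ρ`. -/
noncomputable def pot (τ : ℝ) (ρ : E → ℝ) (x : E) : ℝ := ∫ y, ρ y * kr τ (x - y)

/-- regularized field of the density `ρ`. -/
noncomputable def fld (τ : ℝ) (ρ : E → ℝ) (x : E) : E := ∫ y, ρ y • gk τ (x - y)

section

variable {τ : ℝ} {ρ : E → ℝ}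

lemma integrable_mul_kr (hτ : 0 < τ) (hρ : Integrable ρ) (x : E) :
    Integrable (fun y => ρ y * kr τ (x - y)) := by
  refine (hρ.norm.mul_const (3 / (2 * τ))).mono' ?_ (Eventually.of_forall fun y => ?_)
  · exact hρ.1.mul ((continuous_kr hτ).comp (by fun_prop)).aestronglyMeasurable
  · rw [norm_mul]
    refine mul_le_mul_of_nonneg_left ?_ (norm_nonneg _)
    rw [Real.norm_of_nonneg (kr_nonneg hτ _)]
    exact kr_le hτ _

lemma integrable_smul_gk (hτ : 0 < τ) (hρ : Integrable ρ) (x : E) :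
    Integrable (fun y => ρ y • gk τ (x - y)) := by
  refine (hρ.norm.mul_const ((1 + τ⁻¹) ^ 2)).mono' ?_ (Eventually.of_forall fun y => ?_)
  · exact hρ.1.smul ((continuous_gk hτ).comp (by fun_prop)).aestronglyMeasurable
  · rw [norm_smul]
    exact mul_le_mul_of_nonneg_left (norm_gk_le_const hτ _) (norm_nonneg _)

lemma pot_nonneg (hτ : 0 < τ) (h0 : ∀ y, 0 ≤ ρ y) (x : E) : 0 ≤ pot τ ρ x :=
  integral_nonneg fun y => mul_nonneg (h0 y) (kr_nonneg hτ _)

lemma hasGradientAt_pot (hτ : 0 < τ) (hρ : Integrable ρ) (x : E) :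
    HasGradientAt (pot τ ρ) (fld τ ρ x) x := by
  rw [hasGradientAt_iff_hasFDerivAt]
  have h := hasFDerivAt_integral_of_dominated_of_fderiv_le (𝕜 := ℝ) (μ := volume)
    (F := fun x y => ρ y * kr τ (x - y))
    (F' := fun x y => ρ y • (InnerProductSpace.toDual ℝ E (gk τ (x - y)) : E →L[ℝ] ℝ))
    (x₀ := x) (s := univ) (bound := fun y => ‖ρ y‖ * (1 + τ⁻¹) ^ 2) univ_mem ?_ ?_ ?_ ?_ ?_ ?_
  · refine h.congr_fderiv ?_
    unfold fld
    have h1 := (InnerProductSpace.toDual ℝ E).toContinuousLinearEquiv.toContinuousLinearMap.integral_comp_comm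
      (integrable_smul_gk hτ hρ x)
    simp only [ContinuousLinearEquiv.coe_coe, LinearIsometryEquiv.coe_toContinuousLinearEquiv] at h1
    rw [← h1]
    refine integral_congr_ae (Eventually.of_forall fun y => ?_)
    simp
  · exact Eventually.of_forall fun x => (integrable_mul_kr hτ hρ x).1
  · exact integrable_mul_kr hτ hρ x
  · refine hρ.1.smul ?_
    refine Continuous.aestronglyMeasurable ?_
    exact (InnerProductSpace.toDual ℝ E).continuous.comp ((continuous_gk hτ).comp (by fun_prop))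
  · refine Eventually.of_forall fun y z _ => ?_
    rw [norm_smul, LinearIsometryEquiv.norm_map]
    exact mul_le_mul_of_nonneg_left (norm_gk_le_const hτ _) (norm_nonneg _)
  · exact hρ.norm.mul_const _
  · refine Eventually.of_forall fun y z _ => ?_
    have h1 := (hasGradientAt_kr hτ (z - y)).hasFDerivAt
    have h2 : HasFDerivAt (fun z : E => z - y) (ContinuousLinearMap.id ℝ E) z :=
      (hasFDerivAt_id z).sub_const y
    have h3 := (h1.comp z h2).const_mul (ρ y)
    simpa using h3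

lemma gradient_pot (hτ : 0 < τ) (hρ : Integrable ρ) : ∇ (pot τ ρ) = fld τ ρ :=
  gradient_eq (hasGradientAt_pot hτ hρ)

lemma continuous_pot (hτ : 0 < τ) (hρ : Integrable ρ) : Continuous (pot τ ρ) :=
  continuous_iff_continuousAt.2 fun x => (hasGradientAt_pot hτ hρ x).differentiableAt.continuousAt

lemma norm_fld_le (hτ : 0 < τ) (hρ : Integrable ρ) (x : E) :
    ‖fld τ ρ x‖ ≤ (∫ y, ‖ρ y‖) * (1 + τ⁻¹) ^ 2 := by
  unfold fld
  rw [← integral_mul_const]
  refine norm_integral_le_of_norm_le (hρ.norm.mul_const _) (Eventually.of_forall fun y => ?_)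
  rw [norm_smul]
  exact mul_le_mul_of_nonneg_left (norm_gk_le_const hτ _) (norm_nonneg _)

lemma lipschitz_pot (hτ : 0 < τ) (hρ : Integrable ρ) : ∃ K, LipschitzWith K (pot τ ρ) := by
  refine ⟨Real.toNNReal ((∫ y, ‖ρ y‖) * (1 + τ⁻¹) ^ 2), ?_⟩
  apply lipschitzWith_of_nnnorm_fderiv_le (𝕜 := ℝ)
  · intro x; exact (hasGradientAt_pot hτ hρ x).differentiableAt
  · intro x
    have h0 : 0 ≤ ∫ y, ‖ρ y‖ := integral_nonneg fun _ => norm_nonneg _
    rw [← NNReal.coe_le_coe, coe_nnnorm, norm_fderiv_eq, gradient_pot hτ hρ,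
      Real.coe_toNNReal _ (by positivity)]
    exact norm_fld_le hτ hρ x

lemma tendsto_pot (hτ : 0 < τ) (hρ : Integrable ρ) : Tendsto (pot τ ρ) (cocompact E) (𝓝 0) := by
  have h0 : (∫ _y : E, (0 : ℝ)) = 0 := by simp
  rw [← h0, ← Metric.cobounded_eq_cocompact]
  have : (Bornology.cobounded E).IsCountablyGenerated := by
    rw [← comap_norm_atTop]; infer_instance
  refine tendsto_integral_filter_of_dominated_convergence (fun y => ‖ρ y‖ * (3 / (2 * τ))) ?_ ?_ ?_ ?_
  · exact Eventually.of_forall fun x => (integrable_mul_kr hτ hρ x).1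
  · refine Eventually.of_forall fun x => Eventually.of_forall fun y => ?_
    rw [norm_mul]
    refine mul_le_mul_of_nonneg_left ?_ (norm_nonneg _)
    rw [Real.norm_of_nonneg (kr_nonneg hτ _)]
    exact kr_le hτ _
  · exact hρ.norm.mul_const _
  · refine Eventually.of_forall fun y => ?_
    have h1 : Tendsto (fun x : E => x - y) (Bornology.cobounded E) (cocompact E) := by
      rw [Metric.cobounded_eq_cocompact]
      exact (Homeomorph.subRight y).isClosedEmbedding.tendsto_cocompact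
    simpa using ((tendsto_kr hτ).comp h1).const_mul (ρ y)

/-- Cauchy–Schwarz for weighted integrals. -/
lemma weighted_cs (h0 : ∀ y, 0 ≤ ρ y) (hρ : Integrable ρ) {a : E → ℝ}
    (h1 : Integrable (fun y => ρ y * a y)) (h2 : Integrable (fun y => ρ y * a y ^ 2)) :
    (∫ y, ρ y * a y) ^ 2 ≤ (∫ y, ρ y) * ∫ y, ρ y * a y ^ 2 := by
  have key : ∀ t : ℝ, 0 ≤ (∫ y, ρ y) * (t * t) + (-2 * ∫ y, ρ y * a y) * t +
      ∫ y, ρ y * a y ^ 2 := by
    intro t
    have h3 : (∫ y, ρ y) * (t * t) + (-2 * ∫ y, ρ y * a y) * t + ∫ y, ρ y * a y ^ 2 =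
        ∫ y, ρ y * (a y - t) ^ 2 := by
      have h4 : ∀ y, ρ y * (a y - t) ^ 2 = ρ y * (t * t) + (-2 * t) * (ρ y * a y) + ρ y * a y ^ 2 :=
        fun y => by ring
      simp_rw [h4]
      have h5 : Integrable (fun y => ρ y * (t * t) + (-2 * t) * (ρ y * a y)) :=
        (hρ.mul_const _).add (h1.const_mul _)
      rw [integral_add h5 h2, integral_add (hρ.mul_const _) (h1.const_mul _), integral_mul_const,
        integral_const_mul]
      ring
    rw [h3]
    exact integral_nonneg fun y => mul_nonneg (h0 y) (sq_nonneg _)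
  have := discrim_le_zero key
  unfold discrim at this
  nlinarith

lemma norm_fld_sq_le (hτ : 0 < τ) (h0 : ∀ y, 0 ≤ ρ y) (hρ : Integrable ρ) (x : E) :
    ‖fld τ ρ x‖ ^ 2 ≤ (∫ y, ρ y) * ∫ y, ρ y * ‖gk τ (x - y)‖ ^ 2 := by
  have hm : AEStronglyMeasurable (fun y => ‖gk τ (x - y)‖) (volume : Measure E) :=
    ((continuous_gk hτ).comp (by fun_prop)).norm.aestronglyMeasurable
  have h1 : Integrable (fun y => ρ y * ‖gk τ (x - y)‖) := by
    refine (hρ.mul_const ((1 + τ⁻¹) ^ 2)).mono' (hρ.1.mul hm) (Eventually.of_forall fun y => ?_)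
    rw [norm_mul, Real.norm_of_nonneg (h0 y), norm_norm]
    exact mul_le_mul_of_nonneg_left (norm_gk_le_const hτ _) (h0 y)
  have h2 : Integrable (fun y => ρ y * ‖gk τ (x - y)‖ ^ 2) := by
    refine (hρ.mul_const (((1 + τ⁻¹) ^ 2) ^ 2)).mono' (hρ.1.mul (hm.pow 2))
      (Eventually.of_forall fun y => ?_)
    rw [norm_mul, Real.norm_of_nonneg (h0 y), norm_pow, norm_norm]
    exact mul_le_mul_of_nonneg_left
      (pow_le_pow_left₀ (norm_nonneg _) (norm_gk_le_const hτ _) 2) (h0 y)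
  refine le_trans ?_ (weighted_cs h0 hρ h1 h2)
  refine pow_le_pow_left₀ (norm_nonneg _) ?_ 2
  unfold fld
  refine norm_integral_le_of_norm_le h1 (Eventually.of_forall fun y => ?_)
  rw [norm_smul, Real.norm_of_nonneg (h0 y)]

lemma integrable_prod_gk_sq (hτ : 0 < τ) (hρ : Integrable ρ) :
    Integrable (fun p : E × E => ρ p.1 * ‖gk τ (p.2 - p.1)‖ ^ 2) (volume.prod volume) := by
  have hm : AEStronglyMeasurable (fun p : E × E => ρ p.1 * ‖gk τ (p.2 - p.1)‖ ^ 2)
      (volume.prod volume) := by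
    refine AEStronglyMeasurable.mul hρ.1.comp_fst ?_
    exact (((continuous_gk hτ).comp (by fun_prop)).norm.pow 2).aestronglyMeasurable
  rw [integrable_prod_iff hm]
  constructor
  · refine Eventually.of_forall fun y => ?_
    exact ((integrable_norm_gk_sq hτ).comp_sub_right y).const_mul (ρ y)
  · have h1 : ∀ y : E, ∫ x, ‖ρ y * ‖gk τ (x - y)‖ ^ 2‖ = ‖ρ y‖ * ∫ x, ‖gk τ x‖ ^ 2 := by
      intro y
      rw [← integral_sub_right_eq_self (fun x => ‖gk τ x‖ ^ 2) y, ← integral_const_mul]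
      refine integral_congr_ae (Eventually.of_forall fun x => ?_)
      simp
    simp only [h1]
    exact hρ.norm.mul_const _

lemma memLp_fld (hτ : 0 < τ) (h0 : ∀ y, 0 ≤ ρ y) (hρ : Integrable ρ) :
    MemLp (fld τ ρ) 2 volume := by
  have hmeas : Measurable (fld τ ρ) := by
    rw [← gradient_pot hτ hρ]; exact measurable_gradient _
  rw [memLp_two_iff_integrable_sq_norm hmeas.aestronglyMeasurable]
  refine ((integrable_prod_gk_sq hτ hρ).integral_prod_right.const_mul (∫ y, ρ y)).mono' ?_ ?_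
  · exact (hmeas.norm.pow_const 2).aestronglyMeasurable
  · refine Eventually.of_forall fun x => ?_
    rw [Real.norm_of_nonneg (by positivity)]
    exact norm_fld_sq_le hτ h0 hρ x

lemma dfun_pot (hτ : 0 < τ) (h0 : ∀ y, 0 ≤ ρ y) (hρ : Integrable ρ) : Dfun (pot τ ρ) :=
  ⟨lipschitz_pot hτ hρ, tendsto_pot hτ hρ, by rw [gradient_pot hτ hρ]; exact memLp_fld hτ h0 hρ⟩

/-- Fubini: pairing of a field with a gradient. -/
lemma pairing {χ : E → ℝ} (hχ : Dfun χ) (hτ : 0 < τ) (hρ : Integrable ρ) :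
    ∫ x, ⟪∇ χ x, fld τ ρ x⟫ = 4 * Real.pi * ∫ y, ρ y * bavg χ y τ := by
  have hm1 : AEStronglyMeasurable (fun p : E × E => ρ p.1 * ⟪∇ χ p.2, gk τ (p.2 - p.1)⟫)
      (volume.prod volume) := by
    refine AEStronglyMeasurable.mul hρ.1.comp_fst ?_
    refine Measurable.aestronglyMeasurable ?_
    exact Measurable.inner ((measurable_gradient χ).comp measurable_snd)
      ((continuous_gk hτ).measurable.comp (by fun_prop))
  have hint : Integrable (fun p : E × E => ρ p.1 * ⟪∇ χ p.2, gk τ (p.2 - p.1)⟫)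
      (volume.prod volume) := by
    have hbd : Integrable (fun p : E × E => ‖ρ p.1‖ * ‖∇ χ p.2‖ ^ 2 +
        ‖ρ p.1‖ * ‖gk τ (p.2 - p.1)‖ ^ 2) (volume.prod volume) := by
      refine Integrable.add ?_ (integrable_prod_gk_sq hτ hρ.norm)
      exact hρ.norm.mul_prod (hχ.grad.integrable_norm_pow (by norm_num))
    refine hbd.mono' hm1 (Eventually.of_forall fun p => ?_)
    rw [norm_mul, ← mul_add]
    refine mul_le_mul_of_nonneg_left ?_ (norm_nonneg _)
    have h1 := abs_real_inner_le_norm (∇ χ p.2) (gk τ (p.2 - p.1))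
    rw [Real.norm_eq_abs]
    nlinarith [sq_nonneg (‖∇ χ p.2‖ - ‖gk τ (p.2 - p.1)‖), sq_nonneg (‖∇ χ p.2‖),
      sq_nonneg (‖gk τ (p.2 - p.1)‖)]
  have h1 : ∫ y, ρ y * bavg χ y τ = (4 * Real.pi)⁻¹ * ∫ y, ∫ x, ρ y * ⟪∇ χ x, gk τ (x - y)⟫ := by
    rw [← integral_const_mul]
    refine integral_congr_ae (Eventually.of_forall fun y => ?_)
    simp only
    rw [integral_const_mul, radial hχ y hτ]
    have := Real.pi_pos
    field_simp
  rw [h1, integral_integral_swap (f := fun y x => ρ y * ⟪∇ χ x, gk τ (x - y)⟫) hint]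
  have hpi := Real.pi_pos
  rw [← mul_assoc, mul_inv_cancel₀ (by positivity), one_mul]
  refine integral_congr_ae (Eventually.of_forall fun x => ?_)
  simp only [fld]
  rw [← integral_inner (integrable_smul_gk hτ hρ x)]
  refine integral_congr_ae (Eventually.of_forall fun y => ?_)
  simp only
  rw [inner_smul_right]

end

end Pool.Agent.Helper54.TF
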