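import Pool.Agent.Helper54.TF.Relax

set_option autoImplicit false

open MeasureTheory Set Filter Topology
open scoped NNReal ENNReal RealInnerProductSpace Gradient Pointwise

namespace Pool.Agent.Helper54.TF

variable {k : ℕ}

/-- densities of mass `lam` -/
def Dens (lam : ℝ) (ρ : E → ℝ) : Prop :=
  (∀ x, 0 ≤ ρ x) ∧ Integrable ρ ∧ Integrable (fun x => ρ x ^ (5 / 3 : ℝ)) ∧ ∫ x, ρ x = lam

/-- the Thomas–Fermi functional -/
noncomputable def xi (z : Fin k → ℝ) (R : Fin k → E) (ρ : E → ℝ) : ℝ :=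
  3 / 5 * (∫ x, ρ x ^ (5 / 3 : ℝ)) - (∫ x, (∑ j, z j / ‖x - R j‖) * ρ x) +
    1 / 2 * (∫ x, ∫ y, ρ x * ρ y / ‖x - y‖) + ∑ i, ∑ j ∈ Finset.Ioi i, z i * z j / ‖R i - R j‖

/-- the Thomas–Fermi energy -/
noncomputable def en (z : Fin k → ℝ) (R : Fin k → E) (lam : ℝ) : ℝ :=
  sInf {e : ℝ | ∃ ρ, Dens lam ρ ∧ e = xi z R ρ}

variable {z : Fin k → ℝ} {R R' : Fin k → E} {lam : ℝ}

lemma Dens.nice {ρ : E → ℝ} (h : Dens lam ρ) : Nice ρ := ⟨h.1, h.2.1, h.2.2.1⟩

lemma Dens.mem {ρ : E → ℝ} (h : Dens lam ρ) : ρ ∈ Adm lam := ⟨h.nice, h.2.2.2.le⟩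

lemma xi_eq (z : Fin k → ℝ) (R : Fin k → E) (ρ : E → ℝ) : xi z R ρ = Xp z R ρ + Up z R := by
  unfold xi Xp Vp
  have h1 : ∫ x, ∫ y, ρ x * ρ y / ‖x - y‖ = DD ρ ρ := by
    rw [DD_eq_iterated]
    refine integral_congr_ae (Eventually.of_forall fun x => ?_)
    refine integral_congr_ae (Eventually.of_forall fun y => ?_)
    simp only
    rw [div_eq_mul_inv, mul_assoc]
  have h2 : ∑ i, ∑ j ∈ Finset.Ioi i, z i * z j / ‖R i - R j‖ = Up z R := by
    unfold Up
    have h3 := Finset.sum_sum_Ioi_add_eq_sum_sum_off_diag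
      (fun i j => z i * z j * ‖R i - R j‖⁻¹)
    have h4 : ∑ i, ∑ j ∈ Finset.Ioi i, (z j * z i * ‖R j - R i‖⁻¹ + z i * z j * ‖R i - R j‖⁻¹) =
        2 * ∑ i, ∑ j ∈ Finset.Ioi i, z i * z j / ‖R i - R j‖ := by
      rw [Finset.mul_sum]
      refine Finset.sum_congr rfl fun i _ => ?_
      rw [Finset.mul_sum]
      refine Finset.sum_congr rfl fun j _ => ?_
      rw [norm_sub_rev (R j) (R i)]
      ring
    have h5 : ∑ i, ∑ j ∈ ({i} : Finset (Fin k))ᶜ, z j * z i * ‖R j - R i‖⁻¹ =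
        ∑ i, ∑ j, z i * z j * ‖R i - R j‖⁻¹ := by
      refine Finset.sum_congr rfl fun i _ => ?_
      have h6 := Finset.sum_add_sum_compl ({i} : Finset (Fin k))
        (fun j => z j * z i * ‖R j - R i‖⁻¹)
      rw [Finset.sum_singleton, sub_self, norm_zero, inv_zero, mul_zero, zero_add] at h6
      rw [h6]
      refine Finset.sum_congr rfl fun j _ => ?_
      rw [norm_sub_rev (R j) (R i)]
      ring
    rw [h4, h5] at h3
    linarith
  rw [h1, h2]
  simp only [div_eq_mul_inv]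

lemma dens_nonempty (hlam : 0 ≤ lam) : ∃ ρ, Dens lam ρ :=
  ⟨ub lam, (nice_ub hlam).nonneg, (nice_ub hlam).int, (nice_ub hlam).int53, integral_ub lam⟩

lemma en_bdd (hz : ∀ j, 0 ≤ z j) (R : Fin k → E) (lam : ℝ) :
    BddBelow {e : ℝ | ∃ ρ, Dens lam ρ ∧ e = xi z R ρ} := by
  obtain ⟨C, hC⟩ := Xp_bdd (R := R) hz lam
  refine ⟨C + Up z R, ?_⟩
  rintro e ⟨ρ, hρ, rfl⟩
  rw [xi_eq]
  linarith [hC ρ hρ.mem]

lemma en_le_of (hz : ∀ j, 0 ≤ z j) (hlam : 0 ≤ lam)
    (h : ∀ ρ, Dens lam ρ → ∀ ε : ℝ, 0 < ε → ∃ ρ', Dens lam ρ' ∧ xi z R' ρ' ≤ xi z R ρ + ε) :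
    en z R' lam ≤ en z R lam := by
  unfold en
  obtain ⟨ρ₀, hρ₀⟩ := dens_nonempty hlam
  refine le_csInf ⟨_, ρ₀, hρ₀, rfl⟩ ?_
  rintro e ⟨ρ, hρ, rfl⟩
  refine le_of_forall_pos_le_add fun ε hε => ?_
  obtain ⟨ρ', hρ', h1⟩ := h ρ hρ ε hε
  exact (csInf_le (en_bdd hz R' lam) ⟨ρ', hρ', rfl⟩).trans h1

/-! ### Translations -/

lemma xi_translate (z : Fin k → ℝ) (R : Fin k → E) (v : E) (ρ : E → ℝ) :
    xi z (fun j => R j + v) (fun x => ρ (x - v)) = xi z R ρ := by
  unfold xi
  have h1 : ∫ x, ρ (x - v) ^ (5 / 3 : ℝ) = ∫ x, ρ x ^ (5 / 3 : ℝ) :=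
    integral_sub_right_eq_self (fun x => ρ x ^ (5 / 3 : ℝ)) v
  have h2 : ∫ x, (∑ j, z j / ‖x - (R j + v)‖) * ρ (x - v) =
      ∫ x, (∑ j, z j / ‖x - R j‖) * ρ x := by
    rw [← integral_sub_right_eq_self (fun x => (∑ j, z j / ‖x - R j‖) * ρ x) v]
    refine integral_congr_ae (Eventually.of_forall fun x => ?_)
    simp only
    congr 1
    refine Finset.sum_congr rfl fun j _ => ?_
    rw [sub_add_eq_sub_sub_swap]
  have h3 : ∫ x, ∫ y, ρ (x - v) * ρ (y - v) / ‖x - y‖ = ∫ x, ∫ y, ρ x * ρ y / ‖x - y‖ := by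
    rw [← integral_sub_right_eq_self (fun x => ∫ y, ρ x * ρ y / ‖x - y‖) v]
    refine integral_congr_ae (Eventually.of_forall fun x => ?_)
    simp only
    rw [← integral_sub_right_eq_self (fun y => ρ (x - v) * ρ y / ‖x - v - y‖) v]
    refine integral_congr_ae (Eventually.of_forall fun y => ?_)
    simp only
    rw [sub_sub_sub_cancel_right]
  rw [h1, h2, h3]
  simp only [add_sub_add_right_eq_sub]

lemma Dens.translate {ρ : E → ℝ} (h : Dens lam ρ) (v : E) : Dens lam (fun x => ρ (x - v)) := by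
  refine ⟨fun x => h.1 _, h.2.1.comp_sub_right v, h.2.2.1.comp_sub_right v, ?_⟩
  rw [integral_sub_right_eq_self (fun x => ρ x) v]
  exact h.2.2.2

lemma en_translate (z : Fin k → ℝ) (R : Fin k → E) (v : E) (lam : ℝ) :
    en z (fun j => R j + v) lam = en z R lam := by
  unfold en
  congr 1
  ext e
  constructor
  · rintro ⟨ρ, hρ, rfl⟩
    refine ⟨fun x => ρ (x - -v), hρ.translate _, ?_⟩
    rw [← xi_translate z (fun j => R j + v) (-v) ρ]
    simp only [add_neg_cancel_right]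
  · rintro ⟨ρ, hρ, rfl⟩
    exact ⟨fun x => ρ (x - v), hρ.translate _, (xi_translate z R v ρ).symm⟩

/-! ### Slab insertion -/

lemma en_slab {n : E} (hn : ‖n‖ = 1) {s : ℝ} (hs : 0 ≤ s) (hz : ∀ j, 0 ≤ z j)
    (hR : Function.Injective R) (hne : ∀ j, ⟪n, R j⟫ ≠ 0) (hlam : 0 ≤ lam)
    (h1 : ∀ j, 0 < ⟪n, R j⟫ → R' j = R j + s • n)
    (h2 : ∀ j, ⟪n, R j⟫ < 0 → R' j = R j - s • n) :
    en z R' lam ≤ en z R lam := by
  refine en_le_of hz hlam fun ρ hρ ε hε => ?_
  obtain ⟨ρ', hρ', h3⟩ := slab_point hn hs hz hR hne hlam h1 h2 hρ.mem (half_pos hε)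
  obtain ⟨ρ'', hN, hm, h4⟩ := relax (R := R') hz hρ' (half_pos hε)
  refine ⟨ρ'', ⟨hN.nonneg, hN.int, hN.int53, hm⟩, ?_⟩
  rw [xi_eq, xi_eq]
  linarith

/-- one-sided slab insertion at the plane `⟪n, x⟫ = c` -/
lemma en_slab_one {n : E} (hn : ‖n‖ = 1) {b : ℝ} (hb : 0 ≤ b) (hz : ∀ j, 0 ≤ z j)
    (hR : Function.Injective R) (c : ℝ) (hne : ∀ j, ⟪n, R j⟫ ≠ c) (hlam : 0 ≤ lam)
    (h1 : ∀ j, c < ⟪n, R j⟫ → R' j = R j + b • n)
    (h2 : ∀ j, ⟪n, R j⟫ < c → R' j = R j) :
    en z R' lam ≤ en z R lam := by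
  have hnn : ⟪n, n⟫ = 1 := by rw [real_inner_self_eq_norm_sq, hn]; norm_num
  have hin : ∀ j, ⟪n, R j + (-c) • n⟫ = ⟪n, R j⟫ - c := by
    intro j
    rw [inner_add_right, inner_smul_right, hnn]
    ring
  have hb2 : 0 ≤ b / 2 := by linarith
  have e1 : ∀ j, 0 < ⟪n, R j + (-c) • n⟫ →
      R' j + (-c - b / 2) • n = R j + (-c) • n + (b / 2) • n := by
    intro j hj
    rw [hin] at hj
    rw [h1 j (by linarith), add_assoc, add_assoc, ← add_smul, ← add_smul]
    congr 2
    ring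
  have e2 : ∀ j, ⟪n, R j + (-c) • n⟫ < 0 →
      R' j + (-c - b / 2) • n = R j + (-c) • n - (b / 2) • n := by
    intro j hj
    rw [hin] at hj
    rw [h2 j (by linarith), sub_smul, add_sub_assoc]
  have h3 := en_slab (z := z) (lam := lam) (R := fun j => R j + (-c) • n)
    (R' := fun j => R' j + (-c - b / 2) • n) hn hb2 hz
    (fun i j hij => hR (add_left_injective _ hij)) (fun j => by
      rw [hin]; exact sub_ne_zero.2 (hne j)) hlam e1 e2
  rwa [en_translate, en_translate] at h3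

/-- **Monotone stretching in one direction never raises the Thomas–Fermi energy.** -/
theorem en_stretch_nonneg {n : E} (hn : ‖n‖ = 1) (hz : ∀ j, 0 ≤ z j) (hlam : 0 ≤ lam) (N : ℕ) :
    ∀ (R : Fin k → E) (g : Fin k → ℝ), Function.Injective R → (∀ j, 0 ≤ g j) →
    (∀ i j, ⟪n, R i⟫ ≤ ⟪n, R j⟫ → g i ≤ g j) →
    (Finset.univ.filter fun j => g j ≠ 0).card ≤ N →
    en z (fun j => R j + g j • n) lam ≤ en z R lam := by
  have hnn : ⟪n, n⟫ = 1 := by rw [real_inner_self_eq_norm_sq, hn]; norm_num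
  induction N with
  | zero =>
    intro R g hR hg hmon hcard
    have h0 : ∀ j, g j = 0 := by
      intro j
      by_contra hj
      have : j ∈ (Finset.univ.filter fun j => g j ≠ 0) := by simp [hj]
      rw [Finset.card_eq_zero.1 (Nat.le_zero.1 hcard)] at this
      simp at this
    simp [h0]
  | succ N ih =>
    intro R g hR hg hmon hcard
    by_cases hall : ∀ j, g j = 0
    · simp [hall]
    push Not at hall
    let A : Finset (Fin k) := Finset.univ.filter fun j => g j ≠ 0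
    have hA : A.Nonempty := by
      obtain ⟨j, hj⟩ := hall
      exact ⟨j, by simp [A, hj]⟩
    obtain ⟨m, hmA, hmin⟩ := A.exists_min_image g hA
    have hAmem : ∀ j, j ∈ A ↔ g j ≠ 0 := fun j => by simp [A]
    have hm0 : 0 < g m := lt_of_le_of_ne (hg m) (Ne.symm ((hAmem m).1 hmA))
    -- heights of the complement are below heights of `A`
    have hsep : ∀ x ∈ (Aᶜ.image fun j => ⟪n, R j⟫), ∀ y ∈ (A.image fun j => ⟪n, R j⟫), x < y := by
      intro x hx y hy
      rw [Finset.mem_image] at hx hy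
      obtain ⟨i, hi, rfl⟩ := hx
      obtain ⟨j, hj, rfl⟩ := hy
      rw [Finset.mem_compl, hAmem, not_not] at hi
      by_contra hcon
      push Not at hcon
      have h1 := hmon j i hcon
      rw [hi] at h1
      exact (hAmem j).1 hj (le_antisymm h1 (hg j))
    obtain ⟨c, hc1, hc2⟩ := Order.exists_between_finsets _ _ hsep
    have hcA : ∀ j, j ∈ A ↔ c < ⟪n, R j⟫ := by
      intro j
      constructor
      · intro hj
        exact hc2 _ (Finset.mem_image_of_mem _ hj)
      · intro hj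
        by_contra hj'
        exact absurd (hc1 _ (Finset.mem_image_of_mem _ (Finset.mem_compl.2 hj'))) (not_lt.2 hj.le)
    have hcA' : ∀ j, j ∉ A → ⟪n, R j⟫ < c := fun j hj =>
      hc1 _ (Finset.mem_image_of_mem _ (Finset.mem_compl.2 hj))
    let R₁ : Fin k → E := fun j => if j ∈ A then R j + g m • n else R j
    let g₁ : Fin k → ℝ := fun j => if j ∈ A then g j - g m else 0
    have hstep : en z R₁ lam ≤ en z R lam := by
      refine en_slab_one hn hm0.le hz hR c (fun j hj => ?_) hlam (fun j hj => ?_) fun j hj => ?_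
      · by_cases hjA : j ∈ A
        · exact absurd ((hcA j).1 hjA) (by rw [hj]; exact lt_irrefl _)
        · exact absurd (hcA' j hjA) (by rw [hj]; exact lt_irrefl _)
      · simp only [R₁]
        rw [if_pos ((hcA j).2 hj)]
      · simp only [R₁]
        rw [if_neg fun h => absurd ((hcA j).1 h) (not_lt.2 hj.le)]
    have hinner : ∀ j, ⟪n, R₁ j⟫ = if j ∈ A then ⟪n, R j⟫ + g m else ⟪n, R j⟫ := by
      intro j
      simp only [R₁]
      split_ifs
      · rw [inner_add_right, inner_smul_right, hnn, mul_one]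
      · rfl
    have hR₁ : Function.Injective R₁ := by
      intro i j hij
      by_cases hi : i ∈ A <;> by_cases hj : j ∈ A
      · simp only [R₁, if_pos hi, if_pos hj] at hij
        exact hR (add_left_injective _ hij)
      · have h1 := congrArg (fun v => ⟪n, v⟫) hij
        simp only [hinner, if_pos hi, if_neg hj] at h1
        have h2 := (hcA i).1 hi
        have h3 := hcA' j hj
        linarith
      · have h1 := congrArg (fun v => ⟪n, v⟫) hij
        simp only [hinner, if_neg hi, if_pos hj] at h1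
        have h2 := (hcA j).1 hj
        have h3 := hcA' i hi
        linarith
      · simp only [R₁, if_neg hi, if_neg hj] at hij
        exact hR hij
    have hg₁ : ∀ j, 0 ≤ g₁ j := by
      intro j
      simp only [g₁]
      split_ifs with hj
      · linarith [hmin j hj]
      · exact le_rfl
    have hmon₁ : ∀ i j, ⟪n, R₁ i⟫ ≤ ⟪n, R₁ j⟫ → g₁ i ≤ g₁ j := by
      intro i j hij
      rw [hinner, hinner] at hij
      by_cases hi : i ∈ A <;> by_cases hj : j ∈ A
      · simp only [g₁, if_pos hi, if_pos hj] at hij ⊢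
        linarith [hmon i j (by linarith)]
      · rw [if_pos hi, if_neg hj] at hij
        have h2 := (hcA i).1 hi
        have h3 := hcA' j hj
        linarith
      · have := hg₁ j
        simp only [g₁, if_neg hi] at this ⊢
        exact this
      · simp only [g₁, if_neg hi, if_neg hj, le_refl]
    have hcard₁ : (Finset.univ.filter fun j => g₁ j ≠ 0).card ≤ N := by
      have h1 : (Finset.univ.filter fun j => g₁ j ≠ 0) ⊆ A.erase m := by
        intro j hj
        rw [Finset.mem_filter] at hj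
        rw [Finset.mem_erase]
        by_cases hjA : j ∈ A
        · refine ⟨?_, hjA⟩
          rintro rfl
          apply hj.2
          simp only [g₁]
          rw [if_pos hjA, sub_self]
        · exact absurd (by simp only [g₁]; rw [if_neg hjA]) hj.2
      have h2 := Finset.card_le_card h1
      rw [Finset.card_erase_of_mem hmA] at h2
      have h3 : A.card ≤ N + 1 := hcard
      omega
    have h4 := ih R₁ g₁ hR₁ hg₁ hmon₁ hcard₁
    have h5 : (fun j => R₁ j + g₁ j • n) = fun j => R j + g j • n := by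
      ext1 j
      simp only [R₁, g₁]
      split_ifs with hj
      · rw [add_assoc, ← add_smul]
        congr 2
        ring
      · have : g j = 0 := by
          by_contra h
          exact hj ((hAmem j).2 h)
        rw [this]
    rw [h5] at h4
    exact h4.trans hstep

/-- **Monotone stretching in one direction never raises the Thomas–Fermi energy.** -/
theorem en_stretch {n : E} (hn : ‖n‖ = 1) (hz : ∀ j, 0 ≤ z j) (hlam : 0 ≤ lam)
    (hR : Function.Injective R) {g : Fin k → ℝ} (hmon : ∀ i j, ⟪n, R i⟫ ≤ ⟪n, R j⟫ → g i ≤ g j) :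
    en z (fun j => R j + g j • n) lam ≤ en z R lam := by
  obtain ⟨m, hm⟩ : ∃ m : ℝ, ∀ j, m ≤ g j := by
    obtain ⟨m, hm⟩ := (Set.finite_range g).bddBelow
    exact ⟨m, fun j => hm (mem_range_self j)⟩
  have h1 := en_stretch_nonneg hn hz hlam _ R (fun j => g j - m) hR
    (fun j => sub_nonneg.2 (hm j)) (fun i j hij => sub_le_sub_right (hmon i j hij) m) le_rfl
  have h2 : (fun j => R j + (g j - m) • n) = fun j => (R j + g j • n) + (-m) • n := by
    ext1 j
    rw [add_assoc, ← add_smul, sub_eq_add_neg]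
  rw [h2, en_translate z (fun j => R j + g j • n) ((-m) • n) lam] at h1
  exact h1

end Pool.Agent.Helper54.TF
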