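import Pool.Agent.Helper54.TF.Conv

set_option autoImplicit false

open MeasureTheory Set Filter Topology
open scoped NNReal ENNReal RealInnerProductSpace Gradient Pointwise

namespace Pool.Agent.Helper54.TF

/-- the local singularity `‖u‖ ^ (-5/2)` on the unit ball. -/
noncomputable def sing (u : E) : ℝ :=
  (Metric.ball (0 : E) 1).indicator (fun u => ‖u‖ ^ (-(5 / 2) : ℝ)) u

lemma sing_nonneg (u : E) : 0 ≤ sing u := by
  unfold sing
  exact indicator_nonneg (fun _ _ => by positivity) _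

lemma integrable_sing : Integrable sing := by
  unfold sing
  rw [integrable_indicator_iff Metric.isOpen_ball.measurableSet]
  refine integrableOn_ball_of_norm_le_rpow (C := 1) (α := 5 / 2) (by simp) (by simp; norm_num) ?_ ?_
  · refine Eventually.of_forall fun x => ?_
    rw [one_mul, Real.norm_of_nonneg (by positivity)]
  · exact (by fun_prop : Measurable fun u : E => ‖u‖ ^ (-(5 / 2) : ℝ)).aestronglyMeasurable

/-- its integral -/
noncomputable def cI : ℝ := ∫ u, sing u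

lemma cI_nonneg : 0 ≤ cI := integral_nonneg sing_nonneg

lemma conj : Real.HolderConjugate (5 / 3) (5 / 2) := by
  rw [Real.holderConjugate_iff]; norm_num

lemma young (a b s : ℝ) (ha : 0 ≤ a) (hb : 0 ≤ b) (hs : 0 < s) :
    a * b ≤ 3 / 5 * (s ^ (5 / 3 : ℝ) * a ^ (5 / 3 : ℝ)) + 2 / 5 * (s ^ (-(5 / 2) : ℝ) * b ^ (5 / 2 : ℝ)) := by
  have h := Real.young_inequality_of_nonneg (a := s * a) (b := s⁻¹ * b) (by positivity)
    (by positivity) conj
  rw [Real.mul_rpow hs.le ha, Real.mul_rpow (by positivity) hb, Real.inv_rpow hs.le,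
    ← Real.rpow_neg hs.le] at h
  have h1 : s * a * (s⁻¹ * b) = a * b := by field_simp
  rw [h1] at h
  linarith

lemma mul_inv_norm_le {a s : ℝ} (ha : 0 ≤ a) (hs : 0 < s) (u : E) :
    a * ‖u‖⁻¹ ≤ 3 / 5 * (s ^ (5 / 3 : ℝ) * a ^ (5 / 3 : ℝ)) +
      2 / 5 * (s ^ (-(5 / 2) : ℝ) * sing u) + a := by
  have h1 : 0 ≤ 3 / 5 * (s ^ (5 / 3 : ℝ) * a ^ (5 / 3 : ℝ)) := by positivity
  have h2 : 0 ≤ 2 / 5 * (s ^ (-(5 / 2) : ℝ) * sing u) := by
    have := sing_nonneg u
    positivity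
  rcases lt_or_ge ‖u‖ 1 with h | h
  · rcases eq_or_ne u 0 with rfl | hu
    · simp only [norm_zero, inv_zero, mul_zero]; linarith
    · have h3 := young a ‖u‖⁻¹ s ha (by positivity) hs
      have h4 : sing u = ‖u‖⁻¹ ^ (5 / 2 : ℝ) := by
        unfold sing
        rw [indicator_of_mem (by simpa using h), Real.inv_rpow (norm_nonneg _),
          Real.rpow_neg (norm_nonneg _)]
      rw [← h4] at h3
      linarith
  · have h3 : a * ‖u‖⁻¹ ≤ a := mul_le_of_le_one_right ha (inv_le_one_of_one_le₀ h)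
    linarith

/-- Admissible densities (without mass constraint). -/
structure Nice (ρ : E → ℝ) : Prop where
  nonneg : ∀ x, 0 ≤ ρ x
  int : Integrable ρ
  int53 : Integrable (fun x => ρ x ^ (5 / 3 : ℝ))

/-- Coulomb potential -/
noncomputable def cpot (ρ : E → ℝ) (x : E) : ℝ := ∫ y, ρ y * ‖x - y‖⁻¹

/-- Coulomb interaction energy -/
noncomputable def DD (ρ₁ ρ₂ : E → ℝ) : ℝ := ∫ x, ρ₁ x * cpot ρ₂ x

section

variable {ρ ρ₁ ρ₂ : E → ℝ}

lemma integrable_bound (h : Nice ρ) (x : E) (s : ℝ) :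
    Integrable (fun y => 3 / 5 * (s ^ (5 / 3 : ℝ) * ρ y ^ (5 / 3 : ℝ)) +
      2 / 5 * (s ^ (-(5 / 2) : ℝ) * sing (x - y)) + ρ y) := by
  refine ((((h.int53.const_mul _).const_mul _)).add ?_).add h.int
  exact ((integrable_sing.comp_sub_left x).const_mul _).const_mul _

lemma Nice.integrable_inv (h : Nice ρ) (x : E) : Integrable (fun y => ρ y * ‖x - y‖⁻¹) := by
  refine (integrable_bound h x 1).mono' ?_ (Eventually.of_forall fun y => ?_)
  · exact h.int.1.mul (by fun_prop : Measurable fun y : E => ‖x - y‖⁻¹).aestronglyMeasurable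
  · rw [Real.norm_of_nonneg (mul_nonneg (h.nonneg y) (by positivity))]
    exact mul_inv_norm_le (h.nonneg y) one_pos _

lemma cpot_nonneg (h : ∀ x, 0 ≤ ρ x) (x : E) : 0 ≤ cpot ρ x :=
  integral_nonneg fun y => mul_nonneg (h y) (by positivity)

lemma Nice.cpot_le (h : Nice ρ) (x : E) {s : ℝ} (hs : 0 < s) :
    cpot ρ x ≤ 3 / 5 * (s ^ (5 / 3 : ℝ) * ∫ y, ρ y ^ (5 / 3 : ℝ)) +
      2 / 5 * (s ^ (-(5 / 2) : ℝ) * cI) + ∫ y, ρ y := by
  have h1 : cpot ρ x ≤ ∫ y, (3 / 5 * (s ^ (5 / 3 : ℝ) * ρ y ^ (5 / 3 : ℝ)) +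
      2 / 5 * (s ^ (-(5 / 2) : ℝ) * sing (x - y)) + ρ y) :=
    integral_mono (h.integrable_inv x) (integrable_bound h x s)
      fun y => mul_inv_norm_le (h.nonneg y) hs _
  refine h1.trans (le_of_eq ?_)
  have i1 : Integrable (fun y => 3 / 5 * (s ^ (5 / 3 : ℝ) * ρ y ^ (5 / 3 : ℝ))) :=
    ((h.int53.const_mul _).const_mul _)
  have i2 : Integrable (fun y => 2 / 5 * (s ^ (-(5 / 2) : ℝ) * sing (x - y))) :=
    ((integrable_sing.comp_sub_left x).const_mul _).const_mul _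
  have i3 : Integrable (fun y => 3 / 5 * (s ^ (5 / 3 : ℝ) * ρ y ^ (5 / 3 : ℝ)) +
      2 / 5 * (s ^ (-(5 / 2) : ℝ) * sing (x - y))) := i1.add i2
  rw [integral_add i3 h.int, integral_add i1 i2, integral_const_mul, integral_const_mul,
    integral_const_mul, integral_const_mul, integral_sub_left_eq_self (fun y => sing y) volume x]
  rfl

lemma Nice.cpot_bdd (h : Nice ρ) : ∃ C, ∀ x, cpot ρ x ≤ C := ⟨_, fun x => h.cpot_le x one_pos⟩

lemma integrable_coulomb (h₁ : Nice ρ₁) (h₂ : Nice ρ₂) :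
    Integrable (fun p : E × E => ρ₁ p.1 * (ρ₂ p.2 * ‖p.1 - p.2‖⁻¹)) (volume.prod volume) := by
  have hm : AEStronglyMeasurable (fun p : E × E => ρ₁ p.1 * (ρ₂ p.2 * ‖p.1 - p.2‖⁻¹))
      (volume.prod volume) := by
    refine AEStronglyMeasurable.mul h₁.int.1.comp_fst (AEStronglyMeasurable.mul h₂.int.1.comp_snd ?_)
    exact (by fun_prop : Measurable fun p : E × E => ‖p.1 - p.2‖⁻¹).aestronglyMeasurable
  obtain ⟨C, hC⟩ := h₂.cpot_bdd
  rw [integrable_prod_iff hm]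
  refine ⟨Eventually.of_forall fun x => (h₂.integrable_inv x).const_mul (ρ₁ x), ?_⟩
  refine (h₁.int.mul_const C).mono' hm.norm.integral_prod_right' (Eventually.of_forall fun x => ?_)
  have h3 : ∫ y, ‖ρ₁ x * (ρ₂ y * ‖x - y‖⁻¹)‖ = ρ₁ x * cpot ρ₂ x := by
    unfold cpot
    rw [← integral_const_mul]
    refine integral_congr_ae (Eventually.of_forall fun y => ?_)
    simp only
    rw [Real.norm_of_nonneg]
    exact mul_nonneg (h₁.nonneg x) (mul_nonneg (h₂.nonneg y) (by positivity))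
  simp only [h3]
  rw [Real.norm_of_nonneg (mul_nonneg (h₁.nonneg x) (cpot_nonneg h₂.nonneg x))]
  exact mul_le_mul_of_nonneg_left (hC x) (h₁.nonneg x)

lemma DD_eq_iterated : DD ρ₁ ρ₂ = ∫ x, ∫ y, ρ₁ x * (ρ₂ y * ‖x - y‖⁻¹) := by
  unfold DD cpot
  refine integral_congr_ae (Eventually.of_forall fun x => ?_)
  simp only
  rw [integral_const_mul]

lemma integrable_mul_cpot (h₁ : Nice ρ₁) (h₂ : Nice ρ₂) :
    Integrable (fun x => ρ₁ x * cpot ρ₂ x) := by
  have := (integrable_coulomb h₁ h₂).integral_prod_left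
  refine this.congr (Eventually.of_forall fun x => ?_)
  simp only [cpot]
  rw [integral_const_mul]

lemma DD_comm (h₁ : Nice ρ₁) (h₂ : Nice ρ₂) : DD ρ₁ ρ₂ = DD ρ₂ ρ₁ := by
  rw [DD_eq_iterated, DD_eq_iterated,
    integral_integral_swap (f := fun x y => ρ₁ x * (ρ₂ y * ‖x - y‖⁻¹)) (integrable_coulomb h₁ h₂)]
  refine integral_congr_ae (Eventually.of_forall fun y => ?_)
  refine integral_congr_ae (Eventually.of_forall fun x => ?_)
  simp only
  rw [norm_sub_rev]
  ring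

lemma DD_nonneg (h₁ : ∀ x, 0 ≤ ρ₁ x) (h₂ : ∀ x, 0 ≤ ρ₂ x) : 0 ≤ DD ρ₁ ρ₂ :=
  integral_nonneg fun x => mul_nonneg (h₁ x) (cpot_nonneg h₂ x)

lemma pot_le_cpot {τ : ℝ} (hτ : 0 < τ) (h : Nice ρ) (x : E) : pot τ ρ x ≤ cpot ρ x := by
  unfold pot cpot
  refine integral_mono_ae (integrable_mul_kr hτ h.int x) (h.integrable_inv x) ?_
  have h1 : ∀ᵐ y : E, y ≠ x := by rw [ae_iff]; simp
  refine h1.mono fun y hy => ?_
  exact mul_le_mul_of_nonneg_left (kr_le_inv hτ (sub_ne_zero.2 hy.symm)) (h.nonneg y)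

lemma integrable_mul_pot {τ : ℝ} (hτ : 0 < τ) (h₁ : Integrable ρ₁) (h₂ : Integrable ρ₂) :
    Integrable (fun x => ρ₁ x * pot τ ρ₂ x) := by
  refine (h₁.norm.mul_const ((∫ y, ‖ρ₂ y‖) * (3 / (2 * τ)))).mono'
    (h₁.1.mul (continuous_pot hτ h₂).aestronglyMeasurable) (Eventually.of_forall fun x => ?_)
  rw [norm_mul]
  refine mul_le_mul_of_nonneg_left ?_ (norm_nonneg _)
  unfold pot
  rw [← integral_mul_const]
  refine norm_integral_le_of_norm_le (h₂.norm.mul_const _) (Eventually.of_forall fun y => ?_)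
  rw [norm_mul]
  refine mul_le_mul_of_nonneg_left ?_ (norm_nonneg _)
  rw [Real.norm_of_nonneg (kr_nonneg hτ _)]
  exact kr_le hτ _

lemma pot_energy_le {τ : ℝ} (hτ : 0 < τ) (h₁ : Nice ρ₁) (h₂ : Nice ρ₂) :
    ∫ x, ρ₁ x * pot τ ρ₂ x ≤ DD ρ₁ ρ₂ :=
  integral_mono (integrable_mul_pot hτ h₁.int h₂.int) (integrable_mul_cpot h₁ h₂)
    fun x => mul_le_mul_of_nonneg_left (pot_le_cpot hτ h₂ x) (h₁.nonneg x)

/-- symmetry of the regularized interaction -/
lemma pot_symm {τ : ℝ} (hτ : 0 < τ) (h₁ : Integrable ρ₁) (h₂ : Integrable ρ₂) :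
    ∫ x, ρ₁ x * pot τ ρ₂ x = ∫ x, ρ₂ x * pot τ ρ₁ x := by
  have hint : Integrable (fun p : E × E => ρ₁ p.1 * (ρ₂ p.2 * kr τ (p.1 - p.2)))
      (volume.prod volume) := by
    refine ((h₁.norm.mul_prod h₂.norm).mul_const (3 / (2 * τ))).mono' ?_
      (Eventually.of_forall fun p => ?_)
    · refine AEStronglyMeasurable.mul h₁.1.comp_fst (AEStronglyMeasurable.mul h₂.1.comp_snd ?_)
      exact ((continuous_kr hτ).comp (by fun_prop)).aestronglyMeasurable
    · rw [norm_mul, norm_mul, ← mul_assoc]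
      refine mul_le_mul_of_nonneg_left ?_ (by positivity)
      rw [Real.norm_of_nonneg (kr_nonneg hτ _)]
      exact kr_le hτ _
  have h3 : ∀ ρ₁ ρ₂ : E → ℝ, ∫ x, ρ₁ x * pot τ ρ₂ x = ∫ x, ∫ y, ρ₁ x * (ρ₂ y * kr τ (x - y)) := by
    intro ρ₁ ρ₂
    refine integral_congr_ae (Eventually.of_forall fun x => ?_)
    simp only [pot]
    rw [integral_const_mul]
  rw [h3, h3, integral_integral_swap (f := fun x y => ρ₁ x * (ρ₂ y * kr τ (x - y))) hint]
  refine integral_congr_ae (Eventually.of_forall fun y => ?_)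
  refine integral_congr_ae (Eventually.of_forall fun x => ?_)
  simp only
  rw [← kr_neg, neg_sub]
  ring

lemma bavg_pot_le {τ : ℝ} (hτ : 0 < τ) (h0 : ∀ y, 0 ≤ ρ y) (hρ : Integrable ρ) (y : E) :
    bavg (pot τ ρ) y τ ≤ pot τ ρ y := by
  have hint : Integrable (fun p : E × E => ρ p.2 * kr τ (y + τ • p.1 - p.2))
      ((volume.restrict (Metric.ball (0 : E) 1)).prod volume) := by
    have h1 : Integrable (fun p : E × E => (3 / (2 * τ)) * ‖ρ p.2‖)
        ((volume.restrict (Metric.ball (0 : E) 1)).prod volume) :=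
      (integrable_const (3 / (2 * τ))).mul_prod hρ.norm
    refine h1.mono' ?_ (Eventually.of_forall fun p => ?_)
    · refine AEStronglyMeasurable.mul hρ.1.comp_snd ?_
      exact ((continuous_kr hτ).comp (by fun_prop)).aestronglyMeasurable
    · rw [norm_mul, mul_comm]
      refine mul_le_mul_of_nonneg_right ?_ (by positivity)
      rw [Real.norm_of_nonneg (kr_nonneg hτ _)]
      exact kr_le hτ _
  unfold bavg pot
  rw [integral_integral_swap (f := fun u z => ρ z * kr τ (y + τ • u - z)) hint,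
    ← integral_const_mul]
  have h2 : ∀ z : E, 3 / (4 * Real.pi) * ∫ u in Metric.ball (0 : E) 1, ρ z * kr τ (y + τ • u - z) =
      ρ z * bavg (kr τ) (y - z) τ := by
    intro z
    rw [integral_const_mul, bavg]
    have : ∀ u : E, y + τ • u - z = y - z + τ • u := fun u => by abel
    simp only [this]
    ring
  simp only [h2]
  have hK := lipschitz_kr hτ
  have hb : ∀ z : E, 0 ≤ bavg (kr τ) (y - z) τ := by
    intro z
    rw [← bavg_const 0 (y - z) τ]
    exact bavg_mono continuous_const (continuous_kr hτ) hτ fun x _ => kr_nonneg hτ x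
  refine integral_mono ?_ (integrable_mul_kr hτ hρ y) fun z =>
    mul_le_mul_of_nonneg_left (bavg_kr_le hτ _) (h0 z)
  refine (hρ.norm.mul_const (3 / (2 * τ))).mono' ?_ (Eventually.of_forall fun z => ?_)
  · exact hρ.1.mul (((continuous_bavg hK hτ).continuous.comp
      (by fun_prop : Continuous fun z : E => y - z)).aestronglyMeasurable)
  · rw [norm_mul]
    refine mul_le_mul_of_nonneg_left ?_ (norm_nonneg _)
    rw [Real.norm_of_nonneg (hb z)]
    exact (bavg_kr_le hτ _).trans (kr_le hτ _)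

lemma fld_energy {τ : ℝ} (hτ : 0 < τ) (h0 : ∀ y, 0 ≤ ρ y) (hρ : Integrable ρ) :
    ∫ x, ‖fld τ ρ x‖ ^ 2 ≤ 4 * Real.pi * ∫ y, ρ y * pot τ ρ y := by
  have h1 := pairing (dfun_pot hτ h0 hρ) hτ hρ
  rw [gradient_pot hτ hρ] at h1
  have h2 : ∀ x, ⟪fld τ ρ x, fld τ ρ x⟫ = ‖fld τ ρ x‖ ^ 2 := fun x => real_inner_self_eq_norm_sq _
  simp only [h2] at h1
  rw [h1]
  have := Real.pi_pos
  refine mul_le_mul_of_nonneg_left ?_ (by positivity)
  obtain ⟨K, hK⟩ := lipschitz_pot hτ hρ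
  obtain ⟨C, hC⟩ := (dfun_pot hτ h0 hρ).bounded
  have hb : ∀ z : E, 0 ≤ bavg (pot τ ρ) z τ := by
    intro z
    rw [← bavg_const 0 z τ]
    exact bavg_mono continuous_const (continuous_pot hτ hρ) hτ fun x _ => pot_nonneg hτ h0 x
  refine integral_mono ?_ (integrable_mul_pot hτ hρ hρ) fun y =>
    mul_le_mul_of_nonneg_left (bavg_pot_le hτ h0 hρ y) (h0 y)
  refine (hρ.norm.mul_const C).mono' ?_ (Eventually.of_forall fun z => ?_)
  · exact hρ.1.mul (continuous_bavg hK hτ).continuous.aestronglyMeasurable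
  · rw [norm_mul]
    refine mul_le_mul_of_nonneg_left ?_ (norm_nonneg _)
    rw [Real.norm_of_nonneg (hb z)]
    refine (bavg_pot_le hτ h0 hρ z).trans ((le_abs_self _).trans (hC z))

/-- Weak duality between the Coulomb energy and the Dirichlet integral. -/
theorem weak_coulomb {χ : E → ℝ} (hχ : Dfun χ) (h : Nice ρ) :
    ∫ x, χ x * ρ x ≤ (8 * Real.pi)⁻¹ * (∫ x, ‖∇ χ x‖ ^ 2) + 1 / 2 * DD ρ ρ := by
  obtain ⟨K, hK⟩ := hχ.lip
  obtain ⟨C, hC⟩ := hχ.bounded
  have hpi := Real.pi_pos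
  have hint : Integrable (fun x => χ x * ρ x) := by
    refine (h.int.norm.const_mul C).mono' (hχ.continuous.aestronglyMeasurable.mul h.int.1)
      (Eventually.of_forall fun x => ?_)
    rw [norm_mul]
    exact mul_le_mul_of_nonneg_right (hC x) (norm_nonneg _)
  refine le_of_forall_pos_le_add fun ε hε => ?_
  have hm : 0 ≤ ∫ x, ρ x := integral_nonneg h.nonneg
  let τ : ℝ := ε / (K * (∫ x, ρ x) + 1)
  have hden : 0 < K * (∫ x, ρ x) + 1 := by positivity
  have hτ : 0 < τ := by positivity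
  have hKτ : K * τ * (∫ x, ρ x) ≤ ε := by
    have : K * τ * (∫ x, ρ x) = ε * (K * (∫ x, ρ x)) / (K * (∫ x, ρ x) + 1) := by
      simp only [τ]; ring
    rw [this, div_le_iff₀ hden]
    nlinarith
  -- compare with averages
  have hintb : Integrable (fun x => ρ x * bavg χ x τ) := by
    refine (h.int.norm.mul_const (C + K * τ)).mono'
      (h.int.1.mul (continuous_bavg hK hτ).continuous.aestronglyMeasurable)
      (Eventually.of_forall fun x => ?_)
    rw [norm_mul]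
    refine mul_le_mul_of_nonneg_left ?_ (norm_nonneg _)
    rw [Real.norm_eq_abs]
    have h1 := abs_bavg_sub_le hK x hτ
    have h2 := hC x
    have h3 : |bavg χ x τ| ≤ |bavg χ x τ - χ x| + |χ x| := by
      have := abs_add_le (bavg χ x τ - χ x) (χ x)
      simpa using this
    linarith
  have h1 : ∫ x, χ x * ρ x ≤ ∫ x, (ρ x * bavg χ x τ + K * τ * ρ x) := by
    refine integral_mono hint (hintb.add (h.int.const_mul _)) fun x => ?_
    have h1 := (abs_le.1 (abs_bavg_sub_le hK x hτ)).1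
    have h2 := h.nonneg x
    simp only
    nlinarith
  rw [integral_add hintb (h.int.const_mul _), integral_const_mul] at h1
  have h2 := pairing hχ hτ h.int
  have hF := memLp_fld hτ h.nonneg h.int
  have h3 : ∫ x, ⟪∇ χ x, fld τ ρ x⟫ ≤ ∫ x, (1 / 2 * ‖∇ χ x‖ ^ 2 + 1 / 2 * ‖fld τ ρ x‖ ^ 2) := by
    have i1 : Integrable (fun x => ‖∇ χ x‖ ^ 2) := hχ.grad.integrable_norm_pow (by norm_num)
    have i2 : Integrable (fun x => ‖fld τ ρ x‖ ^ 2) := hF.integrable_norm_pow (by norm_num)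
    have hbd : ∀ x, |⟪∇ χ x, fld τ ρ x⟫| ≤ 1 / 2 * ‖∇ χ x‖ ^ 2 + 1 / 2 * ‖fld τ ρ x‖ ^ 2 := by
      intro x
      have := abs_real_inner_le_norm (∇ χ x) (fld τ ρ x)
      nlinarith [sq_nonneg (‖∇ χ x‖ - ‖fld τ ρ x‖)]
    refine integral_mono ?_ ((i1.const_mul _).add (i2.const_mul _)) fun x =>
      (le_abs_self _).trans (hbd x)
    refine ((i1.const_mul (1 / 2)).add (i2.const_mul (1 / 2))).mono' ?_
      (Eventually.of_forall fun x => hbd x)
    exact hχ.grad.1.inner hF.1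
  have i1 : Integrable (fun x => ‖∇ χ x‖ ^ 2) := hχ.grad.integrable_norm_pow (by norm_num)
  have i2 : Integrable (fun x => ‖fld τ ρ x‖ ^ 2) := hF.integrable_norm_pow (by norm_num)
  rw [integral_add (i1.const_mul _) (i2.const_mul _), integral_const_mul, integral_const_mul, h2]
    at h3
  have h4 := fld_energy hτ h.nonneg h.int
  have h5 := pot_energy_le hτ h h
  have h6 : 4 * Real.pi * ∫ y, ρ y * pot τ ρ y ≤ 4 * Real.pi * DD ρ ρ :=
    mul_le_mul_of_nonneg_left h5 (by positivity)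
  have h7 : 4 * Real.pi * ∫ y, ρ y * bavg χ y τ ≤
      4 * Real.pi * ((8 * Real.pi)⁻¹ * (∫ x, ‖∇ χ x‖ ^ 2) + 1 / 2 * DD ρ ρ) := by
    have : 4 * Real.pi * ((8 * Real.pi)⁻¹ * (∫ x, ‖∇ χ x‖ ^ 2) + 1 / 2 * DD ρ ρ) =
        1 / 2 * (∫ x, ‖∇ χ x‖ ^ 2) + 1 / 2 * (4 * Real.pi * DD ρ ρ) := by
      field_simp
      ring
    rw [this]
    linarith
  have h8 := le_of_mul_le_mul_left h7 (by positivity)
  linarith

end

end Pool.Agent.Helper54.TF
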