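import Mathlib

set_option autoImplicit false

open MeasureTheory Set Filter Topology
open scoped NNReal ENNReal RealInnerProductSpace Gradient

namespace Pool.Agent.Helper54.TF

/-- Euclidean three-space. -/
abbrev E := EuclideanSpace ℝ (Fin 3)

/-- Potential of a unit charge spread uniformly over the ball of radius `τ`. -/
noncomputable def kr (τ : ℝ) (x : E) : ℝ :=
  if ‖x‖ ≤ τ then (3 * τ ^ 2 - ‖x‖ ^ 2) / (2 * τ ^ 3) else ‖x‖⁻¹

/-- Gradient of `kr`. -/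
noncomputable def gk (τ : ℝ) (x : E) : E := -((max ‖x‖ τ) ^ 3)⁻¹ • x

lemma kr_of_le {τ : ℝ} {x : E} (h : ‖x‖ ≤ τ) : kr τ x = (3 * τ ^ 2 - ‖x‖ ^ 2) / (2 * τ ^ 3) := by
  simp [kr, h]

lemma kr_of_ge {τ : ℝ} (hτ : 0 < τ) {x : E} (h : τ ≤ ‖x‖) : kr τ x = ‖x‖⁻¹ := by
  unfold kr
  split_ifs with h1
  · have : ‖x‖ = τ := le_antisymm h1 h
    rw [this]
    field_simp
    ring
  · rfl

lemma kr_pos {τ : ℝ} (hτ : 0 < τ) (x : E) : 0 < kr τ x := by
  unfold kr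
  split_ifs with h
  · apply div_pos _ (by positivity)
    nlinarith [norm_nonneg x]
  · push Not at h
    exact inv_pos.2 (hτ.trans h)

lemma kr_nonneg {τ : ℝ} (hτ : 0 < τ) (x : E) : 0 ≤ kr τ x := (kr_pos hτ x).le

lemma kr_le_inv {τ : ℝ} (hτ : 0 < τ) {x : E} (hx : x ≠ 0) : kr τ x ≤ ‖x‖⁻¹ := by
  have hx' : 0 < ‖x‖ := norm_pos_iff.2 hx
  rcases le_total ‖x‖ τ with h | h
  · rw [kr_of_le h, div_le_iff₀ (by positivity), inv_mul_eq_div, le_div_iff₀ hx']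
    nlinarith [mul_nonneg (sq_nonneg (τ - ‖x‖)) (by linarith : (0 : ℝ) ≤ 2 * τ + ‖x‖)]
  · rw [kr_of_ge hτ h]

lemma kr_anti {σ τ : ℝ} (hσ : 0 < σ) (hστ : σ ≤ τ) (x : E) : kr τ x ≤ kr σ x := by
  have hτ : 0 < τ := hσ.trans_le hστ
  rcases le_total ‖x‖ σ with h | h
  · rw [kr_of_le h, kr_of_le (h.trans hστ), div_le_div_iff₀ (by positivity) (by positivity)]
    have h0 := norm_nonneg x
    have h2 : ‖x‖ ^ 2 ≤ σ ^ 2 := by nlinarith
    have h3 : 0 ≤ τ ^ 3 - σ ^ 3 := by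
      have : σ ^ 3 ≤ τ ^ 3 := pow_le_pow_left₀ hσ.le hστ 3
      linarith
    have h4 : ‖x‖ ^ 2 * (τ ^ 3 - σ ^ 3) ≤ σ ^ 2 * (τ ^ 3 - σ ^ 3) :=
      mul_le_mul_of_nonneg_right h2 h3
    have h5 : 0 ≤ σ ^ 2 * ((τ - σ) ^ 2 * (2 * τ + σ)) := by positivity
    nlinarith
  · rcases eq_or_ne x 0 with rfl | hx
    · simp at h; linarith
    · rw [kr_of_ge hσ h]
      exact kr_le_inv hτ hx

lemma kr_le {τ : ℝ} (hτ : 0 < τ) (x : E) : kr τ x ≤ 3 / (2 * τ) := by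
  rcases le_total ‖x‖ τ with h | h
  · rw [kr_of_le h, div_le_div_iff₀ (by positivity) (by positivity)]
    nlinarith [sq_nonneg ‖x‖, mul_nonneg (sq_nonneg ‖x‖) hτ.le]
  · rw [kr_of_ge hτ h]
    have : ‖x‖⁻¹ ≤ τ⁻¹ := inv_anti₀ hτ h
    refine this.trans ?_
    rw [inv_eq_one_div, div_le_div_iff₀ (by positivity) (by positivity)]
    linarith

lemma one_add_norm_le {τ : ℝ} (hτ : 0 < τ) (x : E) :
    1 + ‖x‖ ≤ (1 + τ⁻¹) * max ‖x‖ τ := by
  have h0 := norm_nonneg x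
  have h1 : ‖x‖ ≤ max ‖x‖ τ := le_max_left _ _
  have h2 : τ ≤ max ‖x‖ τ := le_max_right _ _
  have h3 : 1 ≤ τ⁻¹ * max ‖x‖ τ := by
    rw [inv_mul_eq_div, le_div_iff₀ hτ]; simpa using h2
  linarith

lemma kr_le' {τ : ℝ} (hτ : 0 < τ) (x : E) : kr τ x ≤ 3 / 2 * (1 + τ⁻¹) * (1 + ‖x‖)⁻¹ := by
  have h1 : kr τ x ≤ 3 / 2 * (max ‖x‖ τ)⁻¹ := by
    rcases le_total ‖x‖ τ with h | h
    · rw [max_eq_right h]
      refine (kr_le hτ x).trans (le_of_eq ?_)
      field_simp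
    · rw [max_eq_left h, kr_of_ge hτ h]
      have : 0 ≤ ‖x‖⁻¹ := inv_nonneg.2 (norm_nonneg x)
      linarith
  refine h1.trans ?_
  rw [mul_assoc]
  refine mul_le_mul_of_nonneg_left ?_ (by norm_num)
  have hm : 0 < max ‖x‖ τ := lt_max_of_lt_right hτ
  rw [inv_eq_one_div, div_le_iff₀ hm, mul_comm, ← mul_assoc, mul_comm (max ‖x‖ τ)]
  rw [← div_eq_mul_inv, le_div_iff₀ (by positivity)]
  simp
  exact one_add_norm_le hτ x

lemma norm_gk (τ : ℝ) (hτ : 0 < τ) (x : E) : ‖gk τ x‖ = ((max ‖x‖ τ) ^ 3)⁻¹ * ‖x‖ := by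
  have hm : 0 < max ‖x‖ τ := lt_max_of_lt_right hτ
  unfold gk
  rw [neg_smul, norm_neg, norm_smul, Real.norm_of_nonneg (by positivity)]

lemma norm_gk_le {τ : ℝ} (hτ : 0 < τ) (x : E) : ‖gk τ x‖ ≤ (1 + τ⁻¹) ^ 2 * ((1 + ‖x‖) ^ 2)⁻¹ := by
  have hm : 0 < max ‖x‖ τ := lt_max_of_lt_right hτ
  rw [norm_gk τ hτ]
  have h1 : ((max ‖x‖ τ) ^ 3)⁻¹ * ‖x‖ ≤ ((max ‖x‖ τ) ^ 2)⁻¹ := by
    calc ((max ‖x‖ τ) ^ 3)⁻¹ * ‖x‖ ≤ ((max ‖x‖ τ) ^ 3)⁻¹ * max ‖x‖ τ :=
          mul_le_mul_of_nonneg_left (le_max_left _ _) (by positivity)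
      _ = ((max ‖x‖ τ) ^ 2)⁻¹ := by field_simp
  refine h1.trans ?_
  rw [← div_eq_mul_inv, le_div_iff₀ (by positivity), inv_mul_eq_div, div_le_iff₀ (by positivity),
    ← mul_pow]
  exact pow_le_pow_left₀ (by positivity) (one_add_norm_le hτ x) 2

lemma norm_gk_le_const {τ : ℝ} (hτ : 0 < τ) (x : E) : ‖gk τ x‖ ≤ (1 + τ⁻¹) ^ 2 := by
  refine (norm_gk_le hτ x).trans ?_
  refine mul_le_of_le_one_right (by positivity) (inv_le_one_of_one_le₀ ?_)
  nlinarith [norm_nonneg x]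

lemma continuous_gk {τ : ℝ} (hτ : 0 < τ) : Continuous (gk τ) := by
  have h1 : Continuous (fun x : E => ((max ‖x‖ τ) ^ 3)⁻¹) := by
    refine Continuous.inv₀ (by fun_prop) ?_
    intro x
    have hm : 0 < max ‖x‖ τ := lt_max_of_lt_right hτ
    positivity
  exact h1.neg.smul continuous_id

lemma hasGradientAt_kr {τ : ℝ} (hτ : 0 < τ) (x : E) : HasGradientAt (kr τ) (gk τ x) x := by
  -- the two smooth pieces
  have hA : ∀ y : E, HasFDerivAt (fun z : E => (3 * τ ^ 2 - ‖z‖ ^ 2) / (2 * τ ^ 3))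
      (InnerProductSpace.toDual ℝ E (-(τ ^ 3)⁻¹ • y)) y := by
    intro y
    have h1 : HasFDerivAt (fun z : E => ‖z‖ ^ 2) (2 • innerSL ℝ y) y :=
      (hasStrictFDerivAt_norm_sq y).hasFDerivAt
    have h2 := (h1.const_sub (3 * τ ^ 2)).mul_const (2 * τ ^ 3)⁻¹
    refine (h2.congr_fderiv ?_).congr_of_eventuallyEq ?_
    · ext v
      simp
      field_simp
    · exact Eventually.of_forall (fun z => by simp [div_eq_mul_inv])
  have hB : ∀ y : E, y ≠ 0 → HasFDerivAt (fun z : E => ‖z‖⁻¹)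
      (InnerProductSpace.toDual ℝ E (-(‖y‖ ^ 3)⁻¹ • y)) y := by
    intro y hy
    have hy' : ‖y‖ ≠ 0 := norm_ne_zero_iff.2 hy
    have h1 : HasFDerivAt (fun z : E => ‖z‖ ^ 2) (2 • innerSL ℝ y) y :=
      (hasStrictFDerivAt_norm_sq y).hasFDerivAt
    have h2 : HasFDerivAt (fun z : E => ‖z‖) ((‖y‖⁻¹) • innerSL ℝ y) y := by
      have h3 := h1.sqrt (by positivity)
      refine (h3.congr_fderiv ?_).congr_of_eventuallyEq ?_
      · ext v
        simp [Real.sqrt_sq (norm_nonneg y)]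
        field_simp
      · exact Eventually.of_forall (fun z => by simp [Real.sqrt_sq (norm_nonneg z)])
    have h4 := (hasDerivAt_inv hy').comp_hasFDerivAt y h2
    refine h4.congr_fderiv ?_
    ext v
    simp
    field_simp
  rw [hasGradientAt_iff_hasFDerivAt]
  rcases lt_trichotomy ‖x‖ τ with h | h | h
  · -- inside
    have hev : kr τ =ᶠ[𝓝 x] fun z : E => (3 * τ ^ 2 - ‖z‖ ^ 2) / (2 * τ ^ 3) := by
      filter_upwards [(isOpen_lt continuous_norm continuous_const).mem_nhds h] with z hz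
      exact kr_of_le (le_of_lt hz)
    have := (hA x).congr_of_eventuallyEq hev
    simpa [gk, max_eq_right h.le] using this
  · -- on the sphere
    have hx : x ≠ 0 := by
      intro h0; rw [h0, norm_zero] at h; exact hτ.ne h
    have h1 := (hA x).hasFDerivWithinAt (s := {z : E | ‖z‖ ≤ τ})
    have h2 := (hB x hx).hasFDerivWithinAt (s := {z : E | τ ≤ ‖z‖})
    have h1' : HasFDerivWithinAt (kr τ) (InnerProductSpace.toDual ℝ E (gk τ x)) {z : E | ‖z‖ ≤ τ} x := by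
      have := h1.congr (f₁ := kr τ) (fun z hz => kr_of_le hz) (kr_of_le h.le)
      simpa [gk, h] using this
    have h2' : HasFDerivWithinAt (kr τ) (InnerProductSpace.toDual ℝ E (gk τ x)) {z : E | τ ≤ ‖z‖} x := by
      have := h2.congr (f₁ := kr τ) (fun z hz => kr_of_ge hτ hz) (kr_of_ge hτ h.ge)
      simpa [gk, h] using this
    have h3 := h1'.union h2'
    have h4 : {z : E | ‖z‖ ≤ τ} ∪ {z : E | τ ≤ ‖z‖} = univ := by
      ext z; simp [le_total]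
    rw [h4] at h3
    exact hasFDerivWithinAt_univ.1 h3
  · -- outside
    have hx : x ≠ 0 := by
      intro h0; rw [h0, norm_zero] at h; exact (hτ.trans h).ne rfl
    have hev : kr τ =ᶠ[𝓝 x] fun z : E => ‖z‖⁻¹ := by
      filter_upwards [(isOpen_lt continuous_const continuous_norm).mem_nhds h] with z hz
      exact kr_of_ge hτ (le_of_lt hz)
    have := (hB x hx).congr_of_eventuallyEq hev
    simpa [gk, max_eq_left h.le] using this

lemma gradient_kr {τ : ℝ} (hτ : 0 < τ) : ∇ (kr τ) = gk τ := gradient_eq (hasGradientAt_kr hτ)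

lemma continuous_kr {τ : ℝ} (hτ : 0 < τ) : Continuous (kr τ) :=
  continuous_iff_continuousAt.2 (fun x => (hasGradientAt_kr hτ x).differentiableAt.continuousAt)

lemma norm_fderiv_eq (f : E → ℝ) (x : E) : ‖fderiv ℝ f x‖ = ‖∇ f x‖ := by
  rw [← toDual_gradient, LinearIsometryEquiv.norm_map]

lemma lipschitz_kr {τ : ℝ} (hτ : 0 < τ) :
    LipschitzWith (Real.toNNReal ((1 + τ⁻¹) ^ 2)) (kr τ) := by
  apply lipschitzWith_of_nnnorm_fderiv_le (𝕜 := ℝ)
  · intro x; exact (hasGradientAt_kr hτ x).differentiableAt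
  · intro x
    rw [← NNReal.coe_le_coe, coe_nnnorm, norm_fderiv_eq, gradient_kr hτ,
      Real.coe_toNNReal _ (by positivity)]
    exact norm_gk_le_const hτ x

lemma tendsto_kr {τ : ℝ} (hτ : 0 < τ) : Tendsto (kr τ) (cocompact E) (𝓝 0) := by
  have h1 : Tendsto (fun x : E => 3 / 2 * (1 + τ⁻¹) * (1 + ‖x‖)⁻¹) (cocompact E) (𝓝 0) := by
    have h2 : Tendsto (fun x : E => (1 + ‖x‖)⁻¹) (cocompact E) (𝓝 0) :=
      tendsto_inv_atTop_zero.comp (tendsto_atTop_add_const_left _ _ tendsto_norm_cocompact_atTop)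
    simpa using h2.const_mul (3 / 2 * (1 + τ⁻¹))
  exact squeeze_zero (fun x => kr_nonneg hτ x) (fun x => kr_le' hτ x) h1

lemma integrable_decay : Integrable (fun x : E => ((1 + ‖x‖) ^ 4)⁻¹) := by
  have := integrable_one_add_norm (E := E) (μ := volume) (r := 4) (by simp; norm_num)
  refine this.congr (Eventually.of_forall fun x => ?_)
  simp only
  rw [Real.rpow_neg (by positivity)]
  norm_cast

lemma integrable_norm_gk_sq {τ : ℝ} (hτ : 0 < τ) : Integrable (fun x : E => ‖gk τ x‖ ^ 2) := by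
  refine Integrable.mono' (integrable_decay.const_mul ((1 + τ⁻¹) ^ 4)) ?_ ?_
  · exact ((continuous_gk hτ).norm.pow 2).aestronglyMeasurable
  · refine Eventually.of_forall fun x => ?_
    rw [Real.norm_of_nonneg (by positivity)]
    have := pow_le_pow_left₀ (norm_nonneg _) (norm_gk_le hτ x) 2
    refine this.trans (le_of_eq ?_)
    rw [mul_pow, ← pow_mul, inv_pow, ← pow_mul]

lemma memLp_gk {τ : ℝ} (hτ : 0 < τ) : MemLp (gk τ) 2 volume := by
  rw [memLp_two_iff_integrable_sq_norm (continuous_gk hτ).aestronglyMeasurable]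
  exact integrable_norm_gk_sq hτ

end Pool.Agent.Helper54.TF
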