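import Pool.Agent.Helper54.TF.Kernel

set_option autoImplicit false

open MeasureTheory Set Filter Topology
open scoped NNReal ENNReal RealInnerProductSpace Gradient Pointwise

namespace Pool.Agent.Helper54.TF

/-- Lipschitz functions vanishing outside a ball. -/
structure LC (φ : E → ℝ) : Prop where
  lip : ∃ K, LipschitzWith K φ
  supp : ∃ R, ∀ x, R ≤ ‖x‖ → φ x = 0

/-- energy density -/
noncomputable def dens (a : ℝ) (G : ℝ → ℝ) (φ : E → ℝ) (x : E) : ℝ :=
  a * ‖fderiv ℝ φ x‖ ^ 2 + G (φ x)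

/-- rigid motions -/
noncomputable def mov (θ : E ≃ₗᵢ[ℝ] E) (b : E) (x : E) : E := θ x + b

section basics

variable {φ ψ : E → ℝ}

lemma LC.continuous (h : LC φ) : Continuous φ := by
  obtain ⟨K, hK⟩ := h.lip
  exact hK.continuous

lemma LC.ae_diff (h : LC φ) : ∀ᵐ x, DifferentiableAt ℝ φ x := by
  obtain ⟨K, hK⟩ := h.lip
  exact hK.ae_differentiableAt

lemma LC.sup (h : LC φ) (h' : LC ψ) : LC (fun x => max (φ x) (ψ x)) := by
  obtain ⟨K, hK⟩ := h.lip
  obtain ⟨K', hK'⟩ := h'.lip
  obtain ⟨R, hR⟩ := h.supp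
  obtain ⟨R', hR'⟩ := h'.supp
  refine ⟨⟨_, hK.max hK'⟩, max R R', fun x hx => ?_⟩
  rw [hR x ((le_max_left _ _).trans hx), hR' x ((le_max_right _ _).trans hx), max_self]

lemma LC.inf (h : LC φ) (h' : LC ψ) : LC (fun x => min (φ x) (ψ x)) := by
  obtain ⟨K, hK⟩ := h.lip
  obtain ⟨K', hK'⟩ := h'.lip
  obtain ⟨R, hR⟩ := h.supp
  obtain ⟨R', hR'⟩ := h'.supp
  refine ⟨⟨_, hK.min hK'⟩, max R R', fun x hx => ?_⟩
  rw [hR x ((le_max_left _ _).trans hx), hR' x ((le_max_right _ _).trans hx), min_self]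

lemma isometry_mov (θ : E ≃ₗᵢ[ℝ] E) (b : E) : Isometry (mov θ b) := by
  refine Isometry.of_dist_eq fun x y => ?_
  simp [mov]

lemma continuous_mov (θ : E ≃ₗᵢ[ℝ] E) (b : E) : Continuous (mov θ b) := (isometry_mov θ b).continuous

lemma mp_mov (θ : E ≃ₗᵢ[ℝ] E) (b : E) : MeasurePreserving (mov θ b) volume volume :=
  (measurePreserving_add_right volume b).comp θ.measurePreserving

lemma emb_mov (θ : E ≃ₗᵢ[ℝ] E) (b : E) : MeasurableEmbedding (mov θ b) := by
  refine (isometry_mov θ b).isClosedEmbedding.measurableEmbedding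

lemma LC.mov (h : LC φ) (θ : E ≃ₗᵢ[ℝ] E) (b : E) : LC (fun x => φ (mov θ b x)) := by
  obtain ⟨K, hK⟩ := h.lip
  obtain ⟨R, hR⟩ := h.supp
  refine ⟨⟨_, hK.comp (isometry_mov θ b).lipschitz⟩, R + ‖b‖, fun x hx => hR _ ?_⟩
  have h1 : ‖x‖ ≤ ‖θ x + b‖ + ‖b‖ := by
    have := norm_sub_le (θ x + b) b
    simpa using this
  show R ≤ ‖θ x + b‖
  linarith

variable (a : ℝ) (G : ℝ → ℝ)

lemma dens_mov (θ : E ≃ₗᵢ[ℝ] E) (b : E) (x : E) :
    dens a G (fun x => φ (mov θ b x)) x = dens a G φ (mov θ b x) := by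
  unfold dens
  congr 3
  have h1 : (fun x => φ (mov θ b x)) = (fun x => φ (x + b)) ∘ θ.toContinuousLinearEquiv := rfl
  rw [h1, ContinuousLinearEquiv.comp_right_fderiv, fderiv_comp_add_right]
  exact ContinuousLinearMap.opNorm_comp_linearIsometryEquiv _ θ

lemma dens_congr {x : E} (h : φ =ᶠ[𝓝 x] ψ) : dens a G φ x = dens a G ψ x := by
  unfold dens
  rw [h.fderiv_eq, h.eq_of_nhds]

lemma setIntegral_mov (θ : E ≃ₗᵢ[ℝ] E) (b : E) (f : E → ℝ) (s : Set E) :
    ∫ x in mov θ b ⁻¹' s, f (mov θ b x) = ∫ x in s, f x :=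
  (mp_mov θ b).setIntegral_preimage_emb (emb_mov θ b) f s

lemma setIntegral_dens_mov (θ : E ≃ₗᵢ[ℝ] E) (b : E) (s : Set E) :
    ∫ x in mov θ b ⁻¹' s, dens a G (fun x => φ (mov θ b x)) x = ∫ x in s, dens a G φ x := by
  simp_rw [dens_mov]
  exact setIntegral_mov θ b _ s

lemma setIntegral_dens_congr {s : Set E} (hs : IsOpen s) (h : ∀ x ∈ s, φ x = ψ x) :
    ∫ x in s, dens a G φ x = ∫ x in s, dens a G ψ x := by
  refine setIntegral_congr_fun hs.measurableSet fun x hx => dens_congr a G ?_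
  filter_upwards [hs.mem_nhds hx] with y hy using h y hy

variable {G}

lemma measurable_dens (hG : Continuous G) (h : LC φ) : Measurable (dens a G φ) := by
  unfold dens
  exact (((measurable_fderiv ℝ φ).norm.pow_const 2).const_mul a).add
    (hG.measurable.comp h.continuous.measurable)

lemma integrable_dens (hG : Continuous G) (hG0 : G 0 = 0) (h : LC φ) :
    Integrable (dens a G φ) := by
  obtain ⟨K, hK⟩ := h.lip
  obtain ⟨R, hR⟩ := h.supp
  have hcs : HasCompactSupport φ := by
    refine HasCompactSupport.of_support_subset_isCompact (isCompact_closedBall 0 R) fun x hx => ?_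
    rw [mem_closedBall_zero_iff]
    by_contra hcon
    push Not at hcon
    exact hx (hR x hcon.le)
  have h1 : Integrable (fun x => G (φ x)) := by
    have hc : Continuous (fun x => G (φ x)) := hG.comp h.continuous
    refine hc.integrable_of_hasCompactSupport ?_
    exact hcs.comp_left hG0
  have h2 : Integrable (fun x => ‖fderiv ℝ φ x‖ ^ 2) := by
    have hzero : ∀ x, R < ‖x‖ → fderiv ℝ φ x = 0 := by
      intro x hx
      have : φ =ᶠ[𝓝 x] fun _ => 0 := by
        filter_upwards [(isOpen_lt continuous_const continuous_norm).mem_nhds hx] with y hy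
        exact hR y (le_of_lt hy)
      rw [this.fderiv_eq]
      simp
    have h3 : Integrable ((Metric.closedBall (0 : E) R).indicator (fun _ => (K : ℝ) ^ 2)) := by
      rw [integrable_indicator_iff measurableSet_closedBall]
      exact integrableOn_const (measure_closedBall_lt_top.ne)
    refine h3.mono' ((measurable_fderiv ℝ φ).norm.pow_const 2).aestronglyMeasurable
      (Eventually.of_forall fun x => ?_)
    rw [Real.norm_of_nonneg (by positivity)]
    by_cases hx : x ∈ Metric.closedBall (0 : E) R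
    · rw [indicator_of_mem hx]
      exact pow_le_pow_left₀ (norm_nonneg _) (norm_fderiv_le_of_lipschitz ℝ hK) 2
    · rw [indicator_of_notMem hx]
      rw [mem_closedBall_zero_iff, not_le] at hx
      rw [hzero x hx]
      simp
  exact (h2.const_mul a).add h1

/-- modularity of the energy density -/
lemma ae_dens_lattice (G : ℝ → ℝ) (h : LC φ) (h' : LC ψ) :
    ∀ᵐ x, dens a G (fun x => max (φ x) (ψ x)) x + dens a G (fun x => min (φ x) (ψ x)) x =
      dens a G φ x + dens a G ψ x := by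
  filter_upwards [h.ae_diff, h'.ae_diff, (h.sup h').ae_diff, (h.inf h').ae_diff] with x h1 h2 h3 h4
  have hc := h.continuous.continuousAt (x := x)
  have hc' := h'.continuous.continuousAt (x := x)
  rcases lt_trichotomy (φ x) (ψ x) with hlt | heq | hgt
  · have hev : ∀ᶠ y in 𝓝 x, φ y < ψ y := hc.eventually_lt hc' hlt
    have e1 : (fun x => max (φ x) (ψ x)) =ᶠ[𝓝 x] ψ := by
      filter_upwards [hev] with y hy using max_eq_right hy.le
    have e2 : (fun x => min (φ x) (ψ x)) =ᶠ[𝓝 x] φ := by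
      filter_upwards [hev] with y hy using min_eq_left hy.le
    rw [dens_congr a G e1, dens_congr a G e2, add_comm]
  · -- touching point: all derivatives agree
    have key : ∀ f g : E → ℝ, DifferentiableAt ℝ f x → DifferentiableAt ℝ g x →
        (∀ y, f y ≤ g y) → f x = g x → fderiv ℝ f x = fderiv ℝ g x := by
      intro f g hf hg hfg hx
      have hmin : IsLocalMin (fun y => g y - f y) x := by
        refine Eventually.of_forall fun y => ?_
        simp only [hx, sub_self]
        exact sub_nonneg.2 (hfg y)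
      have h5 := hmin.fderiv_eq_zero
      rw [fderiv_fun_sub hg hf] at h5
      exact (sub_eq_zero.1 h5).symm
    have k1 := key φ _ h1 h3 (fun y => le_max_left _ _) (by simp [heq])
    have k2 := key ψ _ h2 h3 (fun y => le_max_right _ _) (by simp [heq])
    have k3 := key _ φ h4 h1 (fun y => min_le_left _ _) (by simp [heq])
    unfold dens
    rw [← k1, k3, ← k1.trans k2.symm]
    simp [heq]
  · have hev : ∀ᶠ y in 𝓝 x, ψ y < φ y := hc'.eventually_lt hc hgt
    have e1 : (fun x => max (φ x) (ψ x)) =ᶠ[𝓝 x] φ := by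
      filter_upwards [hev] with y hy using max_eq_left hy.le
    have e2 : (fun x => min (φ x) (ψ x)) =ᶠ[𝓝 x] ψ := by
      filter_upwards [hev] with y hy using min_eq_right hy.le
    rw [dens_congr a G e1, dens_congr a G e2]

lemma setIntegral_lattice (hG : Continuous G) (hG0 : G 0 = 0) (h : LC φ) (h' : LC ψ) (s : Set E) :
    (∫ x in s, dens a G (fun x => max (φ x) (ψ x)) x) +
      ∫ x in s, dens a G (fun x => min (φ x) (ψ x)) x =
      (∫ x in s, dens a G φ x) + ∫ x in s, dens a G ψ x := by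
  rw [← integral_add (integrable_dens a hG hG0 (h.sup h')).integrableOn
      (integrable_dens a hG hG0 (h.inf h')).integrableOn,
    ← integral_add (integrable_dens a hG hG0 h).integrableOn
      (integrable_dens a hG hG0 h').integrableOn]
  exact integral_congr_ae (ae_restrict_of_ae (ae_dens_lattice a G h h'))

end basics

/-! ### Half spaces -/

section half

variable {n : E}

/-- gluing along the plane `⟪n, x⟫ = c`. -/
noncomputable def glue (n : E) (c : ℝ) (f g : E → ℝ) (x : E) : ℝ := if c ≤ ⟪n, x⟫ then f x else g x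

lemma glue_formula (hn : ‖n‖ = 1) (c : ℝ) (f g : E → ℝ) (h : ∀ x, ⟪n, x⟫ = c → f x = g x) (x : E) :
    glue n c f g x = f (x + max 0 (c - ⟪n, x⟫) • n) + g (x - max 0 (⟪n, x⟫ - c) • n) -
      f (x + (c - ⟪n, x⟫) • n) := by
  have hp : ⟪n, x + (c - ⟪n, x⟫) • n⟫ = c := by
    rw [inner_add_right, inner_smul_right, real_inner_self_eq_norm_sq, hn]; ring
  unfold glue
  split_ifs with hc
  · rw [max_eq_left (by linarith), max_eq_right (by linarith), zero_smul, add_zero]
    have : x - (⟪n, x⟫ - c) • n = x + (c - ⟪n, x⟫) • n := by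
      rw [sub_eq_add_neg, ← neg_smul, neg_sub]
    rw [this, h _ hp]
    ring
  · push Not at hc
    rw [max_eq_right (by linarith), max_eq_left (by linarith), zero_smul, sub_zero]
    ring

lemma LC.glue (hn : ‖n‖ = 1) (c : ℝ) {f g : E → ℝ} (hf : LC f) (hg : LC g)
    (h : ∀ x, ⟪n, x⟫ = c → f x = g x) : LC (glue n c f g) := by
  obtain ⟨K, hK⟩ := hf.lip
  obtain ⟨K', hK'⟩ := hg.lip
  obtain ⟨R, hR⟩ := hf.supp
  obtain ⟨R', hR'⟩ := hg.supp
  have h0 : ∃ L, LipschitzWith L (fun x : E => ⟪n, x⟫) := ⟨_, (innerSL ℝ n).lipschitz⟩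
  obtain ⟨L, hL⟩ := h0
  have h1 : ∀ (p : E → ℝ), (∃ L, LipschitzWith L p) → ∃ L', LipschitzWith L' (fun x : E => x + p x • n) := by
    rintro p ⟨L, hL⟩
    exact ⟨_, LipschitzWith.id.add ((ContinuousLinearMap.toSpanSingleton ℝ n).lipschitz.comp hL)⟩
  obtain ⟨L1, hL1⟩ := h1 (fun x => max 0 (c - ⟪n, x⟫))
    ⟨_, ((LipschitzWith.const c).sub hL).const_max 0⟩
  obtain ⟨L2, hL2⟩ := h1 (fun x => -max 0 (⟪n, x⟫ - c))
    ⟨_, ((hL.sub (LipschitzWith.const c)).const_max 0).neg⟩
  obtain ⟨L3, hL3⟩ := h1 (fun x => c - ⟪n, x⟫) ⟨_, (LipschitzWith.const c).sub hL⟩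
  have heq : TF.glue n c f g = fun x => (f (x + max 0 (c - ⟪n, x⟫) • n) +
      g (x + (-max 0 (⟪n, x⟫ - c)) • n)) - f (x + (c - ⟪n, x⟫) • n) := by
    ext x
    rw [glue_formula hn c f g h x, neg_smul, ← sub_eq_add_neg]
  refine ⟨?_, max R R', fun x hx => ?_⟩
  · rw [heq]
    exact ⟨_, ((hK.comp hL1).add (hK'.comp hL2)).sub (hK.comp hL3)⟩
  · unfold TF.glue
    rw [hR x ((le_max_left _ _).trans hx), hR' x ((le_max_right _ _).trans hx), ite_self]

/-- reflection through the hyperplane orthogonal to `n`. -/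
noncomputable def rfn (n : E) : E ≃ₗᵢ[ℝ] E := (ℝ ∙ n)ᗮ.reflection

lemma rfn_apply (hn : ‖n‖ = 1) (x : E) : rfn n x = x - (2 * ⟪n, x⟫) • n := by
  unfold rfn
  rw [Submodule.reflection_orthogonal_apply, Submodule.reflection_apply,
    Submodule.starProjection_unit_singleton ℝ hn]
  module

lemma inner_rfn (hn : ‖n‖ = 1) (x : E) : ⟪n, rfn n x⟫ = -⟪n, x⟫ := by
  rw [rfn_apply hn, inner_sub_right, inner_smul_right, real_inner_self_eq_norm_sq, hn]; ring

lemma rfn_of_zero (hn : ‖n‖ = 1) {x : E} (h : ⟪n, x⟫ = 0) : rfn n x = x := by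
  rw [rfn_apply hn, h]; simp

lemma rfn_rfn (n x : E) : rfn n (rfn n x) = x := Submodule.reflection_reflection _ x

lemma null_plane (hn : ‖n‖ = 1) (c : ℝ) : volume {x : E | ⟪n, x⟫ = c} = 0 := by
  have h1 : {x : E | ⟪n, x⟫ = c} = (AffineSubspace.mk' (c • n) (LinearMap.ker (innerSL ℝ n : E →L[ℝ] ℝ).toLinearMap) : Set E) := by
    ext x
    simp only [mem_ofPred_eq, SetLike.mem_coe, AffineSubspace.mem_mk', LinearMap.mem_ker,
      vsub_eq_sub, map_sub]
    simp only [ContinuousLinearMap.coe_coe, innerSL_apply_apply, inner_smul_right,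
      real_inner_self_eq_norm_sq, hn]
    constructor <;> intro h <;> linarith
  rw [h1]
  refine Measure.addHaar_affineSubspace _ _ fun htop => ?_
  have h2 : (c • n + n : E) ∈ AffineSubspace.mk' (c • n) (LinearMap.ker (innerSL ℝ n : E →L[ℝ] ℝ).toLinearMap) := by
    rw [htop]; exact AffineSubspace.mem_top _ _ _
  simp only [AffineSubspace.mem_mk', LinearMap.mem_ker, vsub_eq_sub, add_sub_cancel_left] at h2
  simp only [ContinuousLinearMap.coe_coe, innerSL_apply_apply, real_inner_self_eq_norm_sq, hn] at h2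
  norm_num at h2

lemma isOpen_gt (n : E) (c : ℝ) : IsOpen {x : E | c < ⟪n, x⟫} :=
  isOpen_lt continuous_const (by fun_prop)

lemma isOpen_lt' (n : E) (c : ℝ) : IsOpen {x : E | ⟪n, x⟫ < c} :=
  isOpen_lt (by fun_prop) continuous_const

/-- splitting an integral along a plane -/
lemma split_plane (hn : ‖n‖ = 1) (c : ℝ) {f : E → ℝ} (hf : Integrable f) (s : Set E)
    (hs : MeasurableSet s) :
    ∫ x in s, f x = (∫ x in s ∩ {x | c < ⟪n, x⟫}, f x) + ∫ x in s ∩ {x | ⟪n, x⟫ < c}, f x := by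
  have h1 : (s : Set E) =ᵐ[volume]
      ((s ∩ {x | c < ⟪n, x⟫}) ∪ (s ∩ {x | ⟪n, x⟫ < c}) : Set E) := by
    have h2 : ∀ᵐ x : E, ¬ ⟪n, x⟫ = c := by
      rw [ae_iff]; simpa using null_plane hn c
    filter_upwards [h2] with x hx
    apply propext
    show x ∈ s ↔ x ∈ (s ∩ {x | c < ⟪n, x⟫}) ∪ (s ∩ {x | ⟪n, x⟫ < c})
    simp only [mem_union, mem_inter_iff, mem_ofPred_eq]
    rcases lt_trichotomy ⟪n, x⟫ c with h | h | h
    · simp [h, h.not_gt]
    · exact absurd h hx
    · simp [h, h.not_gt]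
  rw [setIntegral_congr_set h1, setIntegral_union]
  · rw [Set.disjoint_left]
    rintro x ⟨_, h3⟩ ⟨_, h4⟩
    simp only [mem_ofPred_eq] at h3 h4
    linarith
  · exact hs.inter (isOpen_lt' n c).measurableSet
  · exact hf.integrableOn
  · exact hf.integrableOn

/-- **The gluing theorem.**  From a trial function `φ'` for a configuration one gets a trial
function `φ` for the configuration in which a slab of thickness `2 s` around the plane
`⟪n, x⟫ = 0` has been removed, without increasing the local energy (up to `ε`). -/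
theorem lattice_main (hn : ‖n‖ = 1) {s : ℝ} (hs : 0 ≤ s) {a : ℝ} (ha : 0 ≤ a) {G : ℝ → ℝ}
    (hG : Continuous G) (hG0 : G 0 = 0) (hGnn : ∀ u, 0 ≤ G u) {φ' : E → ℝ} (hφ' : LC φ')
    {ε : ℝ} (hε : 0 < ε) :
    ∃ φ : E → ℝ, LC φ ∧ (∀ x, 0 ≤ ⟪n, x⟫ → φ' (x + s • n) ≤ φ x) ∧
      (∀ x, ⟪n, x⟫ ≤ 0 → φ' (x - s • n) ≤ φ x) ∧
      ∫ x, dens a G φ x ≤ (∫ x, dens a G φ' x) + ε := by
  -- notation
  let I : E ≃ₗᵢ[ℝ] E := LinearIsometryEquiv.refl ℝ E
  have hI : ∀ b x : E, mov I b x = x + b := fun b x => rfl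
  have hR : ∀ b x : E, mov (rfn n) b x = rfn n x + b := fun b x => rfl
  have hnn : ⟪n, n⟫ = 1 := by rw [real_inner_self_eq_norm_sq, hn]; norm_num
  have hns : ∀ r : ℝ, ⟪n, r • n⟫ = r := fun r => by rw [inner_smul_right, hnn, mul_one]
  have hdens0 : ∀ φ : E → ℝ, ∀ x, 0 ≤ dens a G φ x := fun φ x =>
    add_nonneg (mul_nonneg ha (by positivity)) (hGnn _)
  let H : Set E := {x | 0 < ⟪n, x⟫}
  let H' : Set E := {x | ⟪n, x⟫ < 0}
  let S1 : Set E := {x | s < ⟪n, x⟫}
  let S2 : Set E := {x | ⟪n, x⟫ < -s}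
  let SL : Set E := {x | 0 < ⟪n, x⟫} ∩ {x | ⟪n, x⟫ < s}
  let SL' : Set E := {x | ⟪n, x⟫ < 0} ∩ {x | -s < ⟪n, x⟫}
  have oH : IsOpen H := isOpen_gt n 0
  have oH' : IsOpen H' := isOpen_lt' n 0
  have oS1 : IsOpen S1 := isOpen_gt n s
  have oS2 : IsOpen S2 := isOpen_lt' n (-s)
  have oSL : IsOpen SL := (isOpen_gt n 0).inter (isOpen_lt' n s)
  have oSL' : IsOpen SL' := (isOpen_lt' n 0).inter (isOpen_gt n (-s))
  have int : ∀ {φ : E → ℝ}, LC φ → Integrable (dens a G φ) := fun h => integrable_dens a hG hG0 h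
  -- decompositions
  have dE : ∀ {φ : E → ℝ}, LC φ → ∫ x, dens a G φ x =
      (∫ x in H, dens a G φ x) + ∫ x in H', dens a G φ x := by
    intro φ h
    have := split_plane hn 0 (int h) univ MeasurableSet.univ
    simpa [H, H'] using this
  have dH : ∀ {φ : E → ℝ}, LC φ → ∫ x in H, dens a G φ x =
      (∫ x in S1, dens a G φ x) + ∫ x in SL, dens a G φ x := by
    intro φ h
    have := split_plane hn s (int h) H oH.measurableSet
    rw [this]
    congr 2
    congr 1
    ext x
    simp only [H, S1, mem_inter_iff, mem_ofPred_eq]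
    constructor
    · exact fun h => h.2
    · exact fun h => ⟨lt_of_le_of_lt hs h, h⟩
  have dH' : ∀ {φ : E → ℝ}, LC φ → ∫ x in H', dens a G φ x =
      (∫ x in SL', dens a G φ x) + ∫ x in S2, dens a G φ x := by
    intro φ h
    have := split_plane hn (-s) (int h) H' oH'.measurableSet
    rw [this]
    congr 2
    congr 1
    ext x
    simp only [H', S2, mem_inter_iff, mem_ofPred_eq]
    constructor
    · exact fun h => h.2
    · exact fun h => ⟨by linarith, h⟩
  -- shifted functions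
  let φ₁ : E → ℝ := fun x => φ' (mov I (s • n) x)
  let φ₂ : E → ℝ := fun x => φ' (mov I (-(s • n)) x)
  have h₁ : LC φ₁ := hφ'.mov I _
  have h₂ : LC φ₂ := hφ'.mov I _
  have e₁ : ∫ x in H, dens a G φ₁ x = ∫ x in S1, dens a G φ' x := by
    rw [← setIntegral_dens_mov a G I (s • n) S1]
    congr 2
    ext x
    simp only [H, S1, mem_preimage, mem_ofPred_eq, hI, inner_add_right, hns]
    constructor <;> intro h <;> linarith
  have e₂ : ∫ x in H', dens a G φ₂ x = ∫ x in S2, dens a G φ' x := by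
    rw [← setIntegral_dens_mov a G I (-(s • n)) S2]
    congr 2
    ext x
    simp only [H', S2, mem_preimage, mem_ofPred_eq, hI, inner_add_right, inner_neg_right, hns]
    constructor <;> intro h <;> linarith
  -- the class of competitors on the half space
  let KK : Set (E → ℝ) := {κ | LC κ ∧ ∀ x, ⟪n, x⟫ = 0 → κ x = max (φ₁ x) (φ₂ x)}
  let val : Set ℝ := (fun κ => ∫ x in H, dens a G κ x) '' KK
  have hval_ne : val.Nonempty := ⟨_, _, ⟨h₁.sup h₂, fun _ _ => rfl⟩, rfl⟩
  have hval_bdd : BddBelow val := ⟨0, by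
    rintro _ ⟨κ, _, rfl⟩
    exact integral_nonneg fun x => hdens0 κ x⟩
  obtain ⟨_, ⟨κ, ⟨hκ, hκ0⟩, rfl⟩, hκm⟩ := exists_lt_of_csInf_lt hval_ne (lt_add_of_pos_right (sInf val) (half_pos hε))
  have hle : ∀ κ' ∈ KK, sInf val ≤ ∫ x in H, dens a G κ' x := fun κ' h => csInf_le hval_bdd ⟨κ', h, rfl⟩
  -- reflected competitor
  let κr : E → ℝ := fun x => κ (mov (rfn n) 0 x)
  have hκr : LC κr := hκ.mov _ _
  have hr0 : ∀ x : E, ⟪n, x⟫ = 0 → mov (rfn n) 0 x = x := by
    intro x hx
    rw [hR, add_zero, rfn_of_zero hn hx]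
  have preH : mov (rfn n) 0 ⁻¹' H = H' := by
    ext x
    simp only [H, H', mem_preimage, mem_ofPred_eq, hR, add_zero, inner_rfn hn]
    constructor <;> intro h <;> linarith
  have preH' : mov (rfn n) 0 ⁻¹' H' = H := by
    ext x
    simp only [H, H', mem_preimage, mem_ofPred_eq, hR, add_zero, inner_rfn hn]
    constructor <;> intro h <;> linarith
  have eκr : ∫ x in H', dens a G κr x = ∫ x in H, dens a G κ x := by
    rw [← setIntegral_dens_mov a G (rfn n) 0 H, preH]
  -- the glued function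
  let p : E → ℝ := fun x => max (φ₁ x) (κ x)
  let q : E → ℝ := fun x => max (φ₂ x) (κr x)
  let p' : E → ℝ := fun x => min (φ₁ x) (κ x)
  let q' : E → ℝ := fun x => min (φ₂ x) (κr x)
  have hp : LC p := h₁.sup hκ
  have hq : LC q := h₂.sup hκr
  have hp' : LC p' := h₁.inf hκ
  have hq' : LC q' := h₂.inf hκr
  have hκr0 : ∀ x, ⟪n, x⟫ = 0 → κr x = max (φ₁ x) (φ₂ x) := by
    intro x hx
    show κ (mov (rfn n) 0 x) = _
    rw [hr0 x hx, hκ0 x hx]
  have hpq : ∀ x, ⟪n, x⟫ = 0 → p x = q x := by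
    intro x hx
    simp only [p, q, hκ0 x hx, hκr0 x hx]
    rw [max_eq_right (le_max_left _ _), max_eq_right (le_max_right _ _)]
  let φ : E → ℝ := glue n 0 p q
  have hφ : LC φ := LC.glue hn 0 hp hq hpq
  have eφH : ∫ x in H, dens a G φ x = ∫ x in H, dens a G p x :=
    setIntegral_dens_congr a G oH fun x hx => by
      simp only [H, mem_ofPred_eq] at hx
      simp [φ, glue, hx.le]
  have eφH' : ∫ x in H', dens a G φ x = ∫ x in H', dens a G q x :=
    setIntegral_dens_congr a G oH' fun x hx => by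
      simp only [H', mem_ofPred_eq] at hx
      simp [φ, glue, not_le.2 hx]
  have lp := setIntegral_lattice a hG hG0 h₁ hκ H
  have lq := setIntegral_lattice a hG hG0 h₂ hκr H'
  -- the function `w`
  let A : E → ℝ := fun x => p' (mov I (-(s • n)) x)
  let B : E → ℝ := fun x => q' (mov I (s • n) x)
  have hA : LC A := hp'.mov _ _
  have hB : LC B := hq'.mov _ _
  have p'0 : ∀ x, ⟪n, x⟫ = 0 → p' x = φ₁ x := by
    intro x hx
    simp only [p', hκ0 x hx]
    exact min_eq_left (le_max_left _ _)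
  have q'0 : ∀ x, ⟪n, x⟫ = 0 → q' x = φ₂ x := by
    intro x hx
    simp only [q', hκr0 x hx]
    exact min_eq_left (le_max_right _ _)
  have hA0 : ∀ x, ⟪n, x⟫ = s → A x = φ' x := by
    intro x hx
    have h0 : ⟪n, mov I (-(s • n)) x⟫ = 0 := by
      rw [hI, inner_add_right, inner_neg_right, hns, hx]; ring
    show p' (mov I (-(s • n)) x) = _
    rw [p'0 _ h0]
    simp only [φ₁, hI]
    congr 1
    abel
  have hB0 : ∀ x, ⟪n, x⟫ = -s → φ' x = B x := by
    intro x hx
    have h0 : ⟪n, mov I (s • n) x⟫ = 0 := by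
      rw [hI, inner_add_right, hns, hx]; ring
    show _ = q' (mov I (s • n) x)
    rw [q'0 _ h0]
    simp only [φ₂, hI]
    congr 1
    abel
  let w₀ : E → ℝ := glue n (-s) φ' B
  have hw₀ : LC w₀ := LC.glue hn (-s) hφ' hB hB0
  let w : E → ℝ := glue n s A w₀
  have hw : LC w := LC.glue hn s hA hw₀ fun x hx => by
    rw [hA0 x hx]
    simp only [w₀, glue]
    rw [if_pos (by rw [hx]; linarith)]
  have ewS1 : ∫ x in S1, dens a G w x = ∫ x in H, dens a G p' x := by
    have h1 : ∫ x in S1, dens a G w x = ∫ x in S1, dens a G A x :=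
      setIntegral_dens_congr a G oS1 fun x hx => by
        simp only [S1, mem_ofPred_eq] at hx
        simp [w, glue, hx.le]
    rw [h1, ← setIntegral_dens_mov a G I (-(s • n)) H]
    congr 2
    ext x
    simp only [H, S1, mem_preimage, mem_ofPred_eq, hI, inner_add_right, inner_neg_right, hns]
    constructor <;> intro h <;> linarith
  have ewS2 : ∫ x in S2, dens a G w x = ∫ x in H', dens a G q' x := by
    have h1 : ∫ x in S2, dens a G w x = ∫ x in S2, dens a G B x :=
      setIntegral_dens_congr a G oS2 fun x hx => by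
        simp only [S2, mem_ofPred_eq] at hx
        have h2 : ¬ s ≤ ⟪n, x⟫ := by linarith
        have h3 : ¬ -s ≤ ⟪n, x⟫ := by linarith
        simp [w, w₀, glue, h2, h3]
    rw [h1, ← setIntegral_dens_mov a G I (s • n) H']
    congr 2
    ext x
    simp only [H', S2, mem_preimage, mem_ofPred_eq, hI, inner_add_right, hns]
    constructor <;> intro h <;> linarith
  have ewSL : ∫ x in SL, dens a G w x = ∫ x in SL, dens a G φ' x :=
    setIntegral_dens_congr a G oSL fun x hx => by
      simp only [SL, mem_inter_iff, mem_ofPred_eq] at hx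
      have h2 : ¬ s ≤ ⟪n, x⟫ := by linarith [hx.2]
      have h3 : -s ≤ ⟪n, x⟫ := by linarith [hx.1]
      simp [w, w₀, glue, h2, h3]
  have ewSL' : ∫ x in SL', dens a G w x = ∫ x in SL', dens a G φ' x :=
    setIntegral_dens_congr a G oSL' fun x hx => by
      simp only [SL', mem_inter_iff, mem_ofPred_eq] at hx
      have h2 : ¬ s ≤ ⟪n, x⟫ := by linarith [hx.1]
      have h3 : -s ≤ ⟪n, x⟫ := by linarith [hx.2]
      simp [w, w₀, glue, h2, h3]
  -- symmetrized functions
  let wr : E → ℝ := fun x => w (mov (rfn n) 0 x)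
  have hwr : LC wr := hw.mov _ _
  let u : E → ℝ := fun x => max (w x) (wr x)
  let v : E → ℝ := fun x => min (w x) (wr x)
  have hu : LC u := hw.sup hwr
  have hv : LC v := hw.inf hwr
  have hrr : ∀ x : E, mov (rfn n) 0 (mov (rfn n) 0 x) = x := by
    intro x; simp only [hR, add_zero, rfn_rfn]
  have husym : ∀ x, u (mov (rfn n) 0 x) = u x := by
    intro x
    simp only [u, wr, hrr]
    exact max_comm _ _
  have hvsym : ∀ x, v (mov (rfn n) 0 x) = v x := by
    intro x
    simp only [v, wr, hrr]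
    exact min_comm _ _
  have symH : ∀ {f : E → ℝ}, (∀ x, f (mov (rfn n) 0 x) = f x) →
      ∫ x in H', dens a G f x = ∫ x in H, dens a G f x := by
    intro f hf
    have h1 := setIntegral_dens_mov (φ := f) a G (rfn n) 0 H
    rw [preH] at h1
    have h2 : (fun x => f (mov (rfn n) 0 x)) = f := funext hf
    rw [h2] at h1
    exact h1
  have hwr_int : ∫ x, dens a G wr x = ∫ x, dens a G w x := by
    have h1 := setIntegral_dens_mov (φ := w) a G (rfn n) 0 univ
    simpa using h1
  have lw := setIntegral_lattice a hG hG0 hw hwr univ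
  simp only [setIntegral_univ] at lw
  rw [hwr_int] at lw
  change (∫ x, dens a G u x) + ∫ x, dens a G v x = _ at lw
  rw [dE hu, dE hv, symH husym, symH hvsym] at lw
  -- values of `w` on the planes `⟪n, x⟫ = s` and `⟪n, x⟫ = -s`
  have hw_s : ∀ x, ⟪n, x⟫ = s → w x = φ' x := by
    intro x hx
    simp only [w, glue]
    rw [if_pos hx.ge, hA0 x hx]
  have hw_ms : ∀ x, ⟪n, x⟫ = -s → w x = φ' x := by
    intro x hx
    simp only [w, w₀, glue]
    by_cases h : s ≤ ⟪n, x⟫
    · have h0 : s = 0 := by rw [hx] at h; linarith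
      rw [if_pos h, hA0 x (by rw [hx, h0]; norm_num)]
    · rw [if_neg h, if_pos hx.ge]
  -- first competitor
  let κ₁ : E → ℝ := fun x => u (mov I (s • n) x)
  have hκ₁ : LC κ₁ := hu.mov _ _
  have hκ₁0 : ∀ x, ⟪n, x⟫ = 0 → κ₁ x = max (φ₁ x) (φ₂ x) := by
    intro x hx
    have h1 : ⟪n, mov I (s • n) x⟫ = s := by rw [hI, inner_add_right, hns, hx]; ring
    have h2 : mov (rfn n) 0 (mov I (s • n) x) = mov I (-(s • n)) x := by
      simp only [hR, hI, add_zero, map_add, rfn_of_zero hn hx]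
      congr 1
      rw [rfn_apply hn, hns]
      module
    have h3 : ⟪n, mov I (-(s • n)) x⟫ = -s := by
      rw [hI, inner_add_right, inner_neg_right, hns, hx]; ring
    show max (w (mov I (s • n) x)) (w (mov (rfn n) 0 (mov I (s • n) x))) = _
    rw [h2, hw_s _ h1, hw_ms _ h3]
  have eκ₁ : ∫ x in H, dens a G κ₁ x = ∫ x in S1, dens a G u x := by
    rw [← setIntegral_dens_mov a G I (s • n) S1]
    congr 2
    ext x
    simp only [H, S1, mem_preimage, mem_ofPred_eq, hI, inner_add_right, hns]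
    constructor <;> intro h <;> linarith
  have c₁ := hle κ₁ ⟨hκ₁, hκ₁0⟩
  rw [eκ₁] at c₁
  -- second competitor
  let A₂ : E → ℝ := fun x => v (mov I (-(s • n)) x)
  let B₂ : E → ℝ := fun x => u (mov (rfn n) (s • n) x)
  have hA₂ : LC A₂ := hv.mov _ _
  have hB₂ : LC B₂ := hu.mov _ _
  have hAB : ∀ x, ⟪n, x⟫ = s → A₂ x = B₂ x := by
    intro x hx
    have h1 : ⟪n, mov I (-(s • n)) x⟫ = 0 := by
      rw [hI, inner_add_right, inner_neg_right, hns, hx]; ring
    have h2 : mov (rfn n) (s • n) x = mov I (-(s • n)) x := by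
      rw [hR, hI, rfn_apply hn, hx]
      module
    show min (w (mov I (-(s • n)) x)) (w (mov (rfn n) 0 (mov I (-(s • n)) x))) =
      max (w (mov (rfn n) (s • n) x)) (w (mov (rfn n) 0 (mov (rfn n) (s • n) x)))
    rw [h2, hr0 _ h1, min_self, max_self]
  let g : E → ℝ := glue n s A₂ B₂
  have hg : LC g := LC.glue hn s hA₂ hB₂ hAB
  have hg0 : ∀ x, ⟪n, x⟫ = 0 → g x = max (φ₁ x) (φ₂ x) := by
    intro x hx
    have h1 : g x = B₂ x := by
      simp only [g, glue]
      split_ifs with h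
      · have h0 : s = 0 := by rw [hx] at h; linarith
        exact hAB x (by rw [hx, h0])
      · rfl
    have h2 : mov (rfn n) (s • n) x = mov I (s • n) x := by
      rw [hR, hI, rfn_of_zero hn hx]
    rw [h1]
    show u (mov (rfn n) (s • n) x) = _
    rw [h2]
    exact hκ₁0 x hx
  have eg1 : ∫ x in S1, dens a G g x = ∫ x in H, dens a G v x := by
    have h1 : ∫ x in S1, dens a G g x = ∫ x in S1, dens a G A₂ x :=
      setIntegral_dens_congr a G oS1 fun x hx => by
        simp only [S1, mem_ofPred_eq] at hx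
        simp [g, glue, hx.le]
    rw [h1, ← setIntegral_dens_mov a G I (-(s • n)) H]
    congr 2
    ext x
    simp only [H, S1, mem_preimage, mem_ofPred_eq, hI, inner_add_right, inner_neg_right, hns]
    constructor <;> intro h <;> linarith
  have eg2 : ∫ x in SL, dens a G g x = ∫ x in SL, dens a G u x := by
    have h1 : ∫ x in SL, dens a G g x = ∫ x in SL, dens a G B₂ x :=
      setIntegral_dens_congr a G oSL fun x hx => by
        simp only [SL, mem_inter_iff, mem_ofPred_eq] at hx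
        simp [g, glue, not_le.2 hx.2]
    have h2 := setIntegral_dens_mov (φ := u) a G (rfn n) (s • n) SL
    have h3 : mov (rfn n) (s • n) ⁻¹' SL = SL := by
      ext x
      simp only [SL, mem_preimage, mem_inter_iff, mem_ofPred_eq, hR, inner_add_right, hns,
        inner_rfn hn]
      constructor <;> rintro ⟨h1, h2⟩ <;> constructor <;> linarith
    rw [h3] at h2
    exact h1.trans h2
  have c₂ := hle g ⟨hg, hg0⟩
  rw [dH hg, eg1, eg2] at c₂
  have dHu := dH hu
  -- conclusion
  refine ⟨φ, hφ, ?_, ?_, ?_⟩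
  · intro x hx
    simp only [φ, glue]
    rw [if_pos hx]
    exact le_max_left _ _
  · intro x hx
    have h1 : φ x = q x := by
      simp only [φ, glue]
      split_ifs with h
      · exact hpq x (le_antisymm hx h)
      · rfl
    rw [h1]
    have h2 : φ' (x - s • n) = φ₂ x := by
      simp only [φ₂, hI]
      rw [sub_eq_add_neg]
    rw [h2]
    exact le_max_left _ _
  · rw [dE hφ, eφH, eφH']
    have t1 := dE hw
    have t2 := dH hw
    have t3 := dH' hw
    have t4 := dE hφ'
    have t5 := dH hφ'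
    have t6 := dH' hφ'
    change (∫ x in H, dens a G p x) + ∫ x in H, dens a G p' x = _ at lp
    change (∫ x in H', dens a G q x) + ∫ x in H', dens a G q' x = _ at lq
    linarith

end half

end Pool.Agent.Helper54.TF
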