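import Pool.Agent.Helper54.TF.Radial

set_option autoImplicit false

open MeasureTheory Set Filter Topology
open scoped NNReal ENNReal RealInnerProductSpace Gradient Pointwise

namespace Pool.Agent.Helper54.TF

instance finBall : IsFiniteMeasure (volume.restrict (Metric.ball (0 : E) 1)) :=
  ⟨by rw [Measure.restrict_apply_univ]; exact measure_ball_lt_top⟩

lemma volume_unitBall : (volume : Measure E).real (Metric.ball (0 : E) 1) = 4 / 3 * Real.pi := by
  rw [measureReal_def, EuclideanSpace.volume_ball_fin_three]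
  rw [ENNReal.toReal_mul, ENNReal.toReal_pow, ENNReal.toReal_ofReal (by norm_num),
    ENNReal.toReal_ofReal (by positivity)]
  ring

lemma bavg_const (c : ℝ) (y : E) (τ : ℝ) : bavg (fun _ => c) y τ = c := by
  unfold bavg
  rw [setIntegral_const, volume_unitBall, smul_eq_mul]
  have := Real.pi_pos
  field_simp

lemma integrable_ball {φ : E → ℝ} (hφ : Continuous φ) {C : ℝ} (hC : ∀ x, |φ x| ≤ C) (y : E)
    (τ : ℝ) : IntegrableOn (fun u => φ (y + τ • u)) (Metric.ball (0 : E) 1) := by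
  refine Integrable.mono' (g := fun _ => C) (integrable_const _) ?_
    (Eventually.of_forall fun u => hC _)
  exact (hφ.comp (by fun_prop : Continuous fun u : E => y + τ • u)).aestronglyMeasurable

lemma continuous_integrable_ball {φ : E → ℝ} (hφ : Continuous φ) (y : E)
    (τ : ℝ) : IntegrableOn (fun u => φ (y + τ • u)) (Metric.ball (0 : E) 1) := by
  have h1 : Continuous (fun u : E => φ (y + τ • u)) := hφ.comp (by fun_prop)
  exact (h1.continuousOn.integrableOn_compact (isCompact_closedBall (0 : E) 1)).mono_set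
    Metric.ball_subset_closedBall

lemma bavg_mono {φ ψ : E → ℝ} (hφ : Continuous φ) (hψ : Continuous ψ) {y : E} {τ : ℝ}
    (hτ : 0 < τ) (h : ∀ x, ‖x - y‖ < τ → φ x ≤ ψ x) : bavg φ y τ ≤ bavg ψ y τ := by
  unfold bavg
  refine mul_le_mul_of_nonneg_left ?_ (by positivity)
  refine setIntegral_mono_on (continuous_integrable_ball hφ y τ) (continuous_integrable_ball hψ y τ)
    Metric.isOpen_ball.measurableSet fun u hu => h _ ?_
  rw [mem_ball_zero_iff] at hu
  rw [add_sub_cancel_left, norm_smul, Real.norm_of_nonneg hτ.le]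
  nlinarith

lemma bavg_add {φ ψ : E → ℝ} (hφ : Continuous φ) (hψ : Continuous ψ) (y : E) (τ : ℝ) :
    bavg (fun x => φ x + ψ x) y τ = bavg φ y τ + bavg ψ y τ := by
  unfold bavg
  rw [integral_add (continuous_integrable_ball hφ y τ) (continuous_integrable_ball hψ y τ)]
  ring

lemma bavg_sub {φ ψ : E → ℝ} (hφ : Continuous φ) (hψ : Continuous ψ) (y : E) (τ : ℝ) :
    bavg (fun x => φ x - ψ x) y τ = bavg φ y τ - bavg ψ y τ := by
  unfold bavg
  rw [integral_sub (continuous_integrable_ball hφ y τ) (continuous_integrable_ball hψ y τ)]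
  ring

lemma bavg_const_mul (c : ℝ) (φ : E → ℝ) (y : E) (τ : ℝ) :
    bavg (fun x => c * φ x) y τ = c * bavg φ y τ := by
  unfold bavg
  rw [integral_const_mul]
  ring

lemma bavg_sum {ι : Type*} (s : Finset ι) {φ : ι → E → ℝ} (hφ : ∀ i, Continuous (φ i)) (y : E)
    (τ : ℝ) : bavg (fun x => ∑ i ∈ s, φ i x) y τ = ∑ i ∈ s, bavg (φ i) y τ := by
  unfold bavg
  rw [integral_finsetSum _ (fun i _ => continuous_integrable_ball (hφ i) y τ), Finset.mul_sum]

lemma bavg_comp_add (φ : E → ℝ) (a y : E) (τ : ℝ) :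
    bavg (fun x => φ (x + a)) y τ = bavg φ (y + a) τ := by
  unfold bavg
  congr 1
  refine integral_congr_ae (Eventually.of_forall fun u => ?_)
  simp only
  congr 1
  abel

lemma abs_bavg_sub_le {φ : E → ℝ} {K : ℝ≥0} (h : LipschitzWith K φ) (y : E) {τ : ℝ}
    (hτ : 0 < τ) : |bavg φ y τ - φ y| ≤ K * τ := by
  have h1 : ∀ x : E, ‖x - y‖ < τ → |φ x - φ y| ≤ K * τ := by
    intro x hx
    have := h.dist_le_mul x y
    rw [Real.dist_eq, dist_eq_norm] at this
    exact this.trans (mul_le_mul_of_nonneg_left hx.le K.coe_nonneg)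
  have h2 : bavg φ y τ ≤ φ y + K * τ := by
    rw [← bavg_const (φ y + K * τ) y τ]
    refine bavg_mono h.continuous continuous_const hτ fun x hx => ?_
    have := (abs_le.1 (h1 x hx)).2
    linarith
  have h3 : φ y - K * τ ≤ bavg φ y τ := by
    rw [← bavg_const (φ y - K * τ) y τ]
    refine bavg_mono continuous_const h.continuous hτ fun x hx => ?_
    have := (abs_le.1 (h1 x hx)).1
    linarith
  rw [abs_le]
  constructor <;> linarith

lemma continuous_bavg {φ : E → ℝ} {K : ℝ≥0} (h : LipschitzWith K φ) {τ : ℝ} (hτ : 0 < τ) :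
    LipschitzWith K (fun y => bavg φ y τ) := by
  refine LipschitzWith.of_dist_le_mul fun y y' => ?_
  rw [Real.dist_eq, dist_eq_norm]
  have key : ∀ y y' : E, bavg φ y τ ≤ bavg φ y' τ + K * ‖y - y'‖ := by
    intro y y'
    have h1 : bavg φ y τ = bavg (fun x => φ (x + (y - y'))) y' τ := by
      rw [bavg_comp_add]; congr 1; abel
    have h2 : bavg φ y' τ + K * ‖y - y'‖ = bavg (fun x => φ x + K * ‖y - y'‖) y' τ := by
      rw [bavg_add h.continuous continuous_const, bavg_const]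
    rw [h1, h2]
    refine bavg_mono (h.continuous.comp (by fun_prop)) (by have := h.continuous; fun_prop) hτ
      fun x _ => ?_
    show φ (x + (y - y')) ≤ φ x + K * ‖y - y'‖
    have := h.dist_le_mul (x + (y - y')) x
    rw [Real.dist_eq, dist_eq_norm, add_sub_cancel_left] at this
    have := (abs_le.1 this).2
    linarith
  rw [abs_le]
  constructor
  · have := key y' y
    rw [norm_sub_rev] at this
    linarith
  · have := key y y'
    linarith

lemma kr_neg (τ : ℝ) (x : E) : kr τ (-x) = kr τ x := by simp [kr]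

lemma bavg_kr_symm {σ τ : ℝ} (hσ : 0 < σ) (hτ : 0 < τ) (v : E) :
    bavg (kr σ) v τ = bavg (kr τ) (-v) σ := by
  have h1 := radial (dfun_kr hσ) v hτ
  have h2 := radial (dfun_kr hτ) (-v) hσ
  rw [gradient_kr hσ] at h1
  rw [gradient_kr hτ] at h2
  have h3 : ∫ x, ⟪gk τ x, gk σ (x - -v)⟫ = ∫ x, ⟪gk σ x, gk τ (x - v)⟫ := by
    rw [← integral_sub_right_eq_self (fun x => ⟪gk τ x, gk σ (x - -v)⟫) v]
    refine integral_congr_ae (Eventually.of_forall fun x => ?_)
    simp only [sub_neg_eq_add, sub_add_cancel]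
    exact real_inner_comm _ _
  rw [h3, h1] at h2
  have := Real.pi_pos
  exact mul_left_cancel₀ (by positivity) h2

/-- Newton's inequality. -/
lemma bavg_kr_le {τ : ℝ} (hτ : 0 < τ) (v : E) : bavg (kr τ) v τ ≤ kr τ v := by
  refine le_of_forall_pos_le_add fun ε hε => ?_
  set K : ℝ := ((Real.toNNReal ((1 + τ⁻¹) ^ 2) : ℝ≥0) : ℝ) with hK
  have hK0 : 0 ≤ K := NNReal.coe_nonneg _
  let σ : ℝ := min τ (ε / (K + 1))
  have hσ : 0 < σ := lt_min hτ (by positivity)
  have hστ : σ ≤ τ := min_le_left _ _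
  have h1 : bavg (kr τ) v τ ≤ bavg (kr σ) v τ :=
    bavg_mono (continuous_kr hτ) (continuous_kr hσ) hτ fun x _ => kr_anti hσ hστ x
  have h2 := (abs_le.1 (abs_bavg_sub_le (lipschitz_kr hτ) (-v) hσ)).2
  rw [kr_neg, ← hK] at h2
  have h3 : K * σ ≤ ε := by
    have : K * σ ≤ K * (ε / (K + 1)) := mul_le_mul_of_nonneg_left (min_le_right _ _) hK0
    refine this.trans ?_
    rw [mul_div_assoc', div_le_iff₀ (by positivity)]
    nlinarith
  rw [bavg_kr_symm hσ hτ v] at h1
  linarith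

/-- the interaction kernel of two uniform balls converges to the Coulomb kernel. -/
lemma bavg_kr_tendsto {v : E} (hv : v ≠ 0) :
    Tendsto (fun τ => bavg (kr τ) v τ) (𝓝[>] 0) (𝓝 (‖v‖⁻¹)) := by
  have hv' : 0 < ‖v‖ := norm_pos_iff.2 hv
  have hnear : ∀ᶠ τ in 𝓝[>] (0 : ℝ), 0 < τ ∧ τ < ‖v‖ / 2 := by
    have h1 : ∀ᶠ τ in 𝓝[>] (0 : ℝ), 0 < τ := eventually_mem_nhdsWithin
    have h2 : ∀ᶠ τ in 𝓝[>] (0 : ℝ), τ < ‖v‖ / 2 :=
      eventually_nhdsWithin_of_eventually_nhds (eventually_lt_nhds (by positivity))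
    exact h1.and h2
  have hlow : ∀ᶠ τ in 𝓝[>] (0 : ℝ), (‖v‖ + τ)⁻¹ ≤ bavg (kr τ) v τ := by
    filter_upwards [hnear] with τ hτ
    rw [← bavg_const (‖v‖ + τ)⁻¹ v τ]
    refine bavg_mono continuous_const (continuous_kr hτ.1) hτ.1 fun x hx => ?_
    have h1 : ‖v‖ - ‖x - v‖ ≤ ‖x‖ := by
      have := norm_sub_norm_le v (v - x)
      rw [sub_sub_cancel, norm_sub_rev] at this
      exact this
    have h2 : ‖x‖ ≤ ‖v‖ + ‖x - v‖ := by
      have := norm_add_le v (x - v)
      simpa using this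
    rw [kr_of_ge hτ.1 (by linarith [hτ.2])]
    exact inv_anti₀ (by linarith [hτ.2]) (by linarith)
  have hup : ∀ᶠ τ in 𝓝[>] (0 : ℝ), bavg (kr τ) v τ ≤ ‖v‖⁻¹ := by
    filter_upwards [hnear] with τ hτ
    exact (bavg_kr_le hτ.1 v).trans (kr_le_inv hτ.1 hv)
  have hlim : Tendsto (fun τ : ℝ => (‖v‖ + τ)⁻¹) (𝓝[>] 0) (𝓝 (‖v‖⁻¹)) := by
    have h1 : Tendsto (fun τ : ℝ => (‖v‖ + τ)⁻¹) (𝓝 0) (𝓝 ((‖v‖ + 0)⁻¹)) :=
      (tendsto_const_nhds.add tendsto_id).inv₀ (by simpa using hv)
    rw [add_zero] at h1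
    exact h1.mono_left nhdsWithin_le_nhds
  exact tendsto_of_tendsto_of_tendsto_of_le_of_le' hlim tendsto_const_nhds hlow hup

end Pool.Agent.Helper54.TF
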