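import Pool.Agent.Helper54.TF.Slab

set_option autoImplicit false

open MeasureTheory Set Filter Topology
open scoped NNReal ENNReal RealInnerProductSpace Gradient Pointwise

namespace Pool.Agent.Helper54.TF

variable {k : ℕ}

/-- potential of the point nuclei -/
noncomputable def Vp (z : Fin k → ℝ) (R : Fin k → E) (x : E) : ℝ := ∑ j, z j * ‖x - R j‖⁻¹

/-- nuclear repulsion (the diagonal terms vanish because `0⁻¹ = 0`) -/
noncomputable def Up (z : Fin k → ℝ) (R : Fin k → E) : ℝ :=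
  1 / 2 * ∑ i, ∑ j, z i * z j * ‖R i - R j‖⁻¹

/-- Thomas–Fermi functional without nuclear repulsion, point nuclei -/
noncomputable def Xp (z : Fin k → ℝ) (R : Fin k → E) (ρ : E → ℝ) : ℝ :=
  3 / 5 * (∫ x, ρ x ^ (5 / 3 : ℝ)) - (∫ x, Vp z R x * ρ x) + 1 / 2 * DD ρ ρ

variable {z : Fin k → ℝ} {R R' : Fin k → E} {δ : ℝ}

lemma measurable_Vp : Measurable (Vp z R) := by
  unfold Vp
  refine Finset.measurable_sum _ fun j _ => ?_
  exact ((measurable_id.sub_const (R j)).norm.inv).const_mul _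

lemma ae_ne (R : Fin k → E) : ∀ᵐ x : E, ∀ j, x ≠ R j := by
  rw [ae_all_iff]
  intro j
  have : volume {R j} = 0 := measure_singleton (R j)
  exact compl_mem_ae_iff.2 this

lemma integrable_Vp_mul {ρ : E → ℝ} (h : Nice ρ) : Integrable (fun x => Vp z R x * ρ x) := by
  unfold Vp
  simp only [Finset.sum_mul]
  refine integrable_finsetSum _ fun j _ => ?_
  refine ((h.integrable_inv (R j)).const_mul (z j)).congr (Eventually.of_forall fun x => ?_)
  simp only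
  rw [norm_sub_rev]
  ring

lemma Vs_le_Vp (hz : ∀ j, 0 ≤ z j) (hδ : 0 < δ) {x : E} (hx : ∀ j, x ≠ R j) :
    Vs z R δ x ≤ Vp z R x :=
  Finset.sum_le_sum fun j _ =>
    mul_le_mul_of_nonneg_left (kr_le_inv hδ (sub_ne_zero.2 (hx j))) (hz j)

lemma Xp_le_Xs (hz : ∀ j, 0 ≤ z j) (hδ : 0 < δ) {ρ : E → ℝ} (h : Nice ρ) :
    Xp z R ρ ≤ Xs z R δ ρ := by
  unfold Xp Xs As
  have h1 : ∫ x, Vs z R δ x * ρ x ≤ ∫ x, Vp z R x * ρ x := by
    refine integral_mono_ae ((dfun_Vs hδ).integrable_mul h.int) (integrable_Vp_mul h) ?_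
    filter_upwards [ae_ne R] with x hx
    exact mul_le_mul_of_nonneg_right (Vs_le_Vp hz hδ hx) (h.nonneg x)
  linarith

lemma tendsto_int_Vs (hz : ∀ j, 0 ≤ z j) {ρ : E → ℝ} (h : Nice ρ) :
    Tendsto (fun δ => ∫ x, Vs z R δ x * ρ x) (𝓝[>] 0) (𝓝 (∫ x, Vp z R x * ρ x)) := by
  refine tendsto_integral_filter_of_dominated_convergence (fun x => Vp z R x * ρ x) ?_ ?_
    (integrable_Vp_mul h) ?_
  · filter_upwards [self_mem_nhdsWithin] with δ hδ
    exact (dfun_Vs (z := z) (R := R) hδ).continuous.aestronglyMeasurable.mul h.int.1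
  · filter_upwards [self_mem_nhdsWithin] with δ hδ
    filter_upwards [ae_ne R] with x hx
    rw [Real.norm_of_nonneg (mul_nonneg (Vs_nonneg hz hδ x) (h.nonneg x))]
    exact mul_le_mul_of_nonneg_right (Vs_le_Vp hz hδ hx) (h.nonneg x)
  · filter_upwards [ae_ne R] with x hx
    refine Tendsto.mul_const _ ?_
    unfold Vs Vp
    refine tendsto_finsetSum _ fun j _ => Tendsto.const_mul _ ?_
    have hpos : 0 < ‖x - R j‖ := norm_pos_iff.2 (sub_ne_zero.2 (hx j))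
    have h1 : ∀ᶠ δ in 𝓝[>] (0 : ℝ), δ < ‖x - R j‖ :=
      eventually_nhdsWithin_of_eventually_nhds (eventually_lt_nhds hpos)
    refine (tendsto_congr' ?_).2 tendsto_const_nhds
    filter_upwards [h1, self_mem_nhdsWithin] with δ h2 h3
    exact kr_of_ge h3 h2.le

lemma tendsto_Xs (hz : ∀ j, 0 ≤ z j) {ρ : E → ℝ} (h : Nice ρ) :
    Tendsto (fun δ => Xs z R δ ρ) (𝓝[>] 0) (𝓝 (Xp z R ρ)) := by
  unfold Xs As Xp
  exact (tendsto_const_nhds.sub (tendsto_int_Vs hz h)).add tendsto_const_nhds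

lemma tendsto_Cs_sub (hR : Function.Injective R) (hR' : Function.Injective R') :
    Tendsto (fun δ => Cs z R δ - Cs z R' δ) (𝓝[>] 0) (𝓝 (Up z R - Up z R')) := by
  have h1 : Tendsto (fun δ => 1 / 2 * ∑ i, ∑ j, z i * z j *
      (bavg (kr δ) (R i - R j) δ - bavg (kr δ) (R' i - R' j) δ)) (𝓝[>] 0)
      (𝓝 (1 / 2 * ∑ i, ∑ j, z i * z j * (‖R i - R j‖⁻¹ - ‖R' i - R' j‖⁻¹))) := by
    refine Tendsto.const_mul _ (tendsto_finsetSum _ fun i _ => tendsto_finsetSum _ fun j _ =>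
      Tendsto.const_mul _ ?_)
    rcases eq_or_ne i j with rfl | hij
    · simp only [sub_self]
      exact tendsto_const_nhds
    · exact (bavg_kr_tendsto (sub_ne_zero.2 (hR.ne hij))).sub
        (bavg_kr_tendsto (sub_ne_zero.2 (hR'.ne hij)))
  have h2 : Up z R - Up z R' =
      1 / 2 * ∑ i, ∑ j, z i * z j * (‖R i - R j‖⁻¹ - ‖R' i - R' j‖⁻¹) := by
    unfold Up
    simp only [mul_sub, Finset.sum_sub_distrib]
  rw [h2]
  refine h1.congr' ?_
  filter_upwards [self_mem_nhdsWithin] with δ hδ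
  rw [Cs_eq hδ, Cs_eq hδ]
  simp only [mul_sub, Finset.sum_sub_distrib]

lemma injective_sep {n : E} (hn : ‖n‖ = 1) {s : ℝ} (hs : 0 ≤ s) (hR : Function.Injective R)
    (hne : ∀ j, ⟪n, R j⟫ ≠ 0)
    (h1 : ∀ j, 0 < ⟪n, R j⟫ → R' j = R j + s • n)
    (h2 : ∀ j, ⟪n, R j⟫ < 0 → R' j = R j - s • n) : Function.Injective R' := by
  have hnn : ⟪n, n⟫ = 1 := by rw [real_inner_self_eq_norm_sq, hn]; norm_num
  intro i j hij
  have key : ∀ i j, R' i = R' j → 0 < ⟪n, R i⟫ → ⟪n, R j⟫ < 0 → False := by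
    intro i j hij hi hj
    rw [h1 i hi, h2 j hj] at hij
    have h3 := congrArg (fun v => ⟪n, v⟫) hij
    simp only [inner_add_right, inner_sub_right, inner_smul_right, hnn] at h3
    linarith
  rcases lt_or_gt_of_ne (hne i) with hi | hi <;> rcases lt_or_gt_of_ne (hne j) with hj | hj
  · rw [h2 i hi, h2 j hj] at hij
    exact hR (sub_left_injective hij)
  · exact (key j i hij.symm hj hi).elim
  · exact (key i j hij hi hj).elim
  · rw [h1 i hi, h1 j hj] at hij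
    exact hR (add_left_injective _ hij)

/-- **Slab insertion for point nuclei.** -/
theorem slab_point {n : E} (hn : ‖n‖ = 1) {s : ℝ} (hs : 0 ≤ s) (hz : ∀ j, 0 ≤ z j)
    (hR : Function.Injective R) (hne : ∀ j, ⟪n, R j⟫ ≠ 0) {lam : ℝ} (hlam : 0 ≤ lam)
    (h1 : ∀ j, 0 < ⟪n, R j⟫ → R' j = R j + s • n)
    (h2 : ∀ j, ⟪n, R j⟫ < 0 → R' j = R j - s • n)
    {ρ : E → ℝ} (hρ : ρ ∈ Adm lam) {ε : ℝ} (hε : 0 < ε) :
    ∃ ρ' ∈ Adm lam, Xp z R' ρ' + Up z R' ≤ Xp z R ρ + Up z R + ε := by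
  have hR' := injective_sep hn hs hR hne h1 h2
  have hlim : Tendsto (fun δ => Xs z R δ ρ + (Cs z R δ - Cs z R' δ)) (𝓝[>] 0)
      (𝓝 (Xp z R ρ + (Up z R - Up z R'))) :=
    (tendsto_Xs hz hρ.1).add (tendsto_Cs_sub hR hR')
  have e1 : ∀ᶠ δ in 𝓝[>] (0 : ℝ), Xs z R δ ρ + (Cs z R δ - Cs z R' δ) <
      Xp z R ρ + (Up z R - Up z R') + ε / 2 :=
    hlim.eventually (gt_mem_nhds (by linarith))
  have e2 : ∀ᶠ δ in 𝓝[>] (0 : ℝ), ∀ j, δ ≤ |⟪n, R j⟫| := by
    rw [eventually_all]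
    intro j
    refine eventually_nhdsWithin_of_eventually_nhds ?_
    exact (eventually_lt_nhds (abs_pos.2 (hne j))).mono fun _ h => h.le
  obtain ⟨δ, h3, h4, hδ⟩ := (e1.and (e2.and self_mem_nhdsWithin)).exists
  obtain ⟨ρ', hρ', h5⟩ := slab_smeared hn hs hz hδ h4 hlam h1 h2 hρ (half_pos hε)
  refine ⟨ρ', hρ', ?_⟩
  have h6 := Xp_le_Xs (R := R') hz hδ hρ'.1
  linarith

end Pool.Agent.Helper54.TF
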