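import Pool.Agent.Helper54.TF.Kernel

set_option autoImplicit false

open MeasureTheory Set Filter Topology
open scoped NNReal ENNReal RealInnerProductSpace Gradient Pointwise

namespace Pool.Agent.Helper54.TF

/-- Test functions: Lipschitz, vanishing at infinity, with square integrable gradient. -/
structure Dfun (φ : E → ℝ) : Prop where
  lip : ∃ K, LipschitzWith K φ
  zero : Tendsto φ (cocompact E) (𝓝 0)
  grad : MemLp (∇ φ) 2 volume

lemma Dfun.continuous {φ : E → ℝ} (h : Dfun φ) : Continuous φ := by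
  obtain ⟨K, hK⟩ := h.lip
  exact hK.continuous

lemma Dfun.bounded {φ : E → ℝ} (h : Dfun φ) : ∃ C, ∀ x, |φ x| ≤ C := by
  let f : ZeroAtInftyContinuousMap E ℝ := ⟨⟨φ, h.continuous⟩, h.zero⟩
  refine ⟨‖f.toBCF‖, fun x => ?_⟩
  exact f.toBCF.norm_coe_le_norm x

lemma dfun_kr {τ : ℝ} (hτ : 0 < τ) : Dfun (kr τ) :=
  ⟨⟨_, lipschitz_kr hτ⟩, tendsto_kr hτ, by rw [gradient_kr hτ]; exact memLp_gk hτ⟩

lemma measurable_gradient (φ : E → ℝ) : Measurable (∇ φ) := by
  unfold gradient
  exact (LinearIsometryEquiv.continuous _).measurable.comp (measurable_fderiv ℝ φ)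

lemma norm_gradient_le {φ : E → ℝ} {K : ℝ≥0} (h : LipschitzWith K φ) (x : E) : ‖∇ φ x‖ ≤ K := by
  rw [← norm_fderiv_eq]
  exact norm_fderiv_le_of_lipschitz ℝ h

/-- Average of `φ` over the ball of radius `τ` about `y`. -/
noncomputable def bavg (φ : E → ℝ) (y : E) (τ : ℝ) : ℝ :=
  3 / (4 * Real.pi) * ∫ u in Metric.ball (0 : E) 1, φ (y + τ • u)

lemma integral_Ioi_inv_pow_four {c : ℝ} (hc : 0 < c) :
    ∫ r in Ioi c, (r ^ 4)⁻¹ = (3 : ℝ)⁻¹ * (c ^ 3)⁻¹ := by
  have h := integral_Ioi_rpow_of_lt (a := -4) (by norm_num) hc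
  have h2 : ∫ r in Ioi c, (r ^ 4)⁻¹ = ∫ t in Ioi c, t ^ (-4 : ℝ) := by
    refine setIntegral_congr_fun measurableSet_Ioi (fun r hr => ?_)
    have hr' : 0 < r := hc.trans hr
    rw [Real.rpow_neg hr'.le]
    norm_cast
  rw [h2, h]
  have h3 : c ^ (-4 + 1 : ℝ) = (c ^ 3)⁻¹ := by
    rw [show (-4 + 1 : ℝ) = -3 by norm_num, Real.rpow_neg hc.le]
    norm_cast
  rw [h3]
  ring

lemma integrableOn_Ioi_inv_pow_four {c : ℝ} (hc : 0 < c) :
    IntegrableOn (fun r : ℝ => (r ^ 4)⁻¹) (Ioi c) := by
  have h := integrableOn_Ioi_rpow_of_lt (a := -4) (by norm_num) hc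
  refine h.congr_fun (fun r hr => ?_) measurableSet_Ioi
  have hr' : 0 < r := hc.trans hr
  simp only
  rw [Real.rpow_neg hr'.le]
  norm_cast

/-- Integrability of the product of two square integrable fields. -/
lemma integrable_norm_mul_norm {f g : E → E} (hf : MemLp f 2 volume) (hg : MemLp g 2 volume) :
    Integrable (fun x => ‖f x‖ * ‖g x‖) :=
  hf.norm.integrable_mul hg.norm

lemma ae_differentiableAt_comp {φ : E → ℝ} {K : ℝ≥0} (h : LipschitzWith K φ) (y : E) {r : ℝ}
    (hr : r ≠ 0) : ∀ᵐ u : E, DifferentiableAt ℝ φ (y + r • u) := by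
  have h1 : ∀ᵐ x : E, DifferentiableAt ℝ φ x := h.ae_differentiableAt
  rw [ae_iff] at h1 ⊢
  have h2 : {a : E | ¬DifferentiableAt ℝ φ (y + r • a)} =
      (fun u : E => r • u) ⁻¹' ((fun x => y + x) ⁻¹' {a | ¬DifferentiableAt ℝ φ a}) := rfl
  rw [h2, Measure.addHaar_preimage_smul volume hr, measure_preimage_add, h1, mul_zero]

/-- The radial identity. -/
theorem radial {φ : E → ℝ} (hφ : Dfun φ) (y : E) {τ : ℝ} (hτ : 0 < τ) :
    ∫ x, ⟪∇ φ x, gk τ (x - y)⟫ = 4 * Real.pi * bavg φ y τ := by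
  obtain ⟨K, hK⟩ := hφ.lip
  obtain ⟨C, hC⟩ := hφ.bounded
  have hcont := hφ.continuous
  have hfin : IsFiniteMeasure (volume.restrict (Metric.ball (0 : E) 1)) :=
    ⟨by rw [Measure.restrict_apply_univ]; exact measure_ball_lt_top⟩
  -- the averages
  let M : ℝ → ℝ := fun r => ∫ u in Metric.ball (0 : E) 1, φ (y + r • u)
  let M' : ℝ → ℝ := fun r => ∫ u in Metric.ball (0 : E) 1, ⟪∇ φ (y + r • u), u⟫
  have hMder : ∀ r : ℝ, 0 < r → HasDerivAt M (M' r) r := by
    intro r hr
    have := (hasDerivAt_integral_of_dominated_loc_of_lip (μ := volume.restrict (Metric.ball (0 : E) 1))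
      (F := fun r u => φ (y + r • u)) (F' := fun u => ⟪∇ φ (y + r • u), u⟫) (x₀ := r)
      (s := univ) (bound := fun _ => (K : ℝ)) univ_mem ?_ ?_ ?_ ?_ ?_ ?_).2
    · exact this
    · exact Eventually.of_forall fun r' =>
        (hcont.comp (by fun_prop : Continuous fun u : E => y + r' • u)).aestronglyMeasurable
    · refine Integrable.mono' (g := fun _ => C) ?_ ?_ (Eventually.of_forall fun u => hC _)
      · exact integrable_const _
      · exact (hcont.comp (by fun_prop : Continuous fun u : E => y + r • u)).aestronglyMeasurable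
    · refine (Measurable.inner ?_ measurable_id).aestronglyMeasurable
      exact (measurable_gradient φ).comp (by fun_prop : Measurable fun u : E => y + r • u)
    · refine (ae_restrict_mem Metric.isOpen_ball.measurableSet).mono fun u hu => ?_
      rw [mem_ball_zero_iff] at hu
      refine LipschitzOnWith.of_dist_le_mul fun a _ b _ => ?_
      refine (hK.dist_le_mul _ _).trans ?_
      rw [dist_add_left, dist_eq_norm, dist_eq_norm, ← sub_smul, norm_smul]
      rw [Real.coe_nnabs, abs_of_nonneg K.coe_nonneg]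
      refine mul_le_mul_of_nonneg_left ?_ K.coe_nonneg
      exact mul_le_of_le_one_right (norm_nonneg _) hu.le
    · exact integrable_const _
    · refine ae_restrict_of_ae ((ae_differentiableAt_comp hK y hr.ne').mono fun u hu => ?_)
      have h1 : HasDerivAt (fun r' : ℝ => y + r' • u) u r := by
        simpa using ((hasDerivAt_id r).smul_const u).const_add y
      have h2 := hu.hasFDerivAt.comp_hasDerivAt r h1
      rw [inner_gradient_left]
      exact h2
  -- decay of `M`
  have hMzero : Tendsto M atTop (𝓝 0) := by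
    have h0 : (∫ _u in Metric.ball (0 : E) 1, (0 : ℝ)) = 0 := by simp
    rw [← h0]
    refine tendsto_integral_filter_of_dominated_convergence (fun _ => C) ?_ ?_ ?_ ?_
    · exact Eventually.of_forall fun r' =>
        (hcont.comp (by fun_prop : Continuous fun u : E => y + r' • u)).aestronglyMeasurable
    · exact Eventually.of_forall fun r' => Eventually.of_forall fun u => hC _
    · exact integrable_const _
    · refine ae_restrict_of_ae ?_
      have h1 : ∀ᵐ u : E, u ≠ 0 := by
        rw [ae_iff]; simp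
      refine h1.mono fun u hu => ?_
      refine hφ.zero.comp ?_
      rw [← Metric.cobounded_eq_cocompact, ← tendsto_norm_atTop_iff_cobounded]
      have h2 : Tendsto (fun r : ℝ => r * ‖u‖ - ‖y‖) atTop atTop :=
        tendsto_atTop_add_const_right _ _ (tendsto_id.atTop_mul_const (norm_pos_iff.2 hu))
      refine tendsto_atTop_mono' _ ?_ h2
      filter_upwards [eventually_ge_atTop 0] with r hr
      have h3 : ‖r • u‖ ≤ ‖y + r • u‖ + ‖y‖ := by
        have := norm_sub_le (y + r • u) y
        simpa using this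
      rw [norm_smul, Real.norm_of_nonneg hr] at h3
      linarith
  -- the kernel on the product
  let Ψ : ℝ × E → ℝ := fun p => (if ‖p.2‖ < p.1 then (p.1 ^ 4)⁻¹ else 0) * ⟪∇ φ (y + p.2), p.2⟫
  have hΨmeas : Measurable Ψ := by
    refine Measurable.mul (Measurable.ite ?_ (by fun_prop) measurable_const) (Measurable.inner ?_ measurable_snd)
    · exact measurableSet_lt (by fun_prop) (by fun_prop)
    · exact (measurable_gradient φ).comp (by fun_prop)
  have hind : ∀ x : E, ∫ r in Ioi τ, (if ‖x‖ < r then (r ^ 4)⁻¹ else 0) =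
      (3 : ℝ)⁻¹ * ((max ‖x‖ τ) ^ 3)⁻¹ := by
    intro x
    have hm : 0 < max ‖x‖ τ := lt_max_of_lt_right hτ
    rw [← integral_Ioi_inv_pow_four hm, ← integral_indicator measurableSet_Ioi,
      ← integral_indicator measurableSet_Ioi]
    congr 1
    ext r
    simp only [indicator, mem_Ioi, max_lt_iff]
    by_cases h1 : ‖x‖ < r <;> by_cases h2 : τ < r <;> simp [h1, h2]
  have hindint : ∀ x : E, IntegrableOn (fun r : ℝ => if ‖x‖ < r then (r ^ 4)⁻¹ else 0) (Ioi τ) := by
    intro x
    refine Integrable.mono' (integrableOn_Ioi_inv_pow_four hτ) ?_ ?_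
    · exact (Measurable.ite (measurableSet_lt measurable_const measurable_id) (by fun_prop)
        measurable_const).aestronglyMeasurable
    · refine Eventually.of_forall fun r => ?_
      split_ifs
      · rw [Real.norm_of_nonneg (by positivity)]
      · simp; positivity
  have hΨint : Integrable Ψ ((volume.restrict (Ioi τ)).prod volume) := by
    rw [integrable_prod_iff' hΨmeas.aestronglyMeasurable]
    refine ⟨Eventually.of_forall fun x => (hindint x).mul_const ⟪∇ φ (y + x), x⟫, ?_⟩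
    have h1 : ∀ x : E, ∫ r in Ioi τ, ‖Ψ (r, x)‖ =
        (3 : ℝ)⁻¹ * ((max ‖x‖ τ) ^ 3)⁻¹ * |⟪∇ φ (y + x), x⟫| := by
      intro x
      rw [← hind x, ← integral_mul_const]
      refine integral_congr_ae (Eventually.of_forall fun r => ?_)
      simp only [Ψ, norm_mul, Real.norm_eq_abs]
      congr 1
      split_ifs
      · rw [abs_of_nonneg (by positivity)]
      · simp
    simp_rw [h1]
    have h2 : Integrable (fun x : E => ‖∇ φ (y + x)‖ * ‖gk τ x‖) := by
      refine integrable_norm_mul_norm ?_ (memLp_gk hτ)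
      exact hφ.grad.comp_measurePreserving (measurePreserving_add_left volume y)
    refine h2.mono' ?_ (Eventually.of_forall fun x => ?_)
    · refine Measurable.aestronglyMeasurable ?_
      refine Measurable.mul (by fun_prop) ?_
      refine (Measurable.inner ?_ measurable_id).abs
      exact (measurable_gradient φ).comp (by fun_prop)
    · have hm : 0 < max ‖x‖ τ := lt_max_of_lt_right hτ
      rw [Real.norm_of_nonneg (by positivity), norm_gk τ hτ]
      have h3 : |⟪∇ φ (y + x), x⟫| ≤ ‖∇ φ (y + x)‖ * ‖x‖ := abs_real_inner_le_norm _ _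
      calc 3⁻¹ * ((max ‖x‖ τ) ^ 3)⁻¹ * |⟪∇ φ (y + x), x⟫|
          ≤ 3⁻¹ * ((max ‖x‖ τ) ^ 3)⁻¹ * (‖∇ φ (y + x)‖ * ‖x‖) :=
            mul_le_mul_of_nonneg_left h3 (by positivity)
        _ = 3⁻¹ * (‖∇ φ (y + x)‖ * (((max ‖x‖ τ) ^ 3)⁻¹ * ‖x‖)) := by ring
        _ ≤ 1 * (‖∇ φ (y + x)‖ * (((max ‖x‖ τ) ^ 3)⁻¹ * ‖x‖)) :=
            mul_le_mul_of_nonneg_right (by norm_num) (by positivity)
        _ = _ := one_mul _
  -- `M'` as an integral of `Ψ`
  have hM'eq : ∀ r : ℝ, 0 < r → M' r = ∫ x, Ψ (r, x) := by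
    intro r hr
    have h1 := Measure.setIntegral_comp_smul_of_pos (volume : Measure E)
      (fun x => r⁻¹ * ⟪∇ φ (y + x), x⟫) (Metric.ball (0 : E) 1) hr
    have h2 : ∀ u : E, r⁻¹ * ⟪∇ φ (y + r • u), r • u⟫ = ⟪∇ φ (y + r • u), u⟫ := by
      intro u
      rw [inner_smul_right]
      field_simp
    simp only [h2] at h1
    have h3 : r • Metric.ball (0 : E) 1 = Metric.ball (0 : E) r := by
      rw [smul_ball hr.ne', smul_zero, Real.norm_of_nonneg hr.le, mul_one]
    rw [h3] at h1
    show ∫ u in Metric.ball (0 : E) 1, ⟪∇ φ (y + r • u), u⟫ = _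
    rw [h1, ← integral_indicator Metric.isOpen_ball.measurableSet, smul_eq_mul,
      ← integral_const_mul]
    congr 1
    ext x
    simp only [indicator, Ψ, mem_ball_zero_iff, finrank_euclideanSpace, Fintype.card_fin]
    by_cases h : ‖x‖ < r
    · simp only [h, if_true]
      field_simp
    · simp [h]
  have hM'int : IntegrableOn M' (Ioi τ) := by
    refine hΨint.integral_prod_left.congr ?_
    refine (ae_restrict_mem measurableSet_Ioi).mono fun r hr => ?_
    exact (hM'eq r (hτ.trans hr)).symm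
  have hFTC : ∫ r in Ioi τ, M' r = 0 - M τ :=
    integral_Ioi_of_hasDerivAt_of_tendsto (hMder τ hτ).continuousAt.continuousWithinAt
      (fun r hr => hMder r (hτ.trans hr)) hM'int hMzero
  have hswap : ∫ r in Ioi τ, M' r = ∫ x, ∫ r in Ioi τ, Ψ (r, x) := by
    rw [← integral_integral_swap (f := fun r x => Ψ (r, x)) hΨint]
    refine setIntegral_congr_fun measurableSet_Ioi fun r hr => hM'eq r (hτ.trans hr)
  have hin : ∀ x : E, ∫ r in Ioi τ, Ψ (r, x) = -(3 : ℝ)⁻¹ * ⟪∇ φ (y + x), gk τ x⟫ := by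
    intro x
    simp only [Ψ]
    rw [integral_mul_const, hind x, gk, inner_smul_right]
    ring
  simp_rw [hin] at hswap
  rw [integral_const_mul] at hswap
  have htrans : ∫ x, ⟪∇ φ x, gk τ (x - y)⟫ = ∫ x, ⟪∇ φ (y + x), gk τ x⟫ := by
    rw [← integral_add_left_eq_self (fun x => ⟪∇ φ x, gk τ (x - y)⟫) y]
    simp
  rw [htrans]
  have hMτ : M τ = ∫ u in Metric.ball (0 : E) 1, φ (y + τ • u) := rfl
  have : 4 * Real.pi * bavg φ y τ = 3 * M τ := by
    rw [bavg, ← hMτ]
    have := Real.pi_pos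
    field_simp
  rw [this]
  linarith

end Pool.Agent.Helper54.TF
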