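import Pool.Agent.Helper54.TF.Point

set_option autoImplicit false

open MeasureTheory Set Filter Topology
open scoped NNReal ENNReal RealInnerProductSpace Gradient Pointwise

namespace Pool.Agent.Helper54.TF

/-- the uniform density of mass `M` on the unit ball -/
noncomputable def ub (M : ℝ) (x : E) : ℝ :=
  (Metric.ball (0 : E) 1).indicator (fun _ => M / (4 / 3 * Real.pi)) x

lemma nice_ub {M : ℝ} (hM : 0 ≤ M) : Nice (ub M) := by
  have hpi := Real.pi_pos
  have hc : 0 ≤ M / (4 / 3 * Real.pi) := by positivity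
  refine ⟨fun x => indicator_nonneg (fun _ _ => hc) _, ?_, ?_⟩
  · unfold ub
    rw [integrable_indicator_iff Metric.isOpen_ball.measurableSet]
    exact integrable_const _
  · have h1 : (fun x => ub M x ^ (5 / 3 : ℝ)) =
        (Metric.ball (0 : E) 1).indicator (fun _ => (M / (4 / 3 * Real.pi)) ^ (5 / 3 : ℝ)) := by
      ext x
      unfold ub
      by_cases hx : x ∈ Metric.ball (0 : E) 1
      · rw [indicator_of_mem hx, indicator_of_mem hx]
      · rw [indicator_of_notMem hx, indicator_of_notMem hx, Real.zero_rpow (by norm_num)]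
    rw [h1, integrable_indicator_iff Metric.isOpen_ball.measurableSet]
    exact integrable_const _

lemma integral_ub (M : ℝ) : ∫ x, ub M x = M := by
  unfold ub
  rw [integral_indicator Metric.isOpen_ball.measurableSet, setIntegral_const, volume_unitBall,
    smul_eq_mul]
  have := Real.pi_pos
  field_simp

/-- dilated densities -/
noncomputable def dil (r : ℝ) (B : E → ℝ) (x : E) : ℝ := (r ^ 3)⁻¹ * B (r⁻¹ • x)

section dil

variable {r : ℝ} {B : E → ℝ}

lemma integral_smul_inv (hr : 0 < r) (f : E → ℝ) :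
    ∫ x, f (r⁻¹ • x) = r ^ 3 * ∫ x, f x := by
  rw [Measure.integral_comp_smul]
  simp only [finrank_euclideanSpace, Fintype.card_fin, smul_eq_mul]
  rw [inv_pow, inv_inv, abs_of_pos (by positivity)]

lemma integrable_smul_inv (hr : 0 < r) {f : E → ℝ} (hf : Integrable f) :
    Integrable (fun x => f (r⁻¹ • x)) := hf.comp_smul (by positivity)

lemma Nice.dil (h : Nice B) (hr : 0 < r) : Nice (dil r B) := by
  refine ⟨fun x => mul_nonneg (by positivity) (h.nonneg _),
    (integrable_smul_inv hr h.int).const_mul _, ?_⟩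
  have h1 := (integrable_smul_inv hr h.int53).const_mul (((r ^ 3)⁻¹) ^ (5 / 3 : ℝ))
  refine h1.congr (Eventually.of_forall fun x => ?_)
  simp only [TF.dil]
  rw [Real.mul_rpow (by positivity) (h.nonneg _)]

lemma integral_dil (hr : 0 < r) : ∫ x, dil r B x = ∫ x, B x := by
  unfold dil
  rw [integral_const_mul, integral_smul_inv hr]
  field_simp

lemma integral_dil53 (h : Nice B) (hr : 0 < r) :
    ∫ x, dil r B x ^ (5 / 3 : ℝ) = (r ^ 2)⁻¹ * ∫ x, B x ^ (5 / 3 : ℝ) := by
  have h1 : ∀ x, dil r B x ^ (5 / 3 : ℝ) = (r ^ 5)⁻¹ * B (r⁻¹ • x) ^ (5 / 3 : ℝ) := by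
    intro x
    simp only [dil]
    rw [Real.mul_rpow (by positivity) (h.nonneg _)]
    congr 1
    rw [Real.inv_rpow (by positivity), ← Real.rpow_natCast r 3, ← Real.rpow_mul hr.le,
      ← Real.rpow_natCast r 5]
    norm_num
  simp only [h1]
  rw [integral_const_mul, integral_smul_inv hr (fun x => B x ^ (5 / 3 : ℝ))]
  field_simp

lemma cpot_dil (hr : 0 < r) (x : E) : cpot (dil r B) x = r⁻¹ * cpot B (r⁻¹ • x) := by
  unfold cpot
  have h1 : ∀ y, dil r B y * ‖x - y‖⁻¹ =
      (r ^ 4)⁻¹ * (fun w => B w * ‖r⁻¹ • x - w‖⁻¹) (r⁻¹ • y) := by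
    intro y
    simp only [dil]
    rw [← smul_sub, norm_smul, Real.norm_of_nonneg (by positivity), mul_inv, inv_inv]
    field_simp
  simp only [h1]
  rw [integral_const_mul, integral_smul_inv hr (fun w => B w * ‖r⁻¹ • x - w‖⁻¹)]
  field_simp

end dil

/-- very spread-out densities -/
lemma exists_spread {M η : ℝ} (hM : 0 ≤ M) (hη : 0 < η) :
    ∃ B, Nice B ∧ ∫ x, B x = M ∧ ∫ x, B x ^ (5 / 3 : ℝ) ≤ η ∧ ∀ x, cpot B x ≤ η := by
  have hN := nice_ub hM
  obtain ⟨C, hC⟩ := hN.cpot_bdd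
  have hC0 : 0 ≤ C := (cpot_nonneg hN.nonneg 0).trans (hC 0)
  set J : ℝ := ∫ x, ub M x ^ (5 / 3 : ℝ) with hJ
  have hJ0 : 0 ≤ J := int53_nonneg hN
  let r : ℝ := 1 + J / η + C / η
  have hJη : 0 ≤ J / η := by positivity
  have hCη : 0 ≤ C / η := by positivity
  have hr1 : 1 ≤ r := by simp only [r]; linarith
  have hr : 0 < r := by linarith
  refine ⟨dil r (ub M), hN.dil hr, ?_, ?_, ?_⟩
  · rw [integral_dil hr, integral_ub]
  · rw [integral_dil53 hN hr, ← hJ, inv_mul_le_iff₀ (by positivity)]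
    have h1 : J / η ≤ r ^ 2 := by
      have : r ≤ r ^ 2 := by nlinarith
      simp only [r] at this ⊢
      linarith
    rw [div_le_iff₀ hη] at h1
    exact h1
  · intro x
    rw [cpot_dil hr, inv_mul_le_iff₀ hr]
    have h1 : C / η ≤ r := by simp only [r]; linarith
    rw [div_le_iff₀ hη] at h1
    exact (hC _).trans h1

variable {k : ℕ} {z : Fin k → ℝ} {R : Fin k → E}

lemma DD_le_of_cpot_le {ρ B : E → ℝ} {η : ℝ} (hρ : Nice ρ) (hB : Nice B) (h : ∀ x, cpot B x ≤ η) :
    DD ρ B ≤ η * ∫ x, ρ x := by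
  unfold DD
  rw [← integral_const_mul]
  refine integral_mono (integrable_mul_cpot hρ hB) (hρ.int.const_mul _) fun x => ?_
  simp only
  rw [mul_comm]
  exact mul_le_mul_of_nonneg_right (h x) (hρ.nonneg x)

lemma Vp_nonneg (hz : ∀ j, 0 ≤ z j) (x : E) : 0 ≤ Vp z R x :=
  Finset.sum_nonneg fun j _ => mul_nonneg (hz j) (by positivity)

/-- relaxation of the mass constraint -/
lemma relax (hz : ∀ j, 0 ≤ z j) {lam : ℝ} {ρ : E → ℝ} (hρ : ρ ∈ Adm lam) {ε : ℝ} (hε : 0 < ε) :
    ∃ ρ', Nice ρ' ∧ ∫ x, ρ' x = lam ∧ Xp z R ρ' ≤ Xp z R ρ + ε := by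
  obtain ⟨hN, hm⟩ := hρ
  have hlam : 0 ≤ lam := (integral_nonneg hN.nonneg).trans hm
  -- a lower bound for the mixture in terms of `t`
  set V : ℝ := ∫ x, Vp z R x * ρ x with hV
  have hV0 : 0 ≤ V := integral_nonneg fun x => mul_nonneg (Vp_nonneg hz x) (hN.nonneg x)
  let t : ℝ := min (1 / 2) (ε / (2 * (V + 1)))
  have ht0 : 0 < t := lt_min (by norm_num) (by positivity)
  have ht1 : t ≤ 1 / 2 := min_le_left _ _
  have htV : t * V ≤ ε / 2 := by
    have h1 : t ≤ ε / (2 * (V + 1)) := min_le_right _ _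
    rw [le_div_iff₀ (by positivity)] at h1
    nlinarith
  let M : ℝ := (lam - (1 - t) * ∫ x, ρ x) / t
  have hM : 0 ≤ M := by
    refine div_nonneg ?_ ht0.le
    have h2 : 0 ≤ ∫ x, ρ x := integral_nonneg hN.nonneg
    nlinarith
  let η : ℝ := ε / (2 * (3 / 5 + lam + M))
  have hη : 0 < η := by positivity
  obtain ⟨B, hB, hBm, hB53, hBc⟩ := exists_spread hM hη
  have ht1' : t ≤ 1 := by linarith
  refine ⟨mix t ρ B, hN.mix hB ht0.le ht1', ?_, ?_⟩
  · unfold mix
    rw [integral_add (hN.int.const_mul _) (hB.int.const_mul _), integral_const_mul,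
      integral_const_mul, hBm]
    simp only [M]
    field_simp
    ring
  · -- the three terms
    have hK : ∫ x, mix t ρ B x ^ (5 / 3 : ℝ) ≤ (∫ x, ρ x ^ (5 / 3 : ℝ)) + η := by
      have h1 : ∫ x, mix t ρ B x ^ (5 / 3 : ℝ) ≤
          ∫ x, ((1 - t) * ρ x ^ (5 / 3 : ℝ) + t * B x ^ (5 / 3 : ℝ)) :=
        integral_mono (hN.mix hB ht0.le ht1').int53
          ((hN.int53.const_mul _).add (hB.int53.const_mul _))
          fun x => mix_rpow_le hN hB ht0.le ht1' x
      rw [integral_add (hN.int53.const_mul _) (hB.int53.const_mul _), integral_const_mul,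
        integral_const_mul] at h1
      have h2 := int53_nonneg hN
      have h3 := int53_nonneg hB
      nlinarith
    have hVm : (1 - t) * V ≤ ∫ x, Vp z R x * mix t ρ B x := by
      have h1 : ∀ x, Vp z R x * mix t ρ B x =
          (1 - t) * (Vp z R x * ρ x) + t * (Vp z R x * B x) := fun x => by
        simp only [mix]; ring
      simp only [h1]
      rw [integral_add ((integrable_Vp_mul hN).const_mul _) ((integrable_Vp_mul hB).const_mul _),
        integral_const_mul, integral_const_mul, ← hV]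
      have h2 : 0 ≤ ∫ x, Vp z R x * B x :=
        integral_nonneg fun x => mul_nonneg (Vp_nonneg hz x) (hB.nonneg x)
      nlinarith
    have hD : DD (mix t ρ B) (mix t ρ B) ≤ DD ρ ρ + 2 * (η * lam) + η * M := by
      rw [DD_mix hN hB]
      have h1 := DD_nonneg hN.nonneg hN.nonneg
      have h2 := DD_nonneg hN.nonneg hB.nonneg
      have h3 := DD_nonneg hB.nonneg hB.nonneg
      have h4 : DD ρ B ≤ η * lam :=
        (DD_le_of_cpot_le hN hB hBc).trans (mul_le_mul_of_nonneg_left hm hη.le)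
      have h5 : DD B B ≤ η * M := by
        have := DD_le_of_cpot_le hB hB hBc
        rwa [hBm] at this
      have h6 : (1 - t) ^ 2 * DD ρ ρ ≤ DD ρ ρ := by
        have : (1 - t) ^ 2 ≤ 1 := by nlinarith
        nlinarith
      have h7 : 2 * t * (1 - t) * DD ρ B ≤ 2 * DD ρ B := by
        have : 2 * t * (1 - t) ≤ 2 := by nlinarith
        exact mul_le_mul_of_nonneg_right this h2
      have h8 : t ^ 2 * DD B B ≤ DD B B := by
        have : t ^ 2 ≤ 1 := by nlinarith
        nlinarith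
      linarith
    have hηe : η * (3 / 5 + lam + M) = ε / 2 := by
      simp only [η]
      have h0 : 3 / 5 + lam + M ≠ 0 := by positivity
      field_simp
    unfold Xp
    rw [← hV]
    have h9 : η * (3 / 5 + lam + M) = 3 / 5 * η + η * lam + η * M := by ring
    have h10 : 0 ≤ η * M := by positivity
    nlinarith

/-- the functional is bounded below -/
lemma Xp_bdd (hz : ∀ j, 0 ≤ z j) (lam : ℝ) : ∃ C, ∀ ρ ∈ Adm lam, C ≤ Xp z R ρ := by
  set Z : ℝ := ∑ j, z j with hZ
  have hZ0 : 0 ≤ Z := Finset.sum_nonneg fun j _ => hz j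
  let s : ℝ := (1 + Z) ^ (-(3 / 5) : ℝ)
  have hs : 0 < s := by positivity
  have hs53 : s ^ (5 / 3 : ℝ) = (1 + Z)⁻¹ := by
    simp only [s]
    rw [← Real.rpow_mul (by positivity)]
    norm_num
    rw [Real.rpow_neg_one]
  refine ⟨-(Z * (2 / 5 * (s ^ (-(5 / 2) : ℝ) * cI) + lam)), fun ρ hρ => ?_⟩
  obtain ⟨hN, hm⟩ := hρ
  have hVle : ∫ x, Vp z R x * ρ x ≤ Z * (3 / 5 * (s ^ (5 / 3 : ℝ) * ∫ y, ρ y ^ (5 / 3 : ℝ)) +
      2 / 5 * (s ^ (-(5 / 2) : ℝ) * cI) + lam) := by
    have h1 : ∫ x, Vp z R x * ρ x = ∑ j, z j * cpot ρ (R j) := by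
      unfold Vp cpot
      simp only [Finset.sum_mul]
      rw [integral_finsetSum]
      · refine Finset.sum_congr rfl fun j _ => ?_
        rw [← integral_const_mul]
        refine integral_congr_ae (Eventually.of_forall fun x => ?_)
        simp only
        rw [norm_sub_rev]
        ring
      · intro j _
        refine ((hN.integrable_inv (R j)).const_mul (z j)).congr (Eventually.of_forall fun x => ?_)
        simp only
        rw [norm_sub_rev]
        ring
    rw [h1, hZ, Finset.sum_mul]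
    refine Finset.sum_le_sum fun j _ => mul_le_mul_of_nonneg_left ?_ (hz j)
    have := hN.cpot_le (R j) hs
    linarith
  have h2 := int53_nonneg hN
  have h3 := DD_nonneg hN.nonneg hN.nonneg
  have h4 : Z * (s ^ (5 / 3 : ℝ)) ≤ 1 := by
    rw [hs53, ← div_eq_mul_inv, div_le_one (by positivity)]
    linarith
  have h5 : Z * (s ^ (5 / 3 : ℝ)) * (∫ y, ρ y ^ (5 / 3 : ℝ)) ≤ ∫ y, ρ y ^ (5 / 3 : ℝ) :=
    mul_le_of_le_one_left h2 h4
  unfold Xp
  nlinarith

end Pool.Agent.Helper54.TF
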