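import Pool.Agent.Helper54.TF.Strong2

set_option autoImplicit false

open MeasureTheory Set Filter Topology
open scoped NNReal ENNReal RealInnerProductSpace Gradient Pointwise

namespace Pool.Agent.Helper54.TF

variable {k : ℕ} {z : Fin k → ℝ} {R R' : Fin k → E} {δ : ℝ}

/-- **Slab insertion for smeared nuclei.** -/
theorem slab_smeared {n : E} (hn : ‖n‖ = 1) {s : ℝ} (hs : 0 ≤ s) (hz : ∀ j, 0 ≤ z j) (hδ : 0 < δ)
    (hδR : ∀ j, δ ≤ |⟪n, R j⟫|) {lam : ℝ} (hlam : 0 ≤ lam)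
    (h1 : ∀ j, 0 < ⟪n, R j⟫ → R' j = R j + s • n)
    (h2 : ∀ j, ⟪n, R j⟫ < 0 → R' j = R j - s • n)
    {ρ : E → ℝ} (hρ : ρ ∈ Adm lam) {ε : ℝ} (hε : 0 < ε) :
    ∃ ρ' ∈ Adm lam, Xs z R' δ ρ' + Cs z R' δ ≤ Xs z R δ ρ + Cs z R δ + ε := by
  obtain ⟨ρ', hρ', φ', hφ', μ, hμ, hd⟩ := strong_duality (R := R') hz hδ hlam (half_pos hε)
  have hpi := Real.pi_pos
  obtain ⟨φ, hφ, hp, hm, he⟩ := lattice_main hn hs (a := (8 * Real.pi)⁻¹) (by positivity)
    (continuous_Gm μ) (Gm_zero hμ) (Gm_nonneg μ) hφ' (half_pos hε)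
  refine ⟨ρ', hρ', ?_⟩
  have hweak := weak_duality (z := z) (R := R) hδ hφ hμ hρ.1 hρ.2
  have hPP : PP z R' δ φ' ≤ PP z R δ φ := by
    unfold PP
    refine Finset.sum_le_sum fun j _ => mul_le_mul_of_nonneg_left ?_ (hz j)
    have hinner : ∀ x : E, ‖x - R j‖ < δ → |⟪n, x⟫ - ⟪n, R j⟫| ≤ δ := by
      intro x hx
      rw [← inner_sub_right]
      refine (abs_real_inner_le_norm _ _).trans ?_
      rw [hn, one_mul]
      exact hx.le
    have hne : ⟪n, R j⟫ ≠ 0 := by
      intro h0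
      have := hδR j
      rw [h0, abs_zero] at this
      linarith
    rcases lt_or_gt_of_ne hne with hj | hj
    · rw [h2 j hj, sub_eq_add_neg, ← bavg_comp_add]
      refine bavg_mono (hφ'.continuous.comp (by fun_prop)) hφ.continuous hδ fun x hx => ?_
      have h3 := abs_le.1 (hinner x hx)
      have h4 := hδR j
      rw [abs_of_neg hj] at h4
      have h5 := hm x (by linarith [h3.2])
      rw [sub_eq_add_neg] at h5
      exact h5
    · rw [h1 j hj, ← bavg_comp_add]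
      refine bavg_mono (hφ'.continuous.comp (by fun_prop)) hφ.continuous hδ fun x hx => ?_
      have h3 := abs_le.1 (hinner x hx)
      have h4 := hδR j
      rw [abs_of_pos hj] at h4
      exact hp x (by linarith [h3.1])
  unfold FF at hd hweak
  linarith

end Pool.Agent.Helper54.TF
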