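import Pool.Agent.Helper54.TF.Energy
import Pool.Agent.Helper54.TF.Lattice

set_option autoImplicit false

open MeasureTheory Set Filter Topology
open scoped NNReal ENNReal RealInnerProductSpace Gradient Pointwise

namespace Pool.Agent.Helper54.TF

/-! ### Closure properties of test functions -/

lemma Dfun.ae_diff {φ : E → ℝ} (h : Dfun φ) : ∀ᵐ x, DifferentiableAt ℝ φ x := by
  obtain ⟨K, hK⟩ := h.lip
  exact hK.ae_differentiableAt

lemma gradient_sub_of {f g : E → ℝ} {x : E} (hf : DifferentiableAt ℝ f x)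
    (hg : DifferentiableAt ℝ g x) : ∇ (fun y => f y - g y) x = ∇ f x - ∇ g x := by
  unfold gradient
  rw [fderiv_fun_sub hf hg, map_sub]

lemma Dfun.sub {f g : E → ℝ} (hf : Dfun f) (hg : Dfun g) : Dfun (fun x => f x - g x) := by
  obtain ⟨K, hK⟩ := hf.lip
  obtain ⟨K', hK'⟩ := hg.lip
  refine ⟨⟨_, hK.sub hK'⟩, by simpa using hf.zero.sub hg.zero, ?_⟩
  refine (hf.grad.sub hg.grad).ae_eq ?_
  filter_upwards [hf.ae_diff, hg.ae_diff] with x h1 h2
  rw [gradient_sub_of h1 h2]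
  rfl

lemma LC.dfun {φ : E → ℝ} (h : LC φ) : Dfun φ := by
  obtain ⟨K, hK⟩ := h.lip
  obtain ⟨R, hR⟩ := h.supp
  refine ⟨⟨K, hK⟩, ?_, ?_⟩
  · have : φ =ᶠ[cocompact E] fun _ => 0 := by
      filter_upwards [(isCompact_closedBall (0 : E) R).compl_mem_cocompact] with x hx
      refine hR x ?_
      rw [mem_compl_iff, mem_closedBall_zero_iff, not_le] at hx
      exact hx.le
    exact (tendsto_congr' this).2 tendsto_const_nhds
  · rw [memLp_two_iff_integrable_sq_norm (measurable_gradient φ).aestronglyMeasurable]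
    have h1 := integrable_dens (G := fun _ => 0) 1 continuous_const rfl h
    refine h1.congr (Eventually.of_forall fun x => ?_)
    simp [dens, norm_fderiv_eq]

variable {k : ℕ}

/-! ### Smeared nuclei -/

/-- potential of the smeared nuclei -/
noncomputable def Vs (z : Fin k → ℝ) (R : Fin k → E) (δ : ℝ) (x : E) : ℝ :=
  ∑ j, z j * kr δ (x - R j)

/-- its gradient -/
noncomputable def gVs (z : Fin k → ℝ) (R : Fin k → E) (δ : ℝ) (x : E) : E :=
  ∑ j, z j • gk δ (x - R j)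

/-- pairing of a function with the smeared nuclei -/
noncomputable def PP (z : Fin k → ℝ) (R : Fin k → E) (δ : ℝ) (φ : E → ℝ) : ℝ :=
  ∑ j, z j * bavg φ (R j) δ

/-- field energy of the smeared nuclei -/
noncomputable def Cs (z : Fin k → ℝ) (R : Fin k → E) (δ : ℝ) : ℝ :=
  (8 * Real.pi)⁻¹ * ∫ x, ‖gVs z R δ x‖ ^ 2

section

variable {z : Fin k → ℝ} {R : Fin k → E} {δ : ℝ}

lemma hasGradientAt_Vs (hδ : 0 < δ) (x : E) : HasGradientAt (Vs z R δ) (gVs z R δ x) x := by
  rw [hasGradientAt_iff_hasFDerivAt]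
  have h : ∀ j ∈ (Finset.univ : Finset (Fin k)), HasFDerivAt (fun x => z j * kr δ (x - R j))
      (z j • (InnerProductSpace.toDual ℝ E (gk δ (x - R j)) : E →L[ℝ] ℝ)) x := by
    intro j _
    have h1 := (hasGradientAt_kr hδ (x - R j)).hasFDerivAt
    have h2 : HasFDerivAt (fun x : E => x - R j) (ContinuousLinearMap.id ℝ E) x :=
      (hasFDerivAt_id x).sub_const (R j)
    have h3 := (h1.comp x h2).const_mul (z j)
    simpa using h3
  have h4 := HasFDerivAt.fun_sum h
  refine h4.congr_fderiv ?_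
  unfold gVs
  rw [map_sum]
  simp

lemma gradient_Vs (hδ : 0 < δ) : ∇ (Vs z R δ) = gVs z R δ := gradient_eq (hasGradientAt_Vs hδ)

lemma memLp_gVs (hδ : 0 < δ) : MemLp (gVs z R δ) 2 volume := by
  unfold gVs
  refine memLp_finsetSum _ fun j _ => ?_
  exact ((memLp_gk hδ).comp_measurePreserving (measurePreserving_sub_right volume (R j))).const_smul (z j)

lemma Vs_nonneg (hz : ∀ j, 0 ≤ z j) (hδ : 0 < δ) (x : E) : 0 ≤ Vs z R δ x :=
  Finset.sum_nonneg fun j _ => mul_nonneg (hz j) (kr_nonneg hδ _)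

lemma Vs_le (hz : ∀ j, 0 ≤ z j) (hδ : 0 < δ) (x : E) : Vs z R δ x ≤ (∑ j, z j) * (3 / (2 * δ)) := by
  unfold Vs
  rw [Finset.sum_mul]
  exact Finset.sum_le_sum fun j _ => mul_le_mul_of_nonneg_left (kr_le hδ _) (hz j)

lemma tendsto_Vs (hδ : 0 < δ) : Tendsto (Vs z R δ) (cocompact E) (𝓝 0) := by
  have h0 : (0 : ℝ) = ∑ j : Fin k, z j * 0 := by simp
  rw [h0]
  refine tendsto_finsetSum _ fun j _ => Tendsto.const_mul _ ?_
  exact (tendsto_kr hδ).comp (Homeomorph.subRight (R j)).isClosedEmbedding.tendsto_cocompact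

lemma lipschitz_Vs (hδ : 0 < δ) : ∃ K, LipschitzWith K (Vs z R δ) := by
  have key : ∀ s : Finset (Fin k), ∃ K, LipschitzWith K (fun x => ∑ j ∈ s, z j * kr δ (x - R j)) := by
    intro s
    classical
    induction s using Finset.induction_on with
    | empty => exact ⟨0, by simp⟩
    | insert j s hj ih =>
      obtain ⟨K, hK⟩ := ih
      simp only [Finset.sum_insert hj]
      have h1 : LipschitzWith _ (fun x : E => kr δ (x - R j)) :=
        (lipschitz_kr hδ).comp ((LipschitzWith.id).sub (LipschitzWith.const (R j)))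
      have h2 : LipschitzWith _ (fun x : E => z j * kr δ (x - R j)) :=
        (lipschitzWith_smul (z j)).comp h1
      exact ⟨_, h2.add hK⟩
  exact key Finset.univ

lemma dfun_Vs (hδ : 0 < δ) : Dfun (Vs z R δ) :=
  ⟨lipschitz_Vs hδ, tendsto_Vs hδ, by rw [gradient_Vs hδ]; exact memLp_gVs hδ⟩

lemma pairing_Vs {φ : E → ℝ} (hφ : Dfun φ) (hδ : 0 < δ) :
    ∫ x, ⟪∇ φ x, gVs z R δ x⟫ = 4 * Real.pi * PP z R δ φ := by
  unfold gVs PP
  have h1 : ∀ x, ⟪∇ φ x, ∑ j, z j • gk δ (x - R j)⟫ = ∑ j, z j * ⟪∇ φ x, gk δ (x - R j)⟫ := by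
    intro x
    rw [inner_sum]
    exact Finset.sum_congr rfl fun j _ => by rw [inner_smul_right]
  simp only [h1]
  have hint : ∀ j : Fin k, Integrable (fun x => ⟪∇ φ x, gk δ (x - R j)⟫) := by
    intro j
    have hg : MemLp (fun x => gk δ (x - R j)) 2 volume :=
      (memLp_gk hδ).comp_measurePreserving (measurePreserving_sub_right volume (R j))
    refine (integrable_norm_mul_norm hφ.grad hg).mono' (hφ.grad.1.inner hg.1)
      (Eventually.of_forall fun x => ?_)
    exact norm_inner_le_norm _ _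
  rw [integral_finsetSum _ fun j _ => (hint j).const_mul (z j), Finset.mul_sum]
  refine Finset.sum_congr rfl fun j _ => ?_
  rw [integral_const_mul, radial hφ (R j) hδ]
  ring

lemma integrable_grad_sq {φ : E → ℝ} (hφ : Dfun φ) : Integrable (fun x => ‖∇ φ x‖ ^ 2) :=
  hφ.grad.integrable_norm_pow (by norm_num)

lemma integrable_gVs_sq (hδ : 0 < δ) : Integrable (fun x => ‖gVs z R δ x‖ ^ 2) :=
  (memLp_gVs hδ).integrable_norm_pow (by norm_num)

lemma integrable_inner_gVs {φ : E → ℝ} (hφ : Dfun φ) (hδ : 0 < δ) :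
    Integrable (fun x => ⟪∇ φ x, gVs z R δ x⟫) := by
  refine (integrable_norm_mul_norm hφ.grad (memLp_gVs (z := z) (R := R) hδ)).mono'
    (hφ.grad.1.inner (memLp_gVs hδ).1) (Eventually.of_forall fun x => ?_)
  exact norm_inner_le_norm _ _

/-- completing the square -/
lemma energy_diff {φ : E → ℝ} (hφ : Dfun φ) (hδ : 0 < δ) :
    (8 * Real.pi)⁻¹ * ∫ x, ‖gVs z R δ x - ∇ φ x‖ ^ 2 =
      Cs z R δ - PP z R δ φ + (8 * Real.pi)⁻¹ * ∫ x, ‖∇ φ x‖ ^ 2 := by
  have h1 : ∀ x, ‖gVs z R δ x - ∇ φ x‖ ^ 2 =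
      ‖gVs z R δ x‖ ^ 2 + (-2) * ⟪∇ φ x, gVs z R δ x⟫ + ‖∇ φ x‖ ^ 2 := by
    intro x
    rw [norm_sub_sq_real, real_inner_comm]
    ring
  simp only [h1]
  have i1 := integrable_gVs_sq (z := z) (R := R) hδ
  have i2 := integrable_inner_gVs (z := z) (R := R) hφ hδ
  have i3 := integrable_grad_sq hφ
  have i4 : Integrable (fun x => ‖gVs z R δ x‖ ^ 2 + (-2) * ⟪∇ φ x, gVs z R δ x⟫) :=
    i1.add (i2.const_mul _)
  rw [integral_add i4 i3, integral_add i1 (i2.const_mul _), integral_const_mul, pairing_Vs hφ hδ, Cs]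
  have := Real.pi_pos
  field_simp
  ring

lemma Cs_eq (hδ : 0 < δ) :
    Cs z R δ = 1 / 2 * ∑ i, ∑ j, z i * z j * bavg (kr δ) (R i - R j) δ := by
  have h1 := pairing_Vs (z := z) (R := R) (dfun_Vs (z := z) (R := R) hδ) hδ
  rw [gradient_Vs hδ] at h1
  simp only [real_inner_self_eq_norm_sq] at h1
  unfold Cs
  rw [h1]
  have h2 : PP z R δ (Vs z R δ) = ∑ i, ∑ j, z i * z j * bavg (kr δ) (R i - R j) δ := by
    unfold PP
    refine Finset.sum_congr rfl fun i _ => ?_
    have h3 : bavg (Vs z R δ) (R i) δ = ∑ j, z j * bavg (kr δ) (R i - R j) δ := by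
      have h4 : Vs z R δ = fun x => ∑ j, z j * kr δ (x + -R j) := by
        ext x; simp [Vs, sub_eq_add_neg]
      have hc : Continuous (kr δ) := continuous_kr hδ
      rw [h4, bavg_sum Finset.univ (fun j => by fun_prop)]
      refine Finset.sum_congr rfl fun j _ => ?_
      rw [bavg_const_mul, bavg_comp_add, sub_eq_add_neg]
    rw [h3, Finset.mul_sum]
    exact Finset.sum_congr rfl fun j _ => by ring
  rw [h2]
  have := Real.pi_pos
  field_simp
  ring

end

end Pool.Agent.Helper54.TF
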