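import Pool.Agent.Helper54.TF.Weak

set_option autoImplicit false

open MeasureTheory Set Filter Topology
open scoped NNReal ENNReal RealInnerProductSpace Gradient Pointwise

namespace Pool.Agent.Helper54.TF

/-- convex combination of densities -/
def mix (t : ℝ) (ρ' ρ : E → ℝ) (x : E) : ℝ := (1 - t) * ρ' x + t * ρ x

section mix

variable {ρ' ρ : E → ℝ} {t : ℝ}

lemma mix_rpow_le (h' : Nice ρ') (h : Nice ρ) (ht0 : 0 ≤ t) (ht1 : t ≤ 1) (x : E) :
    mix t ρ' ρ x ^ (5 / 3 : ℝ) ≤ (1 - t) * ρ' x ^ (5 / 3 : ℝ) + t * ρ x ^ (5 / 3 : ℝ) := by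
  have := (convexOn_rpow (p := 5 / 3) (by norm_num)).2 (h'.nonneg x) (h.nonneg x)
    (by linarith : 0 ≤ 1 - t) ht0 (by ring)
  simpa [mix] using this

lemma Nice.mix (h' : Nice ρ') (h : Nice ρ) (ht0 : 0 ≤ t) (ht1 : t ≤ 1) : Nice (mix t ρ' ρ) := by
  have h1 : 0 ≤ 1 - t := by linarith
  have hn : ∀ x, 0 ≤ TF.mix t ρ' ρ x := fun x =>
    add_nonneg (mul_nonneg h1 (h'.nonneg x)) (mul_nonneg ht0 (h.nonneg x))
  have hi : Integrable (TF.mix t ρ' ρ) := (h'.int.const_mul _).add (h.int.const_mul _)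
  refine ⟨hn, hi, ?_⟩
  refine ((h'.int53.const_mul (1 - t)).add (h.int53.const_mul t)).mono' ?_
    (Eventually.of_forall fun x => ?_)
  · exact (hi.1.aemeasurable.pow_const _).aestronglyMeasurable
  · rw [Real.norm_of_nonneg (Real.rpow_nonneg (hn x) _)]
    exact mix_rpow_le h' h ht0 ht1 x

lemma cpot_mix (h' : Nice ρ') (h : Nice ρ) (x : E) :
    cpot (mix t ρ' ρ) x = (1 - t) * cpot ρ' x + t * cpot ρ x := by
  unfold cpot
  rw [← integral_const_mul, ← integral_const_mul,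
    ← integral_add ((h'.integrable_inv x).const_mul _) ((h.integrable_inv x).const_mul _)]
  exact integral_congr_ae (Eventually.of_forall fun y => by simp only [mix]; ring)

lemma DD_mix (h' : Nice ρ') (h : Nice ρ) :
    DD (mix t ρ' ρ) (mix t ρ' ρ) =
      (1 - t) ^ 2 * DD ρ' ρ' + 2 * t * (1 - t) * DD ρ' ρ + t ^ 2 * DD ρ ρ := by
  have e : DD (mix t ρ' ρ) (mix t ρ' ρ) = ∫ x, ((1 - t) ^ 2 * (ρ' x * cpot ρ' x) +
      (t * (1 - t)) * (ρ' x * cpot ρ x) + (t * (1 - t)) * (ρ x * cpot ρ' x) +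
      t ^ 2 * (ρ x * cpot ρ x)) := by
    unfold DD
    refine integral_congr_ae (Eventually.of_forall fun x => ?_)
    simp only [cpot_mix h' h, mix]
    ring
  have i1 := (integrable_mul_cpot h' h').const_mul ((1 - t) ^ 2)
  have i2 := (integrable_mul_cpot h' h).const_mul (t * (1 - t))
  have i3 := (integrable_mul_cpot h h').const_mul (t * (1 - t))
  have i4 := (integrable_mul_cpot h h).const_mul (t ^ 2)
  have i12 : Integrable (fun x => (1 - t) ^ 2 * (ρ' x * cpot ρ' x) +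
      (t * (1 - t)) * (ρ' x * cpot ρ x)) := i1.add i2
  have i123 : Integrable (fun x => (1 - t) ^ 2 * (ρ' x * cpot ρ' x) +
      (t * (1 - t)) * (ρ' x * cpot ρ x) + (t * (1 - t)) * (ρ x * cpot ρ' x)) := i12.add i3
  rw [e, integral_add i123 i4, integral_add i12 i3, integral_add i1 i2, integral_const_mul,
    integral_const_mul, integral_const_mul, integral_const_mul]
  change (1 - t) ^ 2 * DD ρ' ρ' + t * (1 - t) * DD ρ' ρ + t * (1 - t) * DD ρ ρ' + t ^ 2 * DD ρ ρ = _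
  rw [DD_comm h h']
  ring

end mix

variable {k : ℕ} {z : Fin k → ℝ} {R : Fin k → E} {δ : ℝ}

lemma As_mix_le (hδ : 0 < δ) {ρ' ρ : E → ℝ} {t : ℝ} (h' : Nice ρ') (h : Nice ρ) (ht0 : 0 ≤ t)
    (ht1 : t ≤ 1) : As z R δ (mix t ρ' ρ) ≤ (1 - t) * As z R δ ρ' + t * As z R δ ρ := by
  have hV := dfun_Vs (z := z) (R := R) hδ
  have h1 : ∫ x, mix t ρ' ρ x ^ (5 / 3 : ℝ) ≤
      (1 - t) * (∫ x, ρ' x ^ (5 / 3 : ℝ)) + t * ∫ x, ρ x ^ (5 / 3 : ℝ) := by
    rw [← integral_const_mul, ← integral_const_mul,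
      ← integral_add (h'.int53.const_mul _) (h.int53.const_mul _)]
    exact integral_mono (h'.mix h ht0 ht1).int53
      ((h'.int53.const_mul _).add (h.int53.const_mul _)) fun x => mix_rpow_le h' h ht0 ht1 x
  have h2 : ∫ x, Vs z R δ x * mix t ρ' ρ x =
      (1 - t) * (∫ x, Vs z R δ x * ρ' x) + t * ∫ x, Vs z R δ x * ρ x := by
    rw [← integral_const_mul, ← integral_const_mul,
      ← integral_add ((hV.integrable_mul h'.int).const_mul _)
        ((hV.integrable_mul h.int).const_mul _)]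
    exact integral_congr_ae (Eventually.of_forall fun x => by simp only [mix]; ring)
  unfold As
  rw [h2]
  linarith

/-- admissible densities of mass at most `lam` -/
def Adm (lam : ℝ) : Set (E → ℝ) := {ρ | Nice ρ ∧ ∫ x, ρ x ≤ lam}

lemma zero_mem_Adm {lam : ℝ} (hlam : 0 ≤ lam) : (fun _ => 0) ∈ Adm lam := by
  refine ⟨⟨fun _ => le_rfl, integrable_zero _ _ _, ?_⟩, by simpa using hlam⟩
  simp [Real.zero_rpow]

lemma mix_mem_Adm {lam t : ℝ} {ρ' ρ : E → ℝ} (h' : ρ' ∈ Adm lam) (h : ρ ∈ Adm lam) (ht0 : 0 ≤ t)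
    (ht1 : t ≤ 1) : mix t ρ' ρ ∈ Adm lam := by
  refine ⟨h'.1.mix h.1 ht0 ht1, ?_⟩
  have h1 : ∫ x, mix t ρ' ρ x = (1 - t) * (∫ x, ρ' x) + t * ∫ x, ρ x := by
    rw [← integral_const_mul, ← integral_const_mul,
      ← integral_add (h'.1.int.const_mul _) (h.1.int.const_mul _)]
    rfl
  rw [h1]
  have h2 := mul_le_mul_of_nonneg_left h'.2 (by linarith : 0 ≤ 1 - t)
  have h3 := mul_le_mul_of_nonneg_left h.2 ht0
  linarith

lemma Vs_mul_le (hz : ∀ j, 0 ≤ z j) (hδ : 0 < δ) {lam : ℝ} {ρ : E → ℝ} (h : ρ ∈ Adm lam) :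
    ∫ x, Vs z R δ x * ρ x ≤ (∑ j, z j) * (3 / (2 * δ)) * lam := by
  have hV := dfun_Vs (z := z) (R := R) hδ
  have hZ : 0 ≤ ∑ j, z j := Finset.sum_nonneg fun j _ => hz j
  calc ∫ x, Vs z R δ x * ρ x ≤ ∫ x, (∑ j, z j) * (3 / (2 * δ)) * ρ x :=
        integral_mono (hV.integrable_mul h.1.int) (h.1.int.const_mul _)
          fun x => mul_le_mul_of_nonneg_right (Vs_le hz hδ x) (h.1.nonneg x)
    _ = (∑ j, z j) * (3 / (2 * δ)) * ∫ x, ρ x := integral_const_mul _ _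
    _ ≤ _ := mul_le_mul_of_nonneg_left h.2 (by positivity)

lemma int53_nonneg {ρ : E → ℝ} (h : Nice ρ) : 0 ≤ ∫ x, ρ x ^ (5 / 3 : ℝ) :=
  integral_nonneg fun x => Real.rpow_nonneg (h.nonneg x) _

lemma As_ge (hz : ∀ j, 0 ≤ z j) (hδ : 0 < δ) {lam : ℝ} {ρ : E → ℝ} (h : ρ ∈ Adm lam) :
    -((∑ j, z j) * (3 / (2 * δ)) * lam) ≤ As z R δ ρ := by
  have h1 := Vs_mul_le (R := R) hz hδ h
  have h2 := int53_nonneg h.1
  unfold As
  linarith

/-- Approximate Euler–Lagrange inequality for near minimizers. -/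
lemma approx_EL (hδ : 0 < δ) {lam ε t : ℝ} {ρ' ρ : E → ℝ} (h' : ρ' ∈ Adm lam)
    (h : ρ ∈ Adm lam) (ht0 : 0 < t) (ht1 : t ≤ 1)
    (hmin : ∀ σ ∈ Adm lam, Xs z R δ ρ' - ε ≤ Xs z R δ σ) :
    As z R δ ρ' + DD ρ' ρ' - (As z R δ ρ + DD ρ' ρ) ≤
      ε / t + 1 / 2 * t * (DD ρ' ρ' + DD ρ ρ) := by
  have h1 := hmin _ (mix_mem_Adm h' h ht0.le ht1)
  have h2 := As_mix_le (z := z) (R := R) hδ h'.1 h.1 ht0.le ht1
  have h3 : DD (mix t ρ' ρ) (mix t ρ' ρ) = _ := DD_mix h'.1 h.1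
  have h4 : 0 ≤ DD ρ' ρ := DD_nonneg h'.1.nonneg h.1.nonneg
  unfold Xs at h1
  rw [h3] at h1
  have h5 : t * (As z R δ ρ' + DD ρ' ρ' - (As z R δ ρ + DD ρ' ρ)) ≤
      ε + 1 / 2 * t ^ 2 * (DD ρ' ρ' + DD ρ ρ) := by
    nlinarith [mul_nonneg (sq_nonneg t) h4]
  have h6 : t * (ε / t + 1 / 2 * t * (DD ρ' ρ' + DD ρ ρ)) =
      ε + 1 / 2 * t ^ 2 * (DD ρ' ρ' + DD ρ ρ) := by
    field_simp
  rw [← h6] at h5
  exact le_of_mul_le_mul_left h5 ht0

/-- bounded densities have small potential differences -/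
lemma inv_sub_kr_le {τ : ℝ} (hτ : 0 < τ) (hτ1 : τ ≤ 1) {u : E} (hu : u ≠ 0) :
    ‖u‖⁻¹ - kr τ u ≤ τ * sing u := by
  rcases lt_or_ge ‖u‖ τ with h | h
  · have h1 : 0 < ‖u‖ := norm_pos_iff.2 hu
    have h2 : sing u = ‖u‖ ^ (-(5 / 2) : ℝ) := by
      unfold sing
      rw [indicator_of_mem]
      rw [mem_ball_zero_iff]; linarith
    have h3 : ‖u‖⁻¹ = ‖u‖ ^ (3 / 2 : ℝ) * ‖u‖ ^ (-(5 / 2) : ℝ) := by
      rw [← Real.rpow_add h1, ← Real.rpow_neg_one]
      norm_num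
    have h4 : ‖u‖ ^ (3 / 2 : ℝ) ≤ ‖u‖ ^ (1 : ℝ) :=
      Real.rpow_le_rpow_of_exponent_ge h1 (by linarith) (by norm_num)
    rw [Real.rpow_one] at h4
    have h5 := kr_nonneg hτ u
    rw [h2]
    have h6 : 0 ≤ ‖u‖ ^ (-(5 / 2) : ℝ) := by positivity
    have h7 : ‖u‖⁻¹ ≤ τ * ‖u‖ ^ (-(5 / 2) : ℝ) := by
      rw [h3]
      exact mul_le_mul_of_nonneg_right (by linarith) h6
    linarith
  · rw [kr_of_ge hτ h, sub_self]
    exact mul_nonneg hτ.le (sing_nonneg u)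

lemma cpot_sub_pot_le {τ M : ℝ} (hτ : 0 < τ) (hτ1 : τ ≤ 1) {ρ : E → ℝ} (h : Nice ρ)
    (hM : ∀ x, ρ x ≤ M) (x : E) : cpot ρ x - pot τ ρ x ≤ M * τ * cI := by
  have hM0 : 0 ≤ M := (h.nonneg 0).trans (hM 0)
  unfold cpot pot
  rw [← integral_sub (h.integrable_inv x) (integrable_mul_kr hτ h.int x)]
  have h1 : ∫ y, (ρ y * ‖x - y‖⁻¹ - ρ y * kr τ (x - y)) ≤ ∫ y, M * τ * sing (x - y) := by
    refine integral_mono_ae ((h.integrable_inv x).sub (integrable_mul_kr hτ h.int x))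
      ((integrable_sing.comp_sub_left x).const_mul _) ?_
    have h2 : ∀ᵐ y : E, y ≠ x := by rw [ae_iff]; simp
    refine h2.mono fun y hy => ?_
    have hxy : x - y ≠ 0 := sub_ne_zero.2 hy.symm
    have h3 := inv_sub_kr_le hτ hτ1 hxy
    have h4 : 0 ≤ ‖x - y‖⁻¹ - kr τ (x - y) := sub_nonneg.2 (kr_le_inv hτ hxy)
    simp only
    rw [← mul_sub, mul_assoc]
    exact mul_le_mul (hM y) h3 h4 hM0
  refine h1.trans (le_of_eq ?_)
  rw [integral_const_mul, integral_sub_left_eq_self (fun y => sing y) volume x]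
  rfl

lemma cpot_le_of_bdd {M : ℝ} {ρ : E → ℝ} (h : Nice ρ) (hM : ∀ x, ρ x ≤ M) (x : E) :
    cpot ρ x ≤ M * cI + ∫ y, ρ y := by
  have hM0 : 0 ≤ M := (h.nonneg 0).trans (hM 0)
  have h1 := cpot_sub_pot_le one_pos le_rfl h hM x
  have h2 : pot 1 ρ x ≤ ∫ y, ρ y * (3 / 2) := by
    unfold pot
    refine integral_mono (integrable_mul_kr one_pos h.int x) (h.int.mul_const _) fun y => ?_
    have := kr_le one_pos (x - y)
    simp only
    exact mul_le_mul_of_nonneg_left (by simpa using this) (h.nonneg y)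
  -- use the pointwise bound instead
  have h3 : cpot ρ x ≤ ∫ y, (M * sing (x - y) + ρ y) := by
    unfold cpot
    refine integral_mono_ae (h.integrable_inv x) (((integrable_sing.comp_sub_left x).const_mul _).add h.int) ?_
    have h2 : ∀ᵐ y : E, y ≠ x := by rw [ae_iff]; simp
    refine h2.mono fun y hy => ?_
    have hxy : x - y ≠ 0 := sub_ne_zero.2 hy.symm
    have hpos : 0 < ‖x - y‖ := norm_pos_iff.2 hxy
    simp only
    rcases lt_or_ge ‖x - y‖ 1 with h5 | h5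
    · have h6 : ‖x - y‖⁻¹ ≤ sing (x - y) := by
        unfold sing
        rw [indicator_of_mem (by rwa [mem_ball_zero_iff]), ← Real.rpow_neg_one]
        exact Real.rpow_le_rpow_of_exponent_ge hpos h5.le (by norm_num)
      have h7 : ρ y * ‖x - y‖⁻¹ ≤ M * sing (x - y) :=
        mul_le_mul (hM y) h6 (by positivity) hM0
      linarith [h.nonneg y]
    · have h6 : ρ y * ‖x - y‖⁻¹ ≤ ρ y := mul_le_of_le_one_right (h.nonneg y) (inv_le_one_of_one_le₀ h5)
      have h7 := mul_nonneg hM0 (sing_nonneg (x - y))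
      linarith
  refine h3.trans (le_of_eq ?_)
  rw [integral_add ((integrable_sing.comp_sub_left x).const_mul _) h.int, integral_const_mul,
    integral_sub_left_eq_self (fun y => sing y) volume x]
  rfl

/-- The bathtub principle: choice of the Lagrange multiplier. -/
lemma exists_mu {φ : E → ℝ} (hφ : LC φ) {lam : ℝ} (hlam : 0 ≤ lam) :
    ∃ μ, 0 ≤ μ ∧ ∫ x, (max (φ x - μ) 0) ^ (3 / 2 : ℝ) ≤ lam ∧
      μ * lam = μ * ∫ x, (max (φ x - μ) 0) ^ (3 / 2 : ℝ) := by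
  let m : ℝ → ℝ := fun μ => ∫ x, (max (φ x - μ) 0) ^ (3 / 2 : ℝ)
  obtain ⟨C, hC⟩ := hφ.dfun.bounded
  obtain ⟨Rr, hRr⟩ := hφ.supp
  have hcont : ContinuousOn m (Ici 0) := by
    refine continuousOn_of_dominated
      (bound := (Metric.closedBall (0 : E) Rr).indicator fun _ => C ^ (3 / 2 : ℝ)) ?_ ?_ ?_ ?_
    · intro μ _
      refine Continuous.aestronglyMeasurable ?_
      refine Continuous.rpow_const ?_ fun x => Or.inr (by norm_num)
      have := hφ.continuous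
      fun_prop
    · intro μ hμ
      refine Eventually.of_forall fun x => ?_
      have hμ' : 0 ≤ μ := hμ
      rw [Real.norm_of_nonneg (by positivity)]
      by_cases hx : x ∈ Metric.closedBall (0 : E) Rr
      · rw [indicator_of_mem hx]
        refine Real.rpow_le_rpow (le_max_right _ _) ?_ (by norm_num)
        have := (abs_le.1 (hC x)).2
        have h0 : 0 ≤ C := (abs_nonneg _).trans (hC x)
        exact max_le (by linarith) h0
      · rw [indicator_of_notMem hx]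
        rw [mem_closedBall_zero_iff, not_le] at hx
        rw [hRr x hx.le, max_eq_right (by linarith), Real.zero_rpow (by norm_num)]
    · rw [integrable_indicator_iff measurableSet_closedBall]
      exact integrableOn_const measure_closedBall_lt_top.ne
    · refine Eventually.of_forall fun x => ?_
      refine Continuous.continuousOn ?_
      refine Continuous.rpow_const (by fun_prop) fun x => Or.inr (by norm_num)
  by_cases h0 : m 0 ≤ lam
  · exact ⟨0, le_rfl, h0, by simp⟩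
  · push Not at h0
    have hC0 : 0 ≤ C := (abs_nonneg _).trans (hC 0)
    have hmC : m C = 0 := by
      have : ∀ x, (max (φ x - C) 0) ^ (3 / 2 : ℝ) = 0 := by
        intro x
        have := (abs_le.1 (hC x)).2
        rw [max_eq_right (by linarith), Real.zero_rpow (by norm_num)]
      simp only [m, this]
      simp
    have hivt := intermediate_value_Icc' hC0 (hcont.mono Icc_subset_Ici_self)
    have hmem : lam ∈ Icc (m C) (m 0) := ⟨by rw [hmC]; exact hlam, h0.le⟩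
    obtain ⟨μ, hμ, hμ'⟩ := hivt hmem
    exact ⟨μ, hμ.1, hμ'.le, by rw [← hμ']⟩

end Pool.Agent.Helper54.TF
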