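import Pool.Agent.Helper54.TF.Strong

set_option autoImplicit false

open MeasureTheory Set Filter Topology
open scoped NNReal ENNReal RealInnerProductSpace Gradient Pointwise

namespace Pool.Agent.Helper54.TF

variable {k : ℕ} {z : Fin k → ℝ} {R : Fin k → E} {δ : ℝ}

/-- positive part of a shifted test function -/
lemma gradient_posPart_le {φ₀ : E → ℝ} {η : ℝ} (h₀ : ∀ᵐ x, DifferentiableAt ℝ φ₀ x)
    (hc : Continuous φ₀) (h : ∀ᵐ x, DifferentiableAt ℝ (fun x => max (φ₀ x - η) 0) x) :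
    ∀ᵐ x, ‖∇ (fun x => max (φ₀ x - η) 0) x‖ ≤ ‖∇ φ₀ x‖ := by
  filter_upwards [h₀, h] with x h1 h2
  have hcx := hc.continuousAt (x := x)
  rw [← norm_fderiv_eq, ← norm_fderiv_eq]
  rcases lt_trichotomy (φ₀ x) η with hlt | heq | hgt
  · have hev : (fun x => max (φ₀ x - η) 0) =ᶠ[𝓝 x] fun _ => 0 := by
      filter_upwards [hcx.eventually_lt continuousAt_const hlt] with y hy
      exact max_eq_right (by linarith)
    rw [hev.fderiv_eq]
    simp
  · have hmin : IsLocalMin (fun x => max (φ₀ x - η) 0) x := by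
      refine Eventually.of_forall fun y => ?_
      simp [heq]
    rw [hmin.fderiv_eq_zero]
    simp
  · have hev : (fun x => max (φ₀ x - η) 0) =ᶠ[𝓝 x] fun x => φ₀ x - η := by
      filter_upwards [continuousAt_const.eventually_lt hcx hgt] with y hy
      exact max_eq_left (by linarith)
    rw [hev.fderiv_eq, fderiv_sub_const]

/-- **Strong duality** (approximate form): the dual value comes arbitrarily close to the energy of
some admissible density. -/
theorem strong_duality (hz : ∀ j, 0 ≤ z j) (hδ : 0 < δ) {lam : ℝ} (hlam : 0 ≤ lam) {ε : ℝ}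
    (hε : 0 < ε) :
    ∃ ρ' ∈ Adm lam, ∃ φ : E → ℝ, LC φ ∧ ∃ μ, 0 ≤ μ ∧
      Xs z R δ ρ' + Cs z R δ ≤ FF z R δ lam μ φ + ε := by
  have hpi := Real.pi_pos
  have hZ : 0 ≤ ∑ j, z j := Finset.sum_nonneg fun j _ => hz j
  have hcI := cI_nonneg
  set Z : ℝ := ∑ j, z j with hZdef
  -- constants
  let v : ℝ := Z * (3 / (2 * δ))
  have hv : 0 ≤ v := by positivity
  let M : ℝ := v ^ (3 / 2 : ℝ)
  have hM : 0 ≤ M := by positivity
  let B : ℝ := 2 * (1 + v * lam) + lam * (M * cI + lam)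
  have hB : 0 ≤ B := by positivity
  let t : ℝ := min 1 (ε / (2 * (B + 1)))
  have ht0 : 0 < t := lt_min one_pos (by positivity)
  have ht1 : t ≤ 1 := min_le_left _ _
  have htB : 1 / 2 * t * B ≤ ε / 4 := by
    have h1 : t ≤ ε / (2 * (B + 1)) := min_le_right _ _
    have h2 : t * B ≤ ε / (2 * (B + 1)) * B := mul_le_mul_of_nonneg_right h1 hB
    have h3 : ε / (2 * (B + 1)) * B ≤ ε / 2 := by
      rw [div_mul_eq_mul_div, div_le_div_iff₀ (by positivity) (by positivity)]
      nlinarith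
    linarith
  let ε₁ : ℝ := min 1 (t * (ε / 4))
  have hε₁ : 0 < ε₁ := lt_min one_pos (by positivity)
  have hε₁1 : ε₁ ≤ 1 := min_le_left _ _
  have hε₁t : ε₁ / t ≤ ε / 4 := by
    rw [div_le_iff₀ ht0, mul_comm]
    exact min_le_right _ _
  let τ : ℝ := min 1 (ε / (8 * (M * cI * lam + 1)))
  have hτ : 0 < τ := lt_min one_pos (by positivity)
  have hτ1 : τ ≤ 1 := min_le_left _ _
  have hτM : M * τ * cI * lam ≤ ε / 8 := by
    have h1 : τ ≤ ε / (8 * (M * cI * lam + 1)) := min_le_right _ _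
    have h0 : 0 ≤ M * cI * lam := by positivity
    have h2 : τ * (M * cI * lam) ≤ ε / (8 * (M * cI * lam + 1)) * (M * cI * lam) :=
      mul_le_mul_of_nonneg_right h1 h0
    have h3 : ε / (8 * (M * cI * lam + 1)) * (M * cI * lam) ≤ ε / 8 := by
      rw [div_mul_eq_mul_div, div_le_div_iff₀ (by positivity) (by positivity)]
      nlinarith
    calc M * τ * cI * lam = τ * (M * cI * lam) := by ring
      _ ≤ _ := h2.trans h3
  let η : ℝ := ε / (8 * (Z + 1))
  have hη : 0 < η := by positivity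
  have hηZ : η * Z ≤ ε / 8 := by
    show ε / (8 * (Z + 1)) * Z ≤ ε / 8
    rw [div_mul_eq_mul_div, div_le_div_iff₀ (by positivity) (by positivity)]
    nlinarith
  -- near minimizer
  let S : Set ℝ := Xs z R δ '' Adm lam
  have hSne : S.Nonempty := ⟨_, _, zero_mem_Adm hlam, rfl⟩
  have hXge : ∀ σ ∈ Adm lam, -(v * lam) ≤ Xs z R δ σ := by
    intro σ hσ
    have h1 := As_ge (R := R) hz hδ hσ
    have h2 := DD_nonneg hσ.1.nonneg hσ.1.nonneg
    unfold Xs
    simp only [v]
    linarith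
  have hSbdd : BddBelow S := ⟨-(v * lam), by
    rintro _ ⟨σ, hσ, rfl⟩
    exact hXge σ hσ⟩
  obtain ⟨_, ⟨ρ', hρ', rfl⟩, hnear⟩ := exists_lt_of_csInf_lt hSne (lt_add_of_pos_right (sInf S) hε₁)
  have hmin : ∀ σ ∈ Adm lam, Xs z R δ ρ' - ε₁ ≤ Xs z R δ σ := by
    intro σ hσ
    have := csInf_le hSbdd ⟨σ, hσ, rfl⟩
    linarith
  have hX0 : Xs z R δ (fun _ => 0) = 0 := by
    unfold Xs As DD cpot
    simp [Real.zero_rpow]
  have hXle : Xs z R δ ρ' ≤ ε₁ := by
    have := hmin _ (zero_mem_Adm hlam)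
    rw [hX0] at this
    linarith
  have hDD' : DD ρ' ρ' ≤ 2 * (1 + v * lam) := by
    have h1 := As_ge (R := R) hz hδ hρ'
    unfold Xs at hXle
    simp only [v]
    linarith
  -- the trial potential
  have hV := dfun_Vs (z := z) (R := R) hδ
  have hpotD := dfun_pot hτ hρ'.1.nonneg hρ'.1.int
  let φ₀ : E → ℝ := fun x => Vs z R δ x - pot τ ρ' x
  have hφ₀ : Dfun φ₀ := hV.sub hpotD
  have hφ₀grad : ∀ x, ∇ φ₀ x = gVs z R δ x - fld τ ρ' x := by
    intro x
    rw [gradient_sub_of (hasGradientAt_Vs hδ x).differentiableAt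
      (hasGradientAt_pot hτ hρ'.1.int x).differentiableAt, gradient_Vs hδ,
      gradient_pot hτ hρ'.1.int]
  let φ : E → ℝ := fun x => max (φ₀ x - η) 0
  have hφ₀le : ∀ x, φ₀ x ≤ Vs z R δ x := by
    intro x
    have := pot_nonneg hτ hρ'.1.nonneg x
    simp only [φ₀]
    linarith
  have hφLC : LC φ := by
    obtain ⟨K, hK⟩ := hφ₀.lip
    refine ⟨⟨_, (hK.sub (LipschitzWith.const η)).max_const 0⟩, ?_⟩
    have h1 : ∀ᶠ x in cocompact E, Vs z R δ x < η := (tendsto_Vs hδ).eventually_lt_const hη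
    rw [← Metric.cobounded_eq_cocompact, ← comap_norm_atTop, eventually_comap] at h1
    obtain ⟨Rr, hRr⟩ := eventually_atTop.1 h1
    refine ⟨Rr, fun x hx => ?_⟩
    have h2 := hRr ‖x‖ hx x rfl
    have h3 := hφ₀le x
    exact max_eq_right (by linarith)
  obtain ⟨μ, hμ, hmass, hμlam⟩ := exists_mu hφLC hlam
  refine ⟨ρ', hρ', φ, hφLC, μ, hμ, ?_⟩
  -- the comparison density
  let ρ : E → ℝ := fun x => (max (φ x - μ) 0) ^ (3 / 2 : ℝ)
  have hρ0 : ∀ x, 0 ≤ ρ x := fun x => by positivity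
  have hρcont : Continuous ρ := by
    refine Continuous.rpow_const ?_ fun x => Or.inr (by norm_num)
    have := hφLC.continuous
    fun_prop
  obtain ⟨Rr, hRr⟩ := hφLC.supp
  have hρsupp : ∀ x, Rr ≤ ‖x‖ → ρ x = 0 := by
    intro x hx
    simp only [ρ]
    rw [hRr x hx, max_eq_right (by linarith), Real.zero_rpow (by norm_num)]
  have hρcs : HasCompactSupport ρ := by
    refine HasCompactSupport.of_support_subset_isCompact (isCompact_closedBall 0 Rr) fun x hx => ?_
    rw [mem_closedBall_zero_iff]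
    by_contra hcon
    push Not at hcon
    exact hx (hρsupp x hcon.le)
  have hρ53 : ∀ x, ρ x ^ (5 / 3 : ℝ) = (max (φ x - μ) 0) ^ (5 / 2 : ℝ) := by
    intro x
    simp only [ρ]
    rw [← Real.rpow_mul (le_max_right _ _)]
    norm_num
  have hρNice : Nice ρ := by
    refine ⟨hρ0, hρcont.integrable_of_hasCompactSupport hρcs, ?_⟩
    have h1 : Continuous (fun x => ρ x ^ (5 / 3 : ℝ)) :=
      hρcont.rpow_const fun x => Or.inr (by norm_num)
    refine h1.integrable_of_hasCompactSupport ?_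
    exact hρcs.comp_left (g := fun u : ℝ => u ^ (5 / 3 : ℝ)) (Real.zero_rpow (by norm_num))
  have hρAdm : ρ ∈ Adm lam := ⟨hρNice, hmass⟩
  have hρM : ∀ x, ρ x ≤ M := by
    intro x
    refine Real.rpow_le_rpow (le_max_right _ _) ?_ (by norm_num)
    refine max_le ?_ hv
    have h1 : φ x ≤ v := by
      refine max_le ?_ hv
      have h2 := hφ₀le x
      have h3 : Vs z R δ x ≤ v := Vs_le hz hδ x
      linarith
    linarith
  have hcross : ∀ x, φ x * ρ x = ρ x ^ (5 / 3 : ℝ) + μ * ρ x := by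
    intro x
    rw [hρ53]
    rcases le_or_gt (φ x) μ with h | h
    · have : ρ x = 0 := by
        simp only [ρ]
        rw [max_eq_right (by linarith), Real.zero_rpow (by norm_num)]
      rw [this, max_eq_right (by linarith), Real.zero_rpow (by norm_num)]
      ring
    · have h1 : 0 < φ x - μ := by linarith
      simp only [ρ]
      rw [max_eq_left h1.le]
      have h2 : (φ x - μ) ^ (5 / 2 : ℝ) = (φ x - μ) * (φ x - μ) ^ (3 / 2 : ℝ) := by
        nth_rewrite 2 [← Real.rpow_one (φ x - μ)]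
        rw [← Real.rpow_add h1]
        norm_num
      rw [h2]
      ring
  have hle₀ : ∀ x, φ x * ρ x ≤ φ₀ x * ρ x := by
    intro x
    rcases le_or_gt (φ x) μ with h | h
    · have : ρ x = 0 := by
        simp only [ρ]
        rw [max_eq_right (by linarith), Real.zero_rpow (by norm_num)]
      rw [this]; simp
    · refine mul_le_mul_of_nonneg_right ?_ (hρ0 x)
      have h1 : 0 < φ x := by linarith
      have h2 : φ x = φ₀ x - η := by
        rcases max_choice (φ₀ x - η) 0 with h3 | h3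
        · exact h3
        · exfalso
          have : φ x = 0 := h3
          linarith
      linarith
  -- (a)-(e): the field part
  have hPP : PP z R δ φ₀ - η * Z ≤ PP z R δ φ := by
    unfold PP
    rw [hZdef, Finset.mul_sum, ← Finset.sum_sub_distrib]
    refine Finset.sum_le_sum fun j _ => ?_
    have h1 : bavg φ₀ (R j) δ - η ≤ bavg φ (R j) δ := by
      have h2 : bavg (fun x => φ₀ x - η) (R j) δ = bavg φ₀ (R j) δ - η := by
        rw [bavg_sub hφ₀.continuous continuous_const, bavg_const]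
      rw [← h2]
      exact bavg_mono (hφ₀.continuous.sub continuous_const) hφLC.continuous hδ
        fun x _ => le_max_left _ _
    have := mul_le_mul_of_nonneg_left h1 (hz j)
    linarith
  have hgrad : ∫ x, ‖∇ φ x‖ ^ 2 ≤ ∫ x, ‖∇ φ₀ x‖ ^ 2 := by
    refine integral_mono_ae (integrable_grad_sq hφLC.dfun) (integrable_grad_sq hφ₀) ?_
    filter_upwards [gradient_posPart_le (η := η) hφ₀.ae_diff hφ₀.continuous hφLC.ae_diff] with x hx
    exact pow_le_pow_left₀ (norm_nonneg _) hx 2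
  have hsq := energy_diff (z := z) (R := R) hφ₀ hδ
  have hfl : ∫ x, ‖gVs z R δ x - ∇ φ₀ x‖ ^ 2 = ∫ x, ‖fld τ ρ' x‖ ^ 2 := by
    refine integral_congr_ae (Eventually.of_forall fun x => ?_)
    simp only [hφ₀grad x, sub_sub_cancel]
  rw [hfl] at hsq
  have hfe := fld_energy hτ hρ'.1.nonneg hρ'.1.int
  have hpe := pot_energy_le hτ hρ'.1 hρ'.1
  have hfield : (8 * Real.pi)⁻¹ * ∫ x, ‖fld τ ρ' x‖ ^ 2 ≤ 1 / 2 * DD ρ' ρ' := by
    have h1 : ∫ x, ‖fld τ ρ' x‖ ^ 2 ≤ 4 * Real.pi * DD ρ' ρ' :=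
      hfe.trans (mul_le_mul_of_nonneg_left hpe (by positivity))
    calc (8 * Real.pi)⁻¹ * ∫ x, ‖fld τ ρ' x‖ ^ 2 ≤ (8 * Real.pi)⁻¹ * (4 * Real.pi * DD ρ' ρ') :=
          mul_le_mul_of_nonneg_left h1 (by positivity)
      _ = 1 / 2 * DD ρ' ρ' := by field_simp; ring
  have hgrad' : (8 * Real.pi)⁻¹ * (∫ x, ‖∇ φ x‖ ^ 2) ≤ (8 * Real.pi)⁻¹ * ∫ x, ‖∇ φ₀ x‖ ^ 2 :=
    mul_le_mul_of_nonneg_left hgrad (by positivity)
  -- the density part
  have iG : Integrable (fun x => Gm μ (φ x)) := by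
    have := integrable_dens (0 : ℝ) (continuous_Gm μ) (Gm_zero hμ) hφLC
    refine this.congr (Eventually.of_forall fun x => ?_)
    simp [dens]
  have hdens : ∫ x, dens (8 * Real.pi)⁻¹ (Gm μ) φ x =
      (8 * Real.pi)⁻¹ * (∫ x, ‖∇ φ x‖ ^ 2) + ∫ x, Gm μ (φ x) := by
    unfold dens
    simp only [norm_fderiv_eq]
    rw [integral_add ((integrable_grad_sq hφLC.dfun).const_mul _) iG, integral_const_mul]
  have hGint : ∫ x, Gm μ (φ x) = 2 / 5 * ∫ x, ρ x ^ (5 / 3 : ℝ) := by
    rw [← integral_const_mul]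
    refine integral_congr_ae (Eventually.of_forall fun x => ?_)
    simp only [Gm, hρ53]
  have hφρ : ∫ x, φ x * ρ x = (∫ x, ρ x ^ (5 / 3 : ℝ)) + μ * ∫ x, ρ x := by
    rw [← integral_const_mul, ← integral_add hρNice.int53 (hρNice.int.const_mul _)]
    exact integral_congr_ae (Eventually.of_forall fun x => hcross x)
  have hφφ₀ : ∫ x, φ x * ρ x ≤ ∫ x, φ₀ x * ρ x :=
    integral_mono (hφLC.dfun.integrable_mul hρNice.int) (hφ₀.integrable_mul hρNice.int) hle₀
  have hφ₀ρ : ∫ x, φ₀ x * ρ x = (∫ x, Vs z R δ x * ρ x) - ∫ x, ρ x * pot τ ρ' x := by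
    rw [← integral_sub (hV.integrable_mul hρNice.int) (integrable_mul_pot hτ hρNice.int hρ'.1.int)]
    refine integral_congr_ae (Eventually.of_forall fun x => ?_)
    simp only [φ₀]; ring
  have hDρ : DD ρ' ρ - M * τ * cI * lam ≤ ∫ x, ρ x * pot τ ρ' x := by
    rw [pot_symm hτ hρNice.int hρ'.1.int]
    have h1 : DD ρ' ρ - ∫ x, ρ' x * pot τ ρ x = ∫ x, ρ' x * (cpot ρ x - pot τ ρ x) := by
      unfold DD
      rw [← integral_sub (integrable_mul_cpot hρ'.1 hρNice)
        (integrable_mul_pot hτ hρ'.1.int hρNice.int)]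
      exact integral_congr_ae (Eventually.of_forall fun x => by simp only; ring)
    have h2 : ∫ x, ρ' x * (cpot ρ x - pot τ ρ x) ≤ ∫ x, ρ' x * (M * τ * cI) := by
      refine integral_mono ?_ (hρ'.1.int.mul_const _) fun x =>
        mul_le_mul_of_nonneg_left (cpot_sub_pot_le hτ hτ1 hρNice hρM x) (hρ'.1.nonneg x)
      refine ((integrable_mul_cpot hρ'.1 hρNice).sub
        (integrable_mul_pot hτ hρ'.1.int hρNice.int)).congr (Eventually.of_forall fun x => ?_)
      simp only [Pi.sub_apply]; ring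
    rw [integral_mul_const] at h2
    have h3 : (∫ x, ρ' x) * (M * τ * cI) ≤ lam * (M * τ * cI) :=
      mul_le_mul_of_nonneg_right hρ'.2 (by positivity)
    linarith
  -- Euler–Lagrange
  have hDD : DD ρ ρ ≤ lam * (M * cI + lam) := by
    have h1 : DD ρ ρ ≤ ∫ x, ρ x * (M * cI + lam) := by
      refine integral_mono (integrable_mul_cpot hρNice hρNice) (hρNice.int.mul_const _) fun x =>
        mul_le_mul_of_nonneg_left ?_ (hρ0 x)
      have := cpot_le_of_bdd hρNice hρM x
      have h2 : ∫ y, ρ y ≤ lam := hmass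
      linarith
    rw [integral_mul_const] at h1
    exact h1.trans (mul_le_mul_of_nonneg_right hmass (by positivity))
  have hEL := approx_EL (z := z) (R := R) hδ hρ' hρAdm ht0 ht1 hmin
  have hsumB : DD ρ' ρ' + DD ρ ρ ≤ B := by
    simp only [B]
    linarith
  have hEL2 : 1 / 2 * t * (DD ρ' ρ' + DD ρ ρ) ≤ 1 / 2 * t * B :=
    mul_le_mul_of_nonneg_left hsumB (by positivity)
  have hμρ : μ * lam = μ * ∫ x, ρ x := hμlam
  unfold FF Xs
  rw [hdens, hGint, hμρ]
  unfold As at hEL ⊢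
  linarith

end Pool.Agent.Helper54.TF
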