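import Pool.Agent.Helper54.TF.Smear

set_option autoImplicit false

open MeasureTheory Set Filter Topology
open scoped NNReal ENNReal RealInnerProductSpace Gradient Pointwise

namespace Pool.Agent.Helper54.TF

/-- Legendre transform of the kinetic energy density -/
noncomputable def Gm (μ u : ℝ) : ℝ := 2 / 5 * (max (u - μ) 0) ^ (5 / 2 : ℝ)

lemma continuous_Gm (μ : ℝ) : Continuous (Gm μ) := by
  unfold Gm
  refine continuous_const.mul (Continuous.rpow_const (by fun_prop) fun x => Or.inr (by norm_num))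

lemma Gm_zero {μ : ℝ} (hμ : 0 ≤ μ) : Gm μ 0 = 0 := by
  unfold Gm
  rw [max_eq_right (by linarith), Real.zero_rpow (by norm_num), mul_zero]

lemma Gm_nonneg (μ u : ℝ) : 0 ≤ Gm μ u := by
  unfold Gm
  positivity

lemma Gm_young {μ u r : ℝ} (hr : 0 ≤ r) : u * r ≤ 3 / 5 * r ^ (5 / 3 : ℝ) + Gm μ u + μ * r := by
  have h := Real.young_inequality_of_nonneg (a := r) (b := max (u - μ) 0) hr (le_max_right _ _) conj
  have h1 : (u - μ) * r ≤ r * max (u - μ) 0 := by
    rw [mul_comm]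
    exact mul_le_mul_of_nonneg_left (le_max_left _ _) hr
  unfold Gm
  have h2 : r ^ (5 / 3 : ℝ) / (5 / 3) = 3 / 5 * r ^ (5 / 3 : ℝ) := by ring
  have h3 : (max (u - μ) 0) ^ (5 / 2 : ℝ) / (5 / 2) = 2 / 5 * (max (u - μ) 0) ^ (5 / 2 : ℝ) := by ring
  rw [h2, h3] at h
  linarith

variable {k : ℕ} {z : Fin k → ℝ} {R : Fin k → E} {δ : ℝ}

/-- one-body part of the smeared functional -/
noncomputable def As (z : Fin k → ℝ) (R : Fin k → E) (δ : ℝ) (ρ : E → ℝ) : ℝ :=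
  3 / 5 * (∫ x, ρ x ^ (5 / 3 : ℝ)) - ∫ x, Vs z R δ x * ρ x

/-- the smeared Thomas–Fermi functional (without nuclear repulsion) -/
noncomputable def Xs (z : Fin k → ℝ) (R : Fin k → E) (δ : ℝ) (ρ : E → ℝ) : ℝ :=
  As z R δ ρ + 1 / 2 * DD ρ ρ

/-- the dual functional -/
noncomputable def FF (z : Fin k → ℝ) (R : Fin k → E) (δ lam μ : ℝ) (φ : E → ℝ) : ℝ :=
  PP z R δ φ - (∫ x, dens (8 * Real.pi)⁻¹ (Gm μ) φ x) - μ * lam

lemma integrable_mul_of_bdd {f ρ : E → ℝ} (hf : Continuous f) {C : ℝ} (hC : ∀ x, |f x| ≤ C)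
    (hρ : Integrable ρ) : Integrable (fun x => f x * ρ x) := by
  refine (hρ.norm.const_mul C).mono' (hf.aestronglyMeasurable.mul hρ.1)
    (Eventually.of_forall fun x => ?_)
  rw [norm_mul]
  exact mul_le_mul_of_nonneg_right (hC x) (norm_nonneg _)

lemma Dfun.integrable_mul {f ρ : E → ℝ} (hf : Dfun f) (hρ : Integrable ρ) :
    Integrable (fun x => f x * ρ x) := by
  obtain ⟨C, hC⟩ := hf.bounded
  exact integrable_mul_of_bdd hf.continuous hC hρ

/-- **Weak duality.** -/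
theorem weak_duality (hδ : 0 < δ) {φ : E → ℝ} (hφ : LC φ) {μ lam : ℝ} (hμ : 0 ≤ μ) {ρ : E → ℝ}
    (hρ : Nice ρ) (hlam : ∫ x, ρ x ≤ lam) :
    FF z R δ lam μ φ ≤ Xs z R δ ρ + Cs z R δ := by
  have hV := dfun_Vs (z := z) (R := R) hδ
  have hχ : Dfun (fun x => Vs z R δ x - φ x) := hV.sub hφ.dfun
  have h1 := weak_coulomb hχ hρ
  have h2 : ∫ x, ‖∇ (fun x => Vs z R δ x - φ x) x‖ ^ 2 = ∫ x, ‖gVs z R δ x - ∇ φ x‖ ^ 2 := by
    refine integral_congr_ae ?_
    filter_upwards [hφ.ae_diff] with x hx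
    rw [gradient_sub_of (hasGradientAt_Vs hδ x).differentiableAt hx, gradient_Vs hδ]
  rw [h2, energy_diff hφ.dfun hδ] at h1
  have h3 : ∫ x, (Vs z R δ x - φ x) * ρ x = (∫ x, Vs z R δ x * ρ x) - ∫ x, φ x * ρ x := by
    rw [← integral_sub (hV.integrable_mul hρ.int) (hφ.dfun.integrable_mul hρ.int)]
    exact integral_congr_ae (Eventually.of_forall fun x => by simp only; ring)
  rw [h3] at h1
  -- the density
  have iG : Integrable (fun x => Gm μ (φ x)) := by
    have := integrable_dens (0 : ℝ) (continuous_Gm μ) (Gm_zero hμ) hφ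
    refine this.congr (Eventually.of_forall fun x => ?_)
    simp [dens]
  have h4 : ∫ x, φ x * ρ x ≤ ∫ x, (3 / 5 * ρ x ^ (5 / 3 : ℝ) + Gm μ (φ x) + μ * ρ x) :=
    integral_mono (hφ.dfun.integrable_mul hρ.int)
      (((hρ.int53.const_mul _).add iG).add (hρ.int.const_mul _))
      fun x => Gm_young (hρ.nonneg x)
  have i5 : Integrable (fun x => 3 / 5 * ρ x ^ (5 / 3 : ℝ) + Gm μ (φ x)) :=
    (hρ.int53.const_mul _).add iG
  rw [integral_add i5 (hρ.int.const_mul _), integral_add (hρ.int53.const_mul _) iG,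
    integral_const_mul, integral_const_mul] at h4
  have h5 : ∫ x, dens (8 * Real.pi)⁻¹ (Gm μ) φ x =
      (8 * Real.pi)⁻¹ * (∫ x, ‖∇ φ x‖ ^ 2) + ∫ x, Gm μ (φ x) := by
    unfold dens
    simp only [norm_fderiv_eq]
    rw [integral_add ((integrable_grad_sq hφ.dfun).const_mul _) iG, integral_const_mul]
  have h6 : μ * ∫ x, ρ x ≤ μ * lam := mul_le_mul_of_nonneg_left hlam hμ
  unfold FF Xs As
  rw [h5]
  linarith

end Pool.Agent.Helper54.TF
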